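import Mathlib

/-!
# Lindelöf scattered Eberlein–Grothendieck spaces are sigma-discrete

`f : X → K → ℝ` is an embedding into the product, `K` is compact and every `f x` is continuous.
A finitary closing-off operator `G` on `X ⊕ K` is chosen; for a `G`-closed set `Z` there is a
continuous retraction `r Z` of `X` onto `{x | inl x ∈ Z}`. Along a continuous well-ordered chain of
closed sets the retractions of a point take only finitely many values, and their number is a lower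
semicontinuous function of the point. This allows an induction on cardinality.
-/

set_option autoImplicit false

open Set Topology

namespace Pool.Agent.H960R3.LSEG

/-! ### Closed sets of a finitary operator -/

section Closed

variable {T : Type} (G : List T → Set T)

def IsCl (Z : Set T) : Prop := ∀ l : List T, (∀ a ∈ l, a ∈ Z) → G l ⊆ Z

def Cl (S : Set T) : Set T := ⋂₀ {Z | IsCl G Z ∧ S ⊆ Z}

theorem isCl_Cl (S : Set T) : IsCl G (Cl G S) := by
  intro l hl a ha Z hZ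
  exact hZ.1 l (fun b hb => hl b hb Z hZ) ha

theorem subset_Cl (S : Set T) : S ⊆ Cl G S := fun _ ha _ hZ => hZ.2 ha

theorem Cl_subset {S Z : Set T} (hZ : IsCl G Z) (h : S ⊆ Z) : Cl G S ⊆ Z := fun _ ha => ha Z ⟨hZ, h⟩

theorem Cl_mono {S S' : Set T} (h : S ⊆ S') : Cl G S ⊆ Cl G S' :=
  Cl_subset G (isCl_Cl G S') (h.trans (subset_Cl G S'))

theorem isCl_iUnion {ι : Type*} [Nonempty ι] [LinearOrder ι] (Z : ι → Set T) (hm : Monotone Z)
    (hZ : ∀ i, IsCl G (Z i)) : IsCl G (⋃ i, Z i) := by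
  intro l hl
  have h1 : ∀ l : List T, (∀ a ∈ l, a ∈ ⋃ i, Z i) → ∃ i, ∀ a ∈ l, a ∈ Z i := by
    intro l
    induction l with
    | nil => intro _; exact ⟨Classical.arbitrary ι, by simp⟩
    | cons b l ih =>
      intro h
      obtain ⟨i, hi⟩ := ih (fun a ha => h a (List.mem_cons_of_mem _ ha))
      obtain ⟨j, hj⟩ := mem_iUnion.1 (h b List.mem_cons_self)
      refine ⟨max i j, fun a ha => ?_⟩
      rcases List.mem_cons.1 ha with rfl | ha
      · exact hm (le_max_right i j) hj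
      · exact hm (le_max_left i j) (hi a ha)
  obtain ⟨i, hi⟩ := h1 l hl
  exact (hZ i l hi).trans (subset_iUnion Z i)

open Cardinal in
theorem mk_Cl_le (hG : ∀ l, (G l).Countable) (S : Set T) : #(Cl G S) ≤ max #S ℵ₀ := by
  let st : Set T → Set T := fun R => R ∪ ⋃ l : List R, G (l.map Subtype.val)
  let Q : ℕ → Set T := fun m => st^[m] S
  have hQ : ∀ m, Q (m + 1) = Q m ∪ ⋃ l : List (Q m), G (l.map Subtype.val) := fun m =>
    Function.iterate_succ_apply' st m S
  have hmono : Monotone Q := monotone_nat_of_le_succ fun m => by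
    rw [hQ]; exact subset_union_left
  have hcard : ∀ m, #(Q m) ≤ max #S ℵ₀ := by
    intro m
    induction m with
    | zero => exact le_max_left _ _
    | succ m ih =>
      rw [hQ]
      refine (mk_union_le _ _).trans ?_
      refine add_le_of_le (le_max_right _ _) ih ?_
      refine (mk_iUnion_le _).trans ?_
      refine (mul_le_mul' (mk_list_le_max _) (ciSup_le' fun l => ?_)).trans
        (mul_le_of_le (le_max_right _ _) (max_le (le_max_right _ _) ih) (le_max_right _ _))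
      exact (hG _).le_aleph0
  have hcl : IsCl G (⋃ m, Q m) := by
    intro l hl
    have h1 : ∀ l : List T, (∀ a ∈ l, a ∈ ⋃ m, Q m) → ∃ m, ∀ a ∈ l, a ∈ Q m := by
      intro l
      induction l with
      | nil => intro _; exact ⟨0, by simp⟩
      | cons b l ih =>
        intro h
        obtain ⟨i, hi⟩ := ih (fun a ha => h a (List.mem_cons_of_mem _ ha))
        obtain ⟨j, hj⟩ := mem_iUnion.1 (h b List.mem_cons_self)
        refine ⟨max i j, fun a ha => ?_⟩
        rcases List.mem_cons.1 ha with rfl | ha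
        · exact hmono (le_max_right i j) hj
        · exact hmono (le_max_left i j) (hi a ha)
    obtain ⟨m, hm⟩ := h1 l hl
    refine Subset.trans ?_ (subset_iUnion Q (m + 1))
    rw [hQ]
    refine Subset.trans ?_ subset_union_right
    lift l to List (Q m) using hm
    exact subset_iUnion (fun l : List (Q m) => G (l.map Subtype.val)) l
  refine (mk_le_mk_of_subset (Cl_subset G hcl (subset_iUnion Q 0))).trans ?_
  refine (mk_iUnion_le _).trans ?_
  exact mul_le_of_le (le_max_right _ _) (by simp) (ciSup_le' hcard)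

end Closed

/-! ### The rank of a scattered space -/

section Rank

universe u

variable {K : Type u} [TopologicalSpace K]

/-- The set of points of rank at most `α`. -/
def D (K : Type u) [TopologicalSpace K] (α : Ordinal.{u}) : Set K :=
  {x | ∃ U : Set K, IsOpen U ∧ x ∈ U ∧ ∀ y ∈ U, y ≠ x → ∃ β, ∃ _ : β < α, y ∈ D K β}
termination_by α

theorem mem_D {α : Ordinal.{u}} {x : K} :
    x ∈ D K α ↔ ∃ U : Set K, IsOpen U ∧ x ∈ U ∧ ∀ y ∈ U, y ≠ x → ∃ β < α, y ∈ D K β := by
  rw [D]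
  simp only [exists_prop, mem_ofPred_eq]

def Scattered (K : Type u) [TopologicalSpace K] : Prop :=
  ∀ S : Set K, S.Nonempty → ∃ x ∈ S, ∃ U : Set K, IsOpen U ∧ U ∩ S = {x}

theorem exists_mem_D (h : Scattered K) (x : K) : ∃ α, x ∈ D K α := by
  by_contra hx
  obtain ⟨x, hxS, U, hU, hUS⟩ := h {x | ¬ ∃ α, x ∈ D K α} ⟨x, hx⟩
  have h1 : ∀ y : U, y.1 ≠ x → ∃ α, y.1 ∈ D K α := by
    intro y hy
    by_contra hcon
    have : y.1 ∈ U ∩ {x | ¬ ∃ α, x ∈ D K α} := ⟨y.2, hcon⟩
    rw [hUS] at this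
    exact hy this
  choose g hg using h1
  classical
  let g' : U → Ordinal.{u} := fun y => if h : y.1 ≠ x then g y h else 0
  refine hxS ⟨Order.succ (⨆ y, g' y), ?_⟩
  rw [mem_D]
  have hxU : x ∈ U := by
    have : x ∈ U ∩ {x | ¬ ∃ α, x ∈ D K α} := by rw [hUS]; rfl
    exact this.1
  refine ⟨U, hU, hxU, fun y hy hyx => ⟨g ⟨y, hy⟩ hyx, ?_, hg ⟨y, hy⟩ hyx⟩⟩
  rw [Order.lt_succ_iff]
  have h2 : g' ⟨y, hy⟩ = g ⟨y, hy⟩ hyx := by simp [g', hyx]
  rw [← h2]
  exact le_ciSup (Ordinal.bddAbove_of_small) _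

theorem exists_rank (h : Scattered K) :
    ∃ ρ : K → Ordinal.{u}, Function.Injective ρ ∧ ∀ x, IsOpen {y | ρ y ≤ ρ x} := by
  classical
  let rk : K → Ordinal.{u} := fun x => sInf {α | x ∈ D K α}
  have hrk : ∀ x, x ∈ D K (rk x) := fun x => csInf_mem (exists_mem_D h x)
  have hrk' : ∀ x, ∃ U : Set K, IsOpen U ∧ x ∈ U ∧ ∀ y ∈ U, y ≠ x → rk y < rk x := by
    intro x
    obtain ⟨U, hU, hx, hy⟩ := mem_D.1 (hrk x)
    refine ⟨U, hU, hx, fun y hyU hyx => ?_⟩
    obtain ⟨β, hβ, hyβ⟩ := hy y hyU hyx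
    exact lt_of_le_of_lt (csInf_le' hyβ) hβ
  let e : K ↪ Ordinal.{u} × K := ⟨fun x => (rk x, x), fun x y hxy => (Prod.mk.inj hxy).2⟩
  let r : K → K → Prop := e ⁻¹'o (Prod.Lex (· < ·) WellOrderingRel)
  have : IsWellOrder K r := (RelEmbedding.preimage e _).isWellOrder
  refine ⟨Ordinal.typein r, Ordinal.typein_injective r, fun x => ?_⟩
  rw [isOpen_iff_mem_nhds]
  intro y hy
  obtain ⟨U, hU, hyU, hlt⟩ := hrk' y
  filter_upwards [hU.mem_nhds hyU] with z hz
  by_cases hzy : z = y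
  · rw [hzy]; exact hy
  · have h1 : r z y := Prod.Lex.left _ _ (hlt z hz hzy)
    exact le_trans (le_of_lt ((Ordinal.typein_lt_typein r).2 h1)) hy

end Rank

/-! ### Sigma-discreteness along chains of retractions -/

section Chain

variable {X : Type} [TopologicalSpace X]

/-- `A` is a countable union of discrete subspaces. -/
def SD (A : Set X) : Prop :=
  ∃ c : X → ℕ, ∀ x ∈ A, ∃ U, IsOpen U ∧ x ∈ U ∧ ∀ y ∈ A, y ∈ U → c y = c x → y = x

/-- A system of retractions indexed by the closed sets. -/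
structure Retr {T : Type} (G : List T → Set T) (A : Set T → Set X) (r : Set T → X → X) : Prop where
  mono : ∀ Z Z', Z ⊆ Z' → A Z ⊆ A Z'
  union : ∀ {ι : Type} (Z : ι → Set T), A (⋃ i, Z i) = ⋃ i, A (Z i)
  mem : ∀ Z, IsCl G Z → ∀ x, r Z x ∈ A Z
  fix : ∀ Z, IsCl G Z → ∀ x ∈ A Z, r Z x = x
  comp : ∀ Z Z', IsCl G Z → IsCl G Z' → Z ⊆ Z' → ∀ x, r Z (r Z' x) = r Z x
  cont : ∀ Z, IsCl G Z → Continuous (r Z)

variable {T : Type} {G : List T → Set T} {A : Set T → Set X} {r : Set T → X → X}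

theorem Retr.isClosed [T2Space X] (h : Retr G A r) {Z : Set T} (hZ : IsCl G Z) :
    IsClosed (A Z) := by
  have h1 : A Z = {x | r Z x = x} := by
    ext x
    exact ⟨fun hx => h.fix Z hZ x hx, fun hx => by rw [← hx]; exact h.mem Z hZ x⟩
  rw [h1]
  exact isClosed_eq (h.cont Z hZ) continuous_id

theorem Retr.chain [T2Space X] (h : Retr G A r) {ι : Type} [LinearOrder ι] [WellFoundedLT ι]
    [Nonempty ι] (Z : ι → Set T) (hm : Monotone Z) (hZ : ∀ i, IsCl G (Z i))
    (hSD : ∀ i, SD (A (Z i))) : SD (A (⋃ i, Z i)) := by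
  classical
  have hU : IsCl G (⋃ i, Z i) := isCl_iUnion G Z hm hZ
  have hAm : ∀ i j, i ≤ j → A (Z i) ⊆ A (Z j) := fun i j hij => h.mono _ _ (hm hij)
  let R : ι → X → X := fun i => r (Z i)
  have Rfix : ∀ i, ∀ x ∈ A (Z i), R i x = x := fun i => h.fix _ (hZ i)
  have Rmem : ∀ i x, R i x ∈ A (Z i) := fun i => h.mem _ (hZ i)
  have Rcomp : ∀ i j, i ≤ j → ∀ x, R i (R j x) = R i x := fun i j hij =>
    h.comp _ _ (hZ i) (hZ j) (hm hij)
  -- finitely many values below each index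
  have hfin : ∀ i x, ((fun j => R j x) '' Iio i).Finite := by
    intro i x
    induction i using WellFoundedLT.induction with
    | ind i ih =>
      by_cases hne : (Iio i).Nonempty
      · have : Nonempty (Iio i) := hne.to_subtype
        have hcl : IsCl G (⋃ j : Iio i, Z j.1) :=
          isCl_iUnion G (fun j : Iio i => Z j.1) (fun a b hab => hm hab) (fun j => hZ j.1)
        have hmem := h.mem _ hcl x
        rw [h.union (fun j : Iio i => Z j.1)] at hmem
        obtain ⟨j0, hj0⟩ := mem_iUnion.1 hmem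
        set z := r (⋃ j : Iio i, Z j.1) x with hz
        refine ((ih j0.1 j0.2).union (finite_singleton z)).subset ?_
        rintro _ ⟨j, hj, rfl⟩
        rcases lt_or_ge j j0.1 with hlt | hge
        · exact Or.inl ⟨j, hlt, rfl⟩
        · right
          have h2 : R j z = R j x :=
            h.comp _ _ (hZ j) hcl (subset_iUnion (fun j : Iio i => Z j.1) ⟨j, hj⟩) x
          have h3 : R j z = z := Rfix j z (hAm _ _ hge hj0)
          show R j x = z
          rw [← h2, h3]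
      · rw [not_nonempty_iff_eq_empty.1 hne, image_empty]
        exact finite_empty
  let V : X → Set X := fun x => range fun i => R i x
  have hV : ∀ x, (V x).Finite := by
    intro x
    have hmem := h.mem _ hU x
    rw [h.union] at hmem
    obtain ⟨j0, hj0⟩ := mem_iUnion.1 hmem
    set z := r (⋃ j, Z j) x with hz
    refine ((hfin j0 x).union (finite_singleton z)).subset ?_
    rintro _ ⟨j, rfl⟩
    rcases lt_or_ge j j0 with hlt | hge
    · exact Or.inl ⟨j, hlt, rfl⟩
    · right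
      have h2 : R j z = R j x := h.comp _ _ (hZ j) hU (subset_iUnion Z j) x
      have h3 : R j z = z := Rfix j z (hAm _ _ hge hj0)
      show R j x = z
      rw [← h2, h3]
  have hVlt : ∀ y ∈ A (⋃ i, Z i), ∀ i, y ∉ A (Z i) → (V (R i y)).ncard < (V y).ncard := by
    intro y hy i hyi
    refine ncard_lt_ncard ?_ (hV y)
    rw [ssubset_iff_subset_ne]
    have h0 : ∀ j, R j (R i y) ∈ V y ∧ R j (R i y) ∈ A (Z i) := by
      intro j
      rcases le_total j i with hji | hij
      · rw [Rcomp j i hji]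
        exact ⟨⟨j, rfl⟩, hAm _ _ hji (Rmem j y)⟩
      · rw [Rfix j _ (hAm _ _ hij (Rmem i y))]
        exact ⟨⟨i, rfl⟩, Rmem i y⟩
    refine ⟨?_, fun heq => ?_⟩
    · rintro _ ⟨j, rfl⟩
      exact (h0 j).1
    · rw [h.union] at hy
      obtain ⟨j, hj⟩ := mem_iUnion.1 hy
      have h1 : y ∈ V y := ⟨j, Rfix j y hj⟩
      rw [← heq] at h1
      obtain ⟨k, hk⟩ := h1
      apply hyi
      rw [← hk]
      exact (h0 k).2
  have hlsc : ∀ x, ∃ U, IsOpen U ∧ x ∈ U ∧ ∀ y ∈ U, (V x).ncard ≤ (V y).ncard := by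
    intro x
    obtain ⟨O, hO, hdis⟩ := (hV x).t2_separation
    have hi0 : ∀ v ∈ V x, ∃ i, R i x = v := fun v hv => hv
    choose! i hi using hi0
    refine ⟨⋂ v ∈ V x, R (i v) ⁻¹' O v, ?_, ?_, ?_⟩
    · exact (hV x).isOpen_biInter fun v _ => (hO v).2.preimage (h.cont _ (hZ _))
    · refine mem_iInter₂.2 fun v hv => ?_
      show R (i v) x ∈ O v
      rw [hi v hv]
      exact (hO v).1
    · intro y hy
      rw [mem_iInter₂] at hy
      refine ncard_le_ncard_of_injOn (fun v => R (i v) y) (fun v _ => ⟨i v, rfl⟩) ?_ (hV y)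
      intro v hv w hw hvw
      by_contra hne
      have h1 := hdis hv hw hne
      have h2 : R (i v) y ∈ O v := hy v hv
      have h3 : R (i w) y ∈ O w := hy w hw
      simp only at hvw
      rw [hvw] at h2
      exact (disjoint_left.1 h1) h2 h3
  choose c hc using hSD
  have hex : ∀ x ∈ A (⋃ i, Z i), ∃ i, x ∈ A (Z i) ∧ ∀ j < i, x ∉ A (Z j) := by
    intro x hx
    rw [h.union] at hx
    obtain ⟨i, hi⟩ := mem_iUnion.1 hx
    obtain ⟨i, hi, hmin⟩ := WellFounded.has_min (wellFounded_lt (α := ι)) {i | x ∈ A (Z i)} ⟨i, hi⟩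
    exact ⟨i, hi, fun j hj hxj => hmin j hxj hj⟩
  choose! ix hix hixmin using hex
  refine ⟨fun x => Nat.pair (c (ix x) x) (V x).ncard, fun x hx => ?_⟩
  obtain ⟨U0, hU0, hxU0, hU0'⟩ := hc (ix x) x (hix x hx)
  obtain ⟨U1, hU1, hxU1, hU1'⟩ := hlsc x
  have hU2 : IsClosed (⋃ j : Iio (ix x), A (Z j.1)) := by
    by_cases hne : (Iio (ix x)).Nonempty
    · have : Nonempty (Iio (ix x)) := hne.to_subtype
      rw [← h.union (fun j : Iio (ix x) => Z j.1)]
      exact h.isClosed (isCl_iUnion G (fun j : Iio (ix x) => Z j.1) (fun a b hab => hm hab)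
        (fun j => hZ j.1))
    · have : IsEmpty (Iio (ix x)) := isEmpty_coe_sort.2 (not_nonempty_iff_eq_empty.1 hne)
      rw [iUnion_of_empty]
      exact isClosed_empty
  have hxU2 : x ∉ ⋃ j : Iio (ix x), A (Z j.1) := by
    intro hmem
    obtain ⟨j, hj⟩ := mem_iUnion.1 hmem
    exact hixmin x hx j.1 j.2 hj
  have hRx : R (ix x) x = x := Rfix _ _ (hix x hx)
  let U := U0 ∩ U1 ∩ (⋃ j : Iio (ix x), A (Z j.1))ᶜ
  have hUo : IsOpen U := (hU0.inter hU1).inter hU2.isOpen_compl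
  have hxU : x ∈ U := ⟨⟨hxU0, hxU1⟩, hxU2⟩
  refine ⟨U ∩ R (ix x) ⁻¹' U, hUo.inter (hUo.preimage (h.cont _ (hZ _))), ⟨hxU, ?_⟩, ?_⟩
  · show R (ix x) x ∈ U
    rw [hRx]; exact hxU
  · rintro y hy ⟨hyU, hyR⟩ hcol
    obtain ⟨hcol1, hcol2⟩ := Nat.pair_eq_pair.1 hcol
    rcases lt_trichotomy (ix y) (ix x) with hlt | heq | hgt
    · exact absurd (mem_iUnion.2 ⟨⟨ix y, hlt⟩, hix y hy⟩) hyU.2
    · refine hU0' y ?_ hyU.1.1 ?_
      · rw [← heq]; exact hix y hy
      · rw [← hcol1, heq]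
    · exfalso
      have h1 : y ∉ A (Z (ix x)) := hixmin y hy _ hgt
      have h2 := hVlt y hy _ h1
      have h3 : (V x).ncard ≤ (V (R (ix x) y)).ncard := hU1' _ hyR.1.2
      rw [← hcol2] at h3
      exact absurd h2 (not_lt.2 h3)

open Cardinal in
theorem Retr.sd [T2Space X] (h : Retr G A r) (hG : ∀ l, (G l).Countable)
    (hA : ∀ Z : Set T, Z.Countable → (A Z).Countable) :
    ∀ Z : Set T, IsCl G Z → SD (A Z) := by
  have key : ∀ κ : Cardinal.{0}, ∀ Z : Set T, IsCl G Z → #Z = κ → SD (A Z) := by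
    intro κ
    induction κ using WellFoundedLT.induction with
    | ind κ ih =>
      intro Z hZ hκ
      rcases le_or_gt κ ℵ₀ with hle | hgt
      · rw [← hκ, le_aleph0_iff_set_countable] at hle
        obtain ⟨c, hc⟩ := countable_iff_exists_injOn.1 (hA Z hle)
        exact ⟨c, fun x hx => ⟨univ, isOpen_univ, mem_univ x, fun y hy _ hcy => hc hy hx hcy⟩⟩
      · have hcard : #(κ.ord.ToType) = #Z := by rw [hκ]; simp
        obtain ⟨e⟩ := Cardinal.eq.1 hcard
        have hne : Nonempty κ.ord.ToType := by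
          rw [← mk_ne_zero_iff, hcard, hκ]
          exact (lt_trans aleph0_pos hgt).ne'
        let I : κ.ord.ToType → Set T := fun a => (fun b => (e b).1) '' Iic a
        let Zf : κ.ord.ToType → Set T := fun a => Cl G (I a)
        have hIc : ∀ a, #(I a) < κ := by
          intro a
          have h1 : #(Iio a) < κ := mk_Iio_toType_ord_lt a
          refine lt_of_le_of_lt mk_image_le ?_
          rw [← Iio_insert]
          refine lt_of_le_of_lt mk_insert_le ?_
          exact add_lt_of_lt hgt.le h1 (lt_trans one_lt_aleph0 hgt)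
        have hZf : ∀ a, IsCl G (Zf a) := fun a => isCl_Cl G _
        have hZm : Monotone Zf := fun a b hab => Cl_mono G (image_mono (Iic_subset_Iic.2 hab))
        have hZU : ⋃ a, Zf a = Z := by
          apply subset_antisymm
          · refine iUnion_subset fun a => Cl_subset G hZ ?_
            rintro _ ⟨b, _, rfl⟩
            exact (e b).2
          · intro z hz
            exact mem_iUnion.2 ⟨e.symm ⟨z, hz⟩, subset_Cl G _ ⟨e.symm ⟨z, hz⟩, mem_Iic.2 le_rfl, by simp⟩⟩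
        have := h.chain Zf hZm hZf (fun a => ih _ (lt_of_le_of_lt (mk_Cl_le G hG _)
          (max_lt (hIc a) hgt)) _ (hZf a) rfl)
        rw [hZU] at this
        exact this
  intro Z hZ
  exact key _ Z hZ rfl

end Chain

/-! ### Eberlein–Grothendieck spaces -/

section EG

variable {X K : Type} [TopologicalSpace X] [TopologicalSpace K] (f : X → K → ℝ)

/-- The subbasic open set of a point of `K`, a rational and a sign. -/
def W (e : K × ℚ × Bool) : Set X := {x | if e.2.2 then f x e.1 < e.2.1 else (e.2.1 : ℝ) < f x e.1}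

/-- The closed set of a list. -/
def Fc (w : List (K × ℚ × Bool)) : Set X := {x | ∀ e ∈ w, x ∉ W f e}

variable {f}

theorem isOpen_W (hf : IsEmbedding f) (e : K × ℚ × Bool) : IsOpen (W f e) := by
  have h1 : Continuous fun x => f x e.1 := (continuous_apply e.1).comp hf.continuous
  unfold W
  cases e.2.2 with
  | true => simpa using isOpen_lt h1 continuous_const
  | false => simpa using isOpen_lt continuous_const h1

theorem isClosed_Fc (hf : IsEmbedding f) (w : List (K × ℚ × Bool)) : IsClosed (Fc f w) := by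
  have h1 : Fc f w = ⋂ e ∈ w, (W f e)ᶜ := by
    ext x; simp [Fc]
  rw [h1]
  exact isClosed_biInter fun e _ => (isOpen_W hf e).isClosed_compl

theorem exists_Fc_subset (hf : IsEmbedding f) {U : Set X} (hU : IsOpen U) {y : X} (hy : y ∈ U) :
    ∃ w : List (K × ℚ × Bool), Fc f w ⊆ U ∧ Fc f w ∈ 𝓝 y := by
  obtain ⟨V, hV, rfl⟩ := hf.isInducing.isOpen_iff.1 hU
  obtain ⟨I, u, hu, hIu⟩ := isOpen_pi_iff.1 hV (f y) hy
  have h1 : ∀ a : K, ∃ q : ℚ × ℚ, a ∈ I → ((q.1 : ℝ) < f y a ∧ f y a < q.2 ∧ Icc (q.1 : ℝ) q.2 ⊆ u a) := by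
    intro a
    by_cases ha : a ∈ I
    · obtain ⟨hua, hfa⟩ := hu a ha
      obtain ⟨ε, hε, hb⟩ := Metric.isOpen_iff.1 hua _ hfa
      obtain ⟨q1, hq1, hq1'⟩ := exists_rat_btwn (show f y a - ε < f y a by linarith)
      obtain ⟨q2, hq2, hq2'⟩ := exists_rat_btwn (show f y a < f y a + ε by linarith)
      refine ⟨(q1, q2), fun _ => ⟨hq1', hq2, fun t ht => hb ?_⟩⟩
      rw [Metric.mem_ball, Real.dist_eq, abs_lt]
      constructor <;> linarith [ht.1, ht.2]
    · exact ⟨0, fun h => absurd h ha⟩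
  choose q hq using h1
  refine ⟨I.toList.flatMap fun a => [(a, (q a).1, true), (a, (q a).2, false)], ?_, ?_⟩
  · intro x hx
    apply hIu
    intro a ha
    apply (hq a ha).2.2
    have h2 := hx (a, (q a).1, true) (by
      rw [List.mem_flatMap]; exact ⟨a, Finset.mem_toList.2 ha, by simp⟩)
    have h3 := hx (a, (q a).2, false) (by
      rw [List.mem_flatMap]; exact ⟨a, Finset.mem_toList.2 ha, by simp⟩)
    simp [W] at h2 h3
    exact ⟨h2, h3⟩
  · have h4 : (⋂ a ∈ I, {x | ((q a).1 : ℝ) < f x a} ∩ {x | f x a < (q a).2}) ∈ 𝓝 y := by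
      rw [Filter.biInter_finset_mem]
      intro a ha
      have h1 : Continuous fun x => f x a := (continuous_apply a).comp hf.continuous
      exact ((isOpen_lt continuous_const h1).inter (isOpen_lt h1 continuous_const)).mem_nhds
        ⟨(hq a ha).1, (hq a ha).2.1⟩
    filter_upwards [h4] with x hx e he
    rw [List.mem_flatMap] at he
    obtain ⟨a, ha, he⟩ := he
    rw [mem_iInter₂] at hx
    obtain ⟨h5, h6⟩ := hx a (Finset.mem_toList.1 ha)
    simp only [mem_ofPred_eq] at h5 h6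
    simp only [List.mem_cons, List.not_mem_nil, or_false] at he
    rcases he with rfl | rfl
    · simpa [W] using h5.le
    · simpa [W] using h6.le

/-- The closing-off sets. -/
theorem exists_O (hf : IsEmbedding f) [LindelofSpace X] {ρ : X → Ordinal.{0}}
    (hρ : ∀ x, IsOpen {y | ρ y ≤ ρ x}) (w : List (K × ℚ × Bool)) :
    ∃ O : Set (X × List (K × ℚ × Bool)), O.Countable ∧
      (∀ o ∈ O, o.1 ∈ Fc f w ∧ Fc f o.2 ⊆ {z | ρ z ≤ ρ o.1}) ∧ Fc f w ⊆ ⋃ o ∈ O, Fc f o.2 := by
  have h1 : ∀ y : X, ∃ v : List (K × ℚ × Bool), Fc f v ⊆ {z | ρ z ≤ ρ y} ∧ Fc f v ∈ 𝓝 y := fun y =>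
    exists_Fc_subset hf (hρ y) (le_refl (ρ y))
  choose v hv hv' using h1
  obtain ⟨t, htc, hts, ht⟩ := (isClosed_Fc hf w).isLindelof.elim_nhds_subcover (fun y => Fc f (v y))
    (fun y _ => hv' y)
  refine ⟨(fun y => (y, v y)) '' t, htc.image _, ?_, ?_⟩
  · rintro _ ⟨y, hy, rfl⟩
    exact ⟨hts y hy, hv y⟩
  · intro x hx
    obtain ⟨y, hy, hxy⟩ := mem_iUnion₂.1 (ht hx)
    exact mem_iUnion₂.2 ⟨(y, v y), ⟨y, hy, rfl⟩, hxy⟩

theorem exists_C (f : X → K → ℝ) (m : List X) :
    ∃ C : Set K, C.Countable ∧ ∀ k : K, ∀ ε > 0, ∃ c ∈ C, ∀ x ∈ m, |f x c - f x k| < ε := by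
  let ev : K → (Fin m.length → ℝ) := fun k i => f (m.get i) k
  obtain ⟨s, hsc, hsd⟩ := TopologicalSpace.exists_countable_dense (range ev)
  have h1 : ∀ p : range ev, ∃ k, ev k = p.1 := fun p => p.2
  choose g hg using h1
  refine ⟨g '' s, hsc.image g, fun k ε hε => ?_⟩
  obtain ⟨p, hps, hp⟩ := Metric.dense_iff.1 hsd ⟨ev k, k, rfl⟩ ε hε
  refine ⟨g p, ⟨p, hp, rfl⟩, fun x hx => ?_⟩
  obtain ⟨i, rfl⟩ := List.mem_iff_get.1 hx
  have h2 : dist (p.1) (ev k) < ε := hps
  have h3 := (dist_pi_lt_iff hε).1 h2 i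
  rw [← hg p, Real.dist_eq] at h3
  exact h3

theorem sigmaDiscrete (hf : IsEmbedding f) (hfc : ∀ x, Continuous (f x)) [CompactSpace K]
    [LindelofSpace X] (hsc : Scattered X) : SD (univ : Set X) := by
  classical
  have hT2 : T2Space X := hf.t2Space
  obtain ⟨ρ, hρinj, hρ⟩ := exists_rank hsc
  choose O hOc hO hOcov using exists_O hf hρ
  choose C hCc hC using exists_C f
  -- the operator
  let G : List (X ⊕ K) → Set (X ⊕ K) := fun l =>
    (⋃ w ∈ {w : List (K × ℚ × Bool) | ∀ e ∈ w, Sum.inr e.1 ∈ l},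
      ⋃ o ∈ O w, {Sum.inl o.1} ∪ (fun e : K × ℚ × Bool => (Sum.inr e.1 : X ⊕ K)) '' {e | e ∈ o.2}) ∪
    ⋃ m ∈ {m : List X | ∀ x ∈ m, Sum.inl x ∈ l}, Sum.inr '' C m
  have hG : ∀ l, (G l).Countable := by
    intro l
    refine Countable.union ?_ ?_
    · refine Countable.biUnion ?_ fun w _ => (hOc w).biUnion fun o _ =>
        (countable_singleton _).union ((List.finite_toSet o.2).countable.image _)
      have h1 : (Set.range (List.map (Subtype.val : {e : K × ℚ × Bool // Sum.inr e.1 ∈ l} → _))) =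
        {w : List (K × ℚ × Bool) | ∀ e ∈ w, (Sum.inr e.1 : X ⊕ K) ∈ l} :=
          Set.range_list_map_coe _
      rw [← h1]
      have h2 : {k : K | (Sum.inr k : X ⊕ K) ∈ l}.Finite :=
        (List.finite_toSet l).preimage (Sum.inr_injective.injOn)
      have h3 : {e : K × ℚ × Bool | (Sum.inr e.1 : X ⊕ K) ∈ l}.Countable := by
        have h4 : {e : K × ℚ × Bool | (Sum.inr e.1 : X ⊕ K) ∈ l} =
          {k : K | (Sum.inr k : X ⊕ K) ∈ l} ×ˢ (univ : Set (ℚ × Bool)) := by
          ext e; simp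
        rw [h4]
        exact h2.countable.prod (countable_univ)
      have : Countable {e : K × ℚ × Bool // (Sum.inr e.1 : X ⊕ K) ∈ l} := h3.to_subtype
      exact countable_range _
    · refine Countable.biUnion ?_ fun m _ => (hCc m).image _
      have h1 : (Set.range (List.map (Subtype.val : {x : X // (Sum.inl x : X ⊕ K) ∈ l} → _))) =
        {w : List X | ∀ e ∈ w, (Sum.inl e : X ⊕ K) ∈ l} :=
          Set.range_list_map_coe _
      rw [← h1]
      have h2 : {x : X | (Sum.inl x : X ⊕ K) ∈ l}.Finite :=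
        (List.finite_toSet l).preimage (Sum.inl_injective.injOn)
      have : Countable {x : X // (Sum.inl x : X ⊕ K) ∈ l} := h2.countable.to_subtype
      exact countable_range _
  -- what closed sets satisfy
  have hcl1 : ∀ Z, IsCl G Z → ∀ w : List (K × ℚ × Bool), (∀ e ∈ w, Sum.inr e.1 ∈ Z) →
      ∀ o ∈ O w, Sum.inl o.1 ∈ Z ∧ ∀ e ∈ o.2, Sum.inr e.1 ∈ Z := by
    intro Z hZ w hw o ho
    have h1 := hZ (w.map fun e => Sum.inr e.1) (by
      intro a ha
      obtain ⟨e, he, rfl⟩ := List.mem_map.1 ha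
      exact hw e he)
    have hw' : w ∈ {w' : List (K × ℚ × Bool) | ∀ e ∈ w', (Sum.inr e.1 : X ⊕ K) ∈
        (w.map fun e => (Sum.inr e.1 : X ⊕ K))} := fun e he => List.mem_map.2 ⟨e, he, rfl⟩
    refine ⟨h1 (Or.inl (mem_iUnion₂.2 ⟨w, hw', mem_iUnion₂.2 ⟨o, ho, Or.inl rfl⟩⟩)), fun e he =>
      h1 (Or.inl (mem_iUnion₂.2 ⟨w, hw', mem_iUnion₂.2 ⟨o, ho, Or.inr ⟨e, he, rfl⟩⟩⟩))⟩
  have hcl2 : ∀ Z, IsCl G Z → ∀ m : List X, (∀ x ∈ m, Sum.inl x ∈ Z) → ∀ c ∈ C m,
      Sum.inr c ∈ Z := by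
    intro Z hZ m hm c hc
    have h1 := hZ (m.map Sum.inl) (by
      intro a ha
      obtain ⟨e, he, rfl⟩ := List.mem_map.1 ha
      exact hm e he)
    exact h1 (Or.inr (mem_iUnion₂.2 ⟨m, fun x hx => List.mem_map.2 ⟨x, hx, rfl⟩, ⟨c, hc, rfl⟩⟩))
  let A : Set (X ⊕ K) → Set X := fun Z => {x | Sum.inl x ∈ Z}
  let B : Set (X ⊕ K) → Set K := fun Z => {k | Sum.inr k ∈ Z}
  -- fact 2
  have fact2 : ∀ Z, IsCl G Z → ∀ k : K, ∃ g ∈ closure (B Z), ∀ a ∈ A Z, f a g = f a k := by
    intro Z hZ k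
    let ev : K → (A Z → ℝ) := fun k a => f a.1 k
    have hev : Continuous ev := continuous_pi fun a => hfc a.1
    have hcomp : IsCompact (ev '' closure (B Z)) := isClosed_closure.isCompact.image hev
    have hmem : ev k ∈ closure (ev '' closure (B Z)) := by
      rw [mem_closure_iff]
      intro V hV hkV
      obtain ⟨I, u, hu, hIu⟩ := isOpen_pi_iff.1 hV (ev k) hkV
      have h1 : ∀ a : A Z, ∃ ε > 0, a ∈ I → Metric.ball (ev k a) ε ⊆ u a := by
        intro a
        by_cases ha : a ∈ I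
        · obtain ⟨hua, hfa⟩ := hu a ha
          obtain ⟨ε, hε, hb⟩ := Metric.isOpen_iff.1 hua _ hfa
          exact ⟨ε, hε, fun _ => hb⟩
        · exact ⟨1, one_pos, fun h => absurd h ha⟩
      choose ε hε hεu using h1
      obtain ⟨δ, hδ, hδ'⟩ : ∃ δ > 0, ∀ a ∈ I, δ ≤ ε a := by
        by_cases hI : I.Nonempty
        · obtain ⟨a, ha, hmin⟩ := I.exists_min_image ε hI
          exact ⟨ε a, hε a, hmin⟩
        · rw [Finset.not_nonempty_iff_eq_empty] at hI
          subst hI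
          exact ⟨1, one_pos, by simp⟩
      obtain ⟨c, hc, hcd⟩ := hC (I.toList.map Subtype.val) k δ hδ
      have hcZ : Sum.inr c ∈ Z := hcl2 Z hZ _ (by
        intro x hx
        obtain ⟨a, _, rfl⟩ := List.mem_map.1 hx
        exact a.2) c hc
      refine ⟨ev c, hIu ?_, c, subset_closure hcZ, rfl⟩
      intro a ha
      apply hεu a ha
      rw [Metric.mem_ball, Real.dist_eq]
      exact lt_of_lt_of_le (hcd a.1 (List.mem_map.2 ⟨a, Finset.mem_toList.2 ha, rfl⟩)) (hδ' a ha)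
    rw [hcomp.isClosed.closure_eq] at hmem
    obtain ⟨g, hg, hgk⟩ := hmem
    exact ⟨g, hg, fun a ha => congrFun hgk ⟨a, ha⟩⟩
  -- fact 3
  have fact3 : ∀ Z (a x : X), (∀ k ∈ B Z, f a k = f x k) → ∀ g ∈ closure (B Z), f a g = f x g := by
    intro Z a x h g hg
    have h1 : IsClosed {g | f a g = f x g} := isClosed_eq (hfc a) (hfc x)
    exact closure_minimal h h1 hg
  have funiq : ∀ Z, IsCl G Z → ∀ a ∈ A Z, ∀ a' ∈ A Z, (∀ k ∈ B Z, f a k = f a' k) → a = a' := by
    intro Z hZ a ha a' ha' h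
    apply hf.injective
    funext k
    obtain ⟨g, hg, hgk⟩ := fact2 Z hZ k
    rw [← hgk a ha, ← hgk a' ha']
    exact fact3 Z a a' h g hg
  -- fact 1
  have fact1 : ∀ Z, IsCl G Z → ∀ x : X, ∃ a ∈ A Z, ∀ k ∈ B Z, f a k = f x k := by
    intro Z hZ x
    by_contra hcon
    push Not at hcon
    let P : Set X := {y | y ∈ A Z ∧ ∃ w : List (K × ℚ × Bool), (∀ e ∈ w, Sum.inr e.1 ∈ Z) ∧
      x ∈ Fc f w ∧ Fc f w ⊆ {z | ρ z ≤ ρ y}}
    have hstep : ∀ w : List (K × ℚ × Bool), (∀ e ∈ w, Sum.inr e.1 ∈ Z) → x ∈ Fc f w →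
        ∃ y ∈ P, y ∈ Fc f w := by
      intro w hw hx
      obtain ⟨o, ho, hxo⟩ := mem_iUnion₂.1 (hOcov w hx)
      obtain ⟨h1, h2⟩ := hcl1 Z hZ w hw o ho
      exact ⟨o.1, ⟨h1, o.2, h2, hxo, (hO w o ho).2⟩, (hO w o ho).1⟩
    obtain ⟨y0, hy0, _⟩ := hstep [] (by simp) (by intro e he; simp at he)
    obtain ⟨y, hyP, hmin⟩ := WellFounded.has_min (InvImage.wf ρ Ordinal.lt_wf) P ⟨y0, hy0⟩
    obtain ⟨hyA, w, hw, hxw, hwy⟩ := hyP
    obtain ⟨k, hk, hne⟩ := hcon y hyA
    have hsep : ∃ e : K × ℚ × Bool, e.1 = k ∧ y ∈ W f e ∧ x ∉ W f e := by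
      rcases lt_or_gt_of_ne hne with hlt | hgt
      · obtain ⟨q, hq1, hq2⟩ := exists_rat_btwn hlt
        refine ⟨(k, q, true), rfl, ?_, ?_⟩
        · simpa [W] using hq1
        · simpa [W] using hq2.le
      · obtain ⟨q, hq1, hq2⟩ := exists_rat_btwn hgt
        refine ⟨(k, q, false), rfl, ?_, ?_⟩
        · simpa [W] using hq2
        · simpa [W] using hq1.le
    obtain ⟨e, rfl, hye, hxe⟩ := hsep
    have hxw' : x ∈ Fc f (e :: w) := by
      intro e' he'
      rcases List.mem_cons.1 he' with rfl | he'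
      · exact hxe
      · exact hxw e' he'
    obtain ⟨y', hy'P, hy'⟩ := hstep (e :: w) (by
      intro e' he'
      rcases List.mem_cons.1 he' with rfl | he'
      · exact hk
      · exact hw e' he') hxw'
    have h5 : ρ y' ≤ ρ y := hwy fun e' he' => hy' e' (List.mem_cons_of_mem _ he')
    have h6 : y' ≠ y := by
      rintro rfl
      exact hy' e List.mem_cons_self hye
    exact hmin y' hy'P (lt_of_le_of_ne h5 fun h => h6 (hρinj h))
  let r : Set (X ⊕ K) → X → X := fun Z x =>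
    if h : ∃ a, a ∈ A Z ∧ ∀ k ∈ B Z, f a k = f x k then h.choose else x
  have hr : ∀ Z, IsCl G Z → ∀ x, r Z x ∈ A Z ∧ ∀ k ∈ B Z, f (r Z x) k = f x k := by
    intro Z hZ x
    have h := fact1 Z hZ x
    have h1 : r Z x = h.choose := by
      simp only [r]
      rw [dif_pos h]
    rw [h1]
    exact h.choose_spec
  have hru : ∀ Z, IsCl G Z → ∀ x a, a ∈ A Z → (∀ k ∈ B Z, f a k = f x k) → r Z x = a := by
    intro Z hZ x a ha h
    exact funiq Z hZ _ (hr Z hZ x).1 a ha fun k hk => by rw [(hr Z hZ x).2 k hk, h k hk]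
  have hR : Retr G A r := by
    refine ⟨fun Z Z' h x hx => h hx, ?_, fun Z hZ x => (hr Z hZ x).1, ?_, ?_, ?_⟩
    · intro ι Z
      ext x
      simp [A]
    · intro Z hZ x hx
      exact hru Z hZ x x hx fun k _ => rfl
    · intro Z Z' hZ hZ' hsub x
      refine hru Z hZ _ _ (hr Z hZ x).1 fun k hk => ?_
      rw [(hr Z hZ x).2 k hk, (hr Z' hZ' x).2 k (hsub hk)]
    · intro Z hZ
      rw [hf.isInducing.continuous_iff, continuous_pi_iff]
      intro k
      obtain ⟨g, hg, hgk⟩ := fact2 Z hZ k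
      have h1 : (fun x => (f ∘ r Z) x k) = fun x => f x g := by
        funext x
        show f (r Z x) k = f x g
        rw [← hgk _ (hr Z hZ x).1]
        exact fact3 Z _ _ (hr Z hZ x).2 g hg
      rw [h1]
      exact (continuous_apply g).comp hf.continuous
  have hfinal := hR.sd hG (fun Z hZ => hZ.preimage_of_injOn (Sum.inl_injective.injOn))
    univ (fun l _ => subset_univ _)
  have h2 : A univ = univ := by
    ext x; simp [A]
  rwa [h2] at hfinal

end EG

end Pool.Agent.H960R3.LSEG
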