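import Mathlib
import Pool.Agent.H960R3.LSEG

/-!
# Čech-complete scattered Eberlein–Grothendieck spaces are sigma-discrete

Partial retractions along a chain of closed sets of a finitary operator.
-/

set_option autoImplicit false

open Set Topology

namespace Pool.Agent.H960R3.CCEG

open Pool.Agent.H960R3.LSEG

section Chain

variable {X : Type} [TopologicalSpace X]

/-- A system of partial retractions indexed by the closed sets. -/
structure Retr2 {T : Type} (G : List T → Set T) (A : Set T → Set X) (On : ℕ → Set T → Set X)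
    (r : Set T → X → X) : Prop where
  mono : ∀ Z Z', Z ⊆ Z' → A Z ⊆ A Z'
  union : ∀ {ι : Type} (Z : ι → Set T), A (⋃ i, Z i) = ⋃ i, A (Z i)
  omono : ∀ n Z Z', Z ⊆ Z' → On n Z ⊆ On n Z'
  ounion : ∀ n {ι : Type} [LinearOrder ι] [Nonempty ι] (Z : ι → Set T), Monotone Z →
    On n (⋃ i, Z i) ⊆ ⋃ i, On n (Z i)
  oopen : ∀ n Z, IsOpen (On n Z)
  sub : ∀ Z, IsCl G Z → ∀ n, A Z ⊆ On n Z
  mem : ∀ Z, IsCl G Z → ∀ y, (∀ n, y ∈ On n Z) → r Z y ∈ A Z
  fix : ∀ Z, IsCl G Z → ∀ y ∈ A Z, r Z y = y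
  comp1 : ∀ Z Z', IsCl G Z → IsCl G Z' → Z ⊆ Z' → ∀ y, (∀ n, y ∈ On n Z) → ∀ n, r Z' y ∈ On n Z
  comp2 : ∀ Z Z', IsCl G Z → IsCl G Z' → Z ⊆ Z' → ∀ y, (∀ n, y ∈ On n Z) → r Z (r Z' y) = r Z y
  back : ∀ Z Z', IsCl G Z → IsCl G Z' → Z ⊆ Z' → ∀ y, (∀ n, y ∈ On n Z') →
    ∀ n, r Z' y ∈ On n Z → y ∈ On n Z
  cont : ∀ Z, IsCl G Z → ContinuousOn (r Z) {y | ∀ n, y ∈ On n Z}
  closed : ∀ Z, IsCl G Z → IsClosed (A Z)

variable {T : Type} {G : List T → Set T} {A : Set T → Set X} {On : ℕ → Set T → Set X}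
  {r : Set T → X → X}

theorem Retr2.chain [T2Space X] (h : Retr2 G A On r) {ι : Type} [LinearOrder ι] [WellFoundedLT ι]
    [Nonempty ι] (Z : ι → Set T) (hm : Monotone Z) (hZ : ∀ i, IsCl G (Z i))
    (hSD : ∀ i, SD (A (Z i))) : SD (A (⋃ i, Z i)) := by
  classical
  have hU : IsCl G (⋃ i, Z i) := isCl_iUnion G Z hm hZ
  have hAm : ∀ i j, i ≤ j → A (Z i) ⊆ A (Z j) := fun i j hij => h.mono _ _ (hm hij)
  have hOm : ∀ n i j, i ≤ j → On n (Z i) ⊆ On n (Z j) := fun n i j hij => h.omono n _ _ (hm hij)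
  let R : ι → X → X := fun i => r (Z i)
  let O : ι → Set X := fun i => {y | ∀ n, y ∈ On n (Z i)}
  have hAO : ∀ i, A (Z i) ⊆ O i := fun i y hy n => h.sub _ (hZ i) n hy
  have hOmono : ∀ i j, i ≤ j → O i ⊆ O j := fun i j hij y hy n => hOm n i j hij (hy n)
  have Rfix : ∀ i, ∀ x ∈ A (Z i), R i x = x := fun i => h.fix _ (hZ i)
  have Rmem : ∀ i, ∀ x ∈ O i, R i x ∈ A (Z i) := fun i => h.mem _ (hZ i)
  have Rcomp1 : ∀ i j, i ≤ j → ∀ x ∈ O i, R j x ∈ O i := fun i j hij x hx n =>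
    h.comp1 _ _ (hZ i) (hZ j) (hm hij) x hx n
  have Rcomp2 : ∀ i j, i ≤ j → ∀ x ∈ O i, R i (R j x) = R i x := fun i j hij =>
    h.comp2 _ _ (hZ i) (hZ j) (hm hij)
  have Rback : ∀ i j, i ≤ j → ∀ y ∈ O j, ∀ n, R j y ∈ On n (Z i) → y ∈ On n (Z i) :=
    fun i j hij => h.back _ _ (hZ i) (hZ j) (hm hij)
  -- a union of a subchain
  have hsub : ∀ (P : ι → Prop) (_ : Nonempty {j // P j}) (y : X),
      (∀ n, y ∈ On n (⋃ j : {j // P j}, Z j.1)) →
      ∃ j0, P j0 ∧ y ∈ O j0 ∧ ∃ a ∈ A (Z j0), ∀ j, j0 ≤ j → P j → R j y = a := by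
    intro P hne y hy
    have hcl : IsCl G (⋃ j : {j // P j}, Z j.1) :=
      isCl_iUnion G (fun j : {j // P j} => Z j.1) (fun a b hab => hm hab) (fun j => hZ j.1)
    have hmem := h.mem _ hcl y hy
    rw [h.union (fun j : {j // P j} => Z j.1)] at hmem
    obtain ⟨j0, hj0⟩ := mem_iUnion.1 hmem
    set z := r (⋃ j : {j // P j}, Z j.1) y with hz
    have hy0 : ∀ j, j0.1 ≤ j → P j → y ∈ O j := by
      intro j hj hPj n
      exact h.back _ _ (hZ j) hcl (subset_iUnion (fun j : {j // P j} => Z j.1) ⟨j, hPj⟩) y hy n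
        (h.sub _ (hZ j) n (hAm _ _ hj hj0))
    refine ⟨j0.1, j0.2, hy0 _ le_rfl j0.2, z, hj0, fun j hj hPj => ?_⟩
    have h2 : R j z = R j y :=
      h.comp2 _ _ (hZ j) hcl (subset_iUnion (fun j : {j // P j} => Z j.1) ⟨j, hPj⟩) y (hy0 j hj hPj)
    have h3 : R j z = z := Rfix j z (hAm _ _ hj hj0)
    rw [← h2, h3]
  have hsub' : ∀ (P : ι → Prop) (_ : Nonempty {j // P j}) (y : X),
      (∀ n, y ∈ On n (⋃ j : {j // P j}, Z j.1)) ∨ ∃ m, ∀ j, P j → y ∉ On m (Z j) := by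
    intro P hne y
    by_cases hy : ∀ n, y ∈ On n (⋃ j : {j // P j}, Z j.1)
    · exact Or.inl hy
    · right
      push Not at hy
      obtain ⟨m, hm'⟩ := hy
      exact ⟨m, fun j hj hyj => hm' (h.omono m _ _
        (subset_iUnion (fun j : {j // P j} => Z j.1) ⟨j, hj⟩) hyj)⟩
  -- finitely many values below each index
  have hfin : ∀ i x, ({v | ∃ j < i, x ∈ O j ∧ R j x = v}).Finite := by
    intro i x
    induction i using WellFoundedLT.induction with
    | ind i ih =>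
      by_cases hne : Nonempty {j // j < i}
      · rcases hsub' (fun j => j < i) hne x with hx | ⟨m, hx⟩
        · obtain ⟨j0, hj0, _, a, _, ha⟩ := hsub (fun j => j < i) hne x hx
          refine ((ih j0 hj0).union (finite_singleton a)).subset ?_
          rintro _ ⟨j, hj, hxj, rfl⟩
          rcases lt_or_ge j j0 with hlt | hge
          · exact Or.inl ⟨j, hlt, hxj, rfl⟩
          · exact Or.inr (ha j hge hj)
        · refine finite_empty.subset ?_
          rintro _ ⟨j, hj, hxj, rfl⟩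
          exact absurd (hxj m) (hx j hj)
      · refine finite_empty.subset ?_
        rintro _ ⟨j, hj, hxj, rfl⟩
        exact absurd ⟨⟨j, hj⟩⟩ hne
  have htriv : (⋃ j : {j : ι // True}, Z j.1) = ⋃ j, Z j := by
    ext t
    simp
  have hneT : Nonempty {j : ι // True} := ⟨⟨Classical.arbitrary ι, trivial⟩⟩
  let V : X → Set X := fun x => {v | ∃ j, x ∈ O j ∧ R j x = v}
  have hV : ∀ x, (V x).Finite := by
    intro x
    rcases hsub' (fun _ => True) hneT x with hx | ⟨m, hx⟩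
    · obtain ⟨j0, hj0, _, a, _, ha⟩ := hsub (fun _ => True) hneT x hx
      refine ((hfin j0 x).union (finite_singleton a)).subset ?_
      rintro _ ⟨j, hxj, rfl⟩
      rcases lt_or_ge j j0 with hlt | hge
      · exact Or.inl ⟨j, hlt, hxj, rfl⟩
      · exact Or.inr (ha j hge trivial)
    · refine finite_empty.subset ?_
      rintro _ ⟨j, hxj, rfl⟩
      exact absurd (hxj m) (hx j trivial)
  -- the stabilisation level
  have hlev : ∀ x ∈ A (⋃ i, Z i), ∃ m, ∀ i, x ∈ On m (Z i) → x ∈ O i := by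
    intro x hx
    rw [h.union] at hx
    obtain ⟨i0, hi0⟩ := mem_iUnion.1 hx
    obtain ⟨i, hi, hmin⟩ := WellFounded.has_min (wellFounded_lt (α := ι)) {i | x ∈ O i}
      ⟨i0, hAO i0 hi0⟩
    by_cases hne : Nonempty {j // j < i}
    · rcases hsub' (fun j => j < i) hne x with hx | ⟨m, hx⟩
      · obtain ⟨j0, hj0, hxj0, _⟩ := hsub (fun j => j < i) hne x hx
        exact absurd hj0 (hmin j0 hxj0)
      · refine ⟨m, fun j hj => ?_⟩
        rcases lt_or_ge j i with hlt | hge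
        · exact absurd hj (hx j hlt)
        · exact hOmono i j hge hi
    · refine ⟨0, fun j _ => ?_⟩
      rcases lt_or_ge j i with hlt | hge
      · exact absurd ⟨⟨j, hlt⟩⟩ hne
      · exact hOmono i j hge hi
  choose! lev hlev using hlev
  have hVlt : ∀ y ∈ A (⋃ i, Z i), ∀ i, y ∈ O i → y ∉ A (Z i) → (V (R i y)).ncard < (V y).ncard := by
    intro y hy i hyO hyi
    refine ncard_lt_ncard ?_ (hV y)
    rw [ssubset_iff_subset_ne]
    have h0 : ∀ j, R i y ∈ O j → R j (R i y) ∈ V y ∧ R j (R i y) ∈ A (Z i) := by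
      intro j hj
      rcases le_total j i with hji | hij
      · have hyj : y ∈ O j := fun n => Rback j i hji y hyO n (hj n)
        rw [Rcomp2 j i hji y hyj]
        exact ⟨⟨j, hyj, rfl⟩, hAm _ _ hji (Rmem j y hyj)⟩
      · rw [Rfix j _ (hAm _ _ hij (Rmem i y hyO))]
        exact ⟨⟨i, hyO, rfl⟩, Rmem i y hyO⟩
    refine ⟨?_, fun heq => ?_⟩
    · rintro _ ⟨j, hj, rfl⟩
      exact (h0 j hj).1
    · rw [h.union] at hy
      obtain ⟨j, hj⟩ := mem_iUnion.1 hy
      have h1 : y ∈ V y := ⟨j, hAO j hj, Rfix j y hj⟩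
      rw [← heq] at h1
      obtain ⟨k, hkO, hk⟩ := h1
      apply hyi
      rw [← hk]
      exact (h0 k hkO).2
  have hlsc : ∀ (m : ℕ) (x : X), ∃ U, IsOpen U ∧ x ∈ U ∧
      ∀ y ∈ U, (∀ i, y ∈ On m (Z i) → y ∈ O i) → (V x).ncard ≤ (V y).ncard := by
    intro m x
    obtain ⟨N, hN, hdis⟩ := (hV x).t2_separation
    have hi0 : ∀ v ∈ V x, ∃ i, x ∈ O i ∧ R i x = v := fun v hv => hv
    choose! i hiO hi using hi0
    have hnb : ∀ v ∈ V x, ∃ U, IsOpen U ∧ x ∈ U ∧ ∀ y ∈ U, y ∈ O (i v) → R (i v) y ∈ N v := by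
      intro v hv
      have hc := h.cont _ (hZ (i v)) x (hiO v hv)
      have h1 : N v ∈ 𝓝 (r (Z (i v)) x) := by
        refine (hN v).2.mem_nhds ?_
        have h2 : r (Z (i v)) x = v := hi v hv
        rw [h2]
        exact (hN v).1
      have h3 := hc h1
      rw [Filter.mem_map, mem_nhdsWithin] at h3
      obtain ⟨U, hUo, hxU, hUs⟩ := h3
      exact ⟨U, hUo, hxU, fun y hy hyO => hUs ⟨hy, hyO⟩⟩
    choose! U hUo hxU hUs using hnb
    refine ⟨⋂ v ∈ V x, (U v ∩ On m (Z (i v))), ?_, ?_, ?_⟩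
    · exact (hV x).isOpen_biInter fun v hv => (hUo v hv).inter (h.oopen _ _)
    · exact mem_iInter₂.2 fun v hv => ⟨hxU v hv, hiO v hv m⟩
    · intro y hy hyl
      rw [mem_iInter₂] at hy
      have hyO : ∀ v ∈ V x, y ∈ O (i v) := fun v hv => hyl _ (hy v hv).2
      refine ncard_le_ncard_of_injOn (fun v => R (i v) y) (fun v hv => ⟨i v, hyO v hv, rfl⟩) ?_ (hV y)
      intro v hv w hw hvw
      by_contra hne
      have h1 := hdis hv hw hne
      have h2 : R (i v) y ∈ N v := hUs v hv y (hy v hv).1 (hyO v hv)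
      have h3 : R (i w) y ∈ N w := hUs w hw y (hy w hw).1 (hyO w hw)
      simp only at hvw
      rw [hvw] at h2
      exact (disjoint_left.1 h1) h2 h3
  choose c hc using hSD
  have hex : ∀ x ∈ A (⋃ i, Z i), ∃ i, x ∈ A (Z i) ∧ ∀ j < i, x ∉ A (Z j) := by
    intro x hx
    rw [h.union] at hx
    obtain ⟨i, hi⟩ := mem_iUnion.1 hx
    obtain ⟨i, hi, hmin⟩ := WellFounded.has_min (wellFounded_lt (α := ι)) {i | x ∈ A (Z i)} ⟨i, hi⟩
    exact ⟨i, hi, fun j hj hxj => hmin j hxj hj⟩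
  choose! ix hix hixmin using hex
  refine ⟨fun x => Nat.pair (c (ix x) x) (Nat.pair (lev x) (V x).ncard), fun x hx => ?_⟩
  obtain ⟨U0, hU0, hxU0, hU0'⟩ := hc (ix x) x (hix x hx)
  obtain ⟨U1, hU1, hxU1, hU1'⟩ := hlsc (lev x) x
  have hU2 : IsClosed (⋃ j : {j // j < ix x}, A (Z j.1)) := by
    by_cases hne : Nonempty {j // j < ix x}
    · rw [← h.union (fun j : {j // j < ix x} => Z j.1)]
      exact h.closed _ (isCl_iUnion G (fun j : {j // j < ix x} => Z j.1) (fun a b hab => hm hab)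
        (fun j => hZ j.1))
    · have : IsEmpty {j // j < ix x} := not_nonempty_iff.1 hne
      rw [iUnion_of_empty]
      exact isClosed_empty
  have hxU2 : x ∉ ⋃ j : {j // j < ix x}, A (Z j.1) := by
    intro hmem
    obtain ⟨j, hj⟩ := mem_iUnion.1 hmem
    exact hixmin x hx j.1 j.2 hj
  have hRx : R (ix x) x = x := Rfix _ _ (hix x hx)
  have hxO : x ∈ O (ix x) := hAO _ (hix x hx)
  let U := U0 ∩ U1 ∩ (⋃ j : {j // j < ix x}, A (Z j.1))ᶜ
  have hUo : IsOpen U := (hU0.inter hU1).inter hU2.isOpen_compl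
  have hxU : x ∈ U := ⟨⟨hxU0, hxU1⟩, hxU2⟩
  obtain ⟨U', hU'o, hxU', hU's⟩ : ∃ U', IsOpen U' ∧ x ∈ U' ∧ ∀ y ∈ U', y ∈ O (ix x) →
      R (ix x) y ∈ U := by
    have hcx := h.cont _ (hZ (ix x)) x hxO
    have h1 : U ∈ 𝓝 (r (Z (ix x)) x) := by
      refine hUo.mem_nhds ?_
      have h2 : r (Z (ix x)) x = x := hRx
      rw [h2]
      exact hxU
    have h3 := hcx h1
    rw [Filter.mem_map, mem_nhdsWithin] at h3
    obtain ⟨U', hUo', hxU', hUs⟩ := h3
    exact ⟨U', hUo', hxU', fun y hy hyO => hUs ⟨hy, hyO⟩⟩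
  refine ⟨U ∩ U' ∩ On (lev x) (Z (ix x)), (hUo.inter hU'o).inter (h.oopen _ _),
    ⟨⟨hxU, hxU'⟩, hxO _⟩, ?_⟩
  rintro y hy ⟨⟨hyU, hyU'⟩, hyOn⟩ hcol
  obtain ⟨hcol1, hcol2⟩ := Nat.pair_eq_pair.1 hcol
  obtain ⟨hcol2, hcol3⟩ := Nat.pair_eq_pair.1 hcol2
  rcases lt_trichotomy (ix y) (ix x) with hlt | heq | hgt
  · exact absurd (mem_iUnion.2 ⟨⟨ix y, hlt⟩, hix y hy⟩) hyU.2
  · refine hU0' y ?_ hyU.1.1 ?_
    · rw [← heq]; exact hix y hy
    · rw [← hcol1, heq]
  · exfalso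
    have h1 : y ∉ A (Z (ix x)) := hixmin y hy _ hgt
    have hyO : y ∈ O (ix x) := hlev y hy _ (by rw [hcol2]; exact hyOn)
    have h2 := hVlt y hy _ hyO h1
    have hz : R (ix x) y ∈ U := hU's y hyU' hyO
    have h3 : (V x).ncard ≤ (V (R (ix x) y)).ncard := by
      refine hU1' _ hz.1.2 fun j hj => ?_
      rcases le_total j (ix x) with hji | hij
      · have h4 : y ∈ On (lev x) (Z j) := Rback j (ix x) hji y hyO _ hj
        have h5 : y ∈ O j := hlev y hy _ (by rw [hcol2]; exact h4)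
        exact Rcomp1 j (ix x) hji y h5
      · exact hAO j (hAm _ _ hij (Rmem _ y hyO))
    rw [← hcol3] at h3
    exact absurd h2 (not_lt.2 h3)

open Cardinal in
theorem Retr2.sd [T2Space X] (h : Retr2 G A On r) (hG : ∀ l, (G l).Countable)
    (hA : ∀ Z : Set T, Z.Countable → (A Z).Countable) :
    ∀ Z : Set T, IsCl G Z → SD (A Z) := by
  have key : ∀ κ : Cardinal.{0}, ∀ Z : Set T, IsCl G Z → #Z = κ → SD (A Z) := by
    intro κ
    induction κ using WellFoundedLT.induction with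
    | ind κ ih =>
      intro Z hZ hκ
      rcases le_or_gt κ ℵ₀ with hle | hgt
      · rw [← hκ, le_aleph0_iff_set_countable] at hle
        obtain ⟨c, hc⟩ := countable_iff_exists_injOn.1 (hA Z hle)
        exact ⟨c, fun x hx => ⟨univ, isOpen_univ, mem_univ x, fun y hy _ hcy => hc hy hx hcy⟩⟩
      · have hcard : #(κ.ord.ToType) = #Z := by rw [hκ]; simp
        obtain ⟨e⟩ := Cardinal.eq.1 hcard
        have hne : Nonempty κ.ord.ToType := by
          rw [← mk_ne_zero_iff, hcard, hκ]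
          exact (lt_trans aleph0_pos hgt).ne'
        let I : κ.ord.ToType → Set T := fun a => (fun b => (e b).1) '' Iic a
        let Zf : κ.ord.ToType → Set T := fun a => Cl G (I a)
        have hIc : ∀ a, #(I a) < κ := by
          intro a
          have h1 : #(Iio a) < κ := mk_Iio_toType_ord_lt a
          refine lt_of_le_of_lt mk_image_le ?_
          rw [← Iio_insert]
          refine lt_of_le_of_lt mk_insert_le ?_
          exact add_lt_of_lt hgt.le h1 (lt_trans one_lt_aleph0 hgt)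
        have hZf : ∀ a, IsCl G (Zf a) := fun a => isCl_Cl G _
        have hZm : Monotone Zf := fun a b hab => Cl_mono G (image_mono (Iic_subset_Iic.2 hab))
        have hZU : ⋃ a, Zf a = Z := by
          apply subset_antisymm
          · refine iUnion_subset fun a => Cl_subset G hZ ?_
            rintro _ ⟨b, _, rfl⟩
            exact (e b).2
          · intro z hz
            exact mem_iUnion.2 ⟨e.symm ⟨z, hz⟩, subset_Cl G _ ⟨e.symm ⟨z, hz⟩, mem_Iic.2 le_rfl, by simp⟩⟩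
        have := h.chain Zf hZm hZf (fun a => ih _ (lt_of_le_of_lt (mk_Cl_le G hG _)
          (max_lt (hIc a) hgt)) _ (hZf a) rfl)
        rw [hZU] at this
        exact this
  intro Z hZ
  exact key _ Z hZ rfl

end Chain

end Pool.Agent.H960R3.CCEG
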