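import Mathlib
import Pool.Agent.H960R3.CCEG

/-!
# Čech-complete scattered Eberlein–Grothendieck spaces are sigma-discrete: the retractions
-/

set_option autoImplicit false

open Set Topology

namespace Pool.Agent.H960R3.CCEG

open Pool.Agent.H960R3.LSEG

section EG

variable {X K : Type} [TopologicalSpace X] [TopologicalSpace K] {f : X → K → ℝ}

/-- the condition with the other sign -/
def ng (e : K × ℚ × Bool) : K × ℚ × Bool := (e.1, e.2.1, !e.2.2)

/-- The open set of a list. -/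
def Op (f : X → K → ℝ) (w : List (K × ℚ × Bool)) : Set X := {x | ∀ e ∈ w, x ∈ W f (ng e)}

theorem Op_subset_Fc (w : List (K × ℚ × Bool)) : Op f w ⊆ Fc f w := by
  rintro x hx ⟨k, q, b⟩ he hcon
  have h1 := hx _ he
  cases b <;> simp [W, ng] at h1 hcon <;> linarith

theorem isOpen_Op (hf : IsEmbedding f) (w : List (K × ℚ × Bool)) : IsOpen (Op f w) := by
  have h1 : Op f w = ⋂ e ∈ {e | e ∈ w}, W f (ng e) := by
    ext x; simp [Op]
  rw [h1]
  exact (List.finite_toSet w).isOpen_biInter fun e _ => isOpen_W hf _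

theorem Op_congr {a y : X} {w : List (K × ℚ × Bool)} (h : ∀ e ∈ w, f a e.1 = f y e.1)
    (hy : y ∈ Op f w) : a ∈ Op f w := by
  rintro ⟨k, q, b⟩ he
  have h1 := hy _ he
  have h2 := h _ he
  simp only at h2
  cases b <;> simp only [W, ng, mem_ofPred_eq, h2] at h1 ⊢ <;> exact h1

theorem exists_Op (hf : IsEmbedding f) {U : Set X} (hU : IsOpen U) {y : X} (hy : y ∈ U) :
    ∃ w : List (K × ℚ × Bool), Fc f w ⊆ U ∧ y ∈ Op f w := by
  obtain ⟨V, hV, rfl⟩ := hf.isInducing.isOpen_iff.1 hU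
  obtain ⟨I, u, hu, hIu⟩ := isOpen_pi_iff.1 hV (f y) hy
  have h1 : ∀ a : K, ∃ q : ℚ × ℚ, a ∈ I → ((q.1 : ℝ) < f y a ∧ f y a < q.2 ∧ Icc (q.1 : ℝ) q.2 ⊆ u a) := by
    intro a
    by_cases ha : a ∈ I
    · obtain ⟨hua, hfa⟩ := hu a ha
      obtain ⟨ε, hε, hb⟩ := Metric.isOpen_iff.1 hua _ hfa
      obtain ⟨q1, hq1, hq1'⟩ := exists_rat_btwn (show f y a - ε < f y a by linarith)
      obtain ⟨q2, hq2, hq2'⟩ := exists_rat_btwn (show f y a < f y a + ε by linarith)
      refine ⟨(q1, q2), fun _ => ⟨hq1', hq2, fun t ht => hb ?_⟩⟩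
      rw [Metric.mem_ball, Real.dist_eq, abs_lt]
      constructor <;> linarith [ht.1, ht.2]
    · exact ⟨0, fun h => absurd h ha⟩
  choose q hq using h1
  refine ⟨I.toList.flatMap fun a => [(a, (q a).1, true), (a, (q a).2, false)], ?_, ?_⟩
  · intro x hx
    apply hIu
    intro a ha
    apply (hq a ha).2.2
    have h2 := hx (a, (q a).1, true) (by
      rw [List.mem_flatMap]; exact ⟨a, Finset.mem_toList.2 ha, by simp⟩)
    have h3 := hx (a, (q a).2, false) (by
      rw [List.mem_flatMap]; exact ⟨a, Finset.mem_toList.2 ha, by simp⟩)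
    simp [W] at h2 h3
    exact ⟨h2, h3⟩
  · intro e he
    rw [List.mem_flatMap] at he
    obtain ⟨a, ha, he⟩ := he
    obtain ⟨h5, h6, _⟩ := hq a (Finset.mem_toList.1 ha)
    simp only [List.mem_cons, List.not_mem_nil, or_false] at he
    rcases he with rfl | rfl
    · simpa [W, ng] using h5
    · simpa [W, ng] using h6

theorem near (w : List (K × ℚ × Bool)) (a : X) (ha : a ∈ Op f w) :
    ∃ n : ℕ, ∀ y : X, (∀ k, |f y k - f a k| < 1 / ((n : ℝ) + 1)) → y ∈ Op f w := by
  induction w with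
  | nil => exact ⟨0, fun y _ e he => by simp at he⟩
  | cons e w ih =>
    obtain ⟨n1, h1⟩ := ih fun e' he' => ha e' (List.mem_cons_of_mem _ he')
    have hae := ha e List.mem_cons_self
    have h2 : ∃ n : ℕ, ∀ y : X, (∀ k, |f y k - f a k| < 1 / ((n : ℝ) + 1)) → y ∈ W f (ng e) := by
      obtain ⟨k, q, b⟩ := e
      have hpos : 0 < |f a k - q| := by
        rw [abs_pos, sub_ne_zero]
        rintro heq
        cases b <;> simp [W, ng] at hae <;> linarith
      obtain ⟨n, hn⟩ := exists_nat_one_div_lt hpos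
      refine ⟨n, fun y hy => ?_⟩
      have h3 := (abs_lt.1 ((hy k).trans hn))
      cases b
      · simp [W, ng] at hae ⊢
        rw [abs_of_neg (by linarith)] at h3
        linarith [h3.2]
      · simp [W, ng] at hae ⊢
        rw [abs_of_pos (by linarith)] at h3
        linarith [h3.1]
    obtain ⟨n2, h2⟩ := h2
    refine ⟨max n1 n2, fun y hy e' he' => ?_⟩
    have hm1 : 1 / (((max n1 n2 : ℕ) : ℝ) + 1) ≤ 1 / ((n1 : ℝ) + 1) :=
      one_div_le_one_div_of_le (by positivity) (by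
        have : (n1 : ℝ) ≤ ((max n1 n2 : ℕ) : ℝ) := by exact_mod_cast le_max_left n1 n2
        linarith)
    have hm2 : 1 / (((max n1 n2 : ℕ) : ℝ) + 1) ≤ 1 / ((n2 : ℝ) + 1) :=
      one_div_le_one_div_of_le (by positivity) (by
        have : (n2 : ℝ) ≤ ((max n1 n2 : ℕ) : ℝ) := by exact_mod_cast le_max_right n1 n2
        linarith)
    rcases List.mem_cons.1 he' with rfl | he'
    · exact h2 y fun k => (hy k).trans_le hm2
    · exact h1 y (fun k => (hy k).trans_le hm1) e' he'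

/-- A closing-off operator from a family of countable sets. -/
theorem exists_G (S : List X → List (K × ℚ × Bool) → Set (X ⊕ K)) (hS : ∀ m w, (S m w).Countable) :
    ∃ G : List (X ⊕ K) → Set (X ⊕ K), (∀ l, (G l).Countable) ∧ ∀ Z, IsCl G Z →
      ∀ (m : List X) (w : List (K × ℚ × Bool)), (∀ x ∈ m, Sum.inl x ∈ Z) →
        (∀ e ∈ w, Sum.inr e.1 ∈ Z) → S m w ⊆ Z := by
  refine ⟨fun l => ⋃ w ∈ {w : List (K × ℚ × Bool) | ∀ e ∈ w, (Sum.inr e.1 : X ⊕ K) ∈ l},
    ⋃ m ∈ {m : List X | ∀ x ∈ m, (Sum.inl x : X ⊕ K) ∈ l}, S m w, fun l => ?_, ?_⟩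
  · refine Countable.biUnion ?_ fun w _ => Countable.biUnion ?_ fun m _ => hS m w
    · have h1 : (Set.range (List.map (Subtype.val : {e : K × ℚ × Bool // (Sum.inr e.1 : X ⊕ K) ∈ l} → _))) =
        {w : List (K × ℚ × Bool) | ∀ e ∈ w, (Sum.inr e.1 : X ⊕ K) ∈ l} :=
          Set.range_list_map_coe _
      rw [← h1]
      have h2 : {k : K | (Sum.inr k : X ⊕ K) ∈ l}.Finite :=
        (List.finite_toSet l).preimage (Sum.inr_injective.injOn)
      have h3 : {e : K × ℚ × Bool | (Sum.inr e.1 : X ⊕ K) ∈ l}.Countable := by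
        have h4 : {e : K × ℚ × Bool | (Sum.inr e.1 : X ⊕ K) ∈ l} =
          {k : K | (Sum.inr k : X ⊕ K) ∈ l} ×ˢ (univ : Set (ℚ × Bool)) := by
          ext e; simp
        rw [h4]
        exact h2.countable.prod (countable_univ)
      have : Countable {e : K × ℚ × Bool // (Sum.inr e.1 : X ⊕ K) ∈ l} := h3.to_subtype
      exact countable_range _
    · have h1 : (Set.range (List.map (Subtype.val : {x : X // (Sum.inl x : X ⊕ K) ∈ l} → _))) =
        {w : List X | ∀ e ∈ w, (Sum.inl e : X ⊕ K) ∈ l} :=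
          Set.range_list_map_coe _
      rw [← h1]
      have h2 : {x : X | (Sum.inl x : X ⊕ K) ∈ l}.Finite :=
        (List.finite_toSet l).preimage (Sum.inl_injective.injOn)
      have : Countable {x : X // (Sum.inl x : X ⊕ K) ∈ l} := h2.countable.to_subtype
      exact countable_range _
  · intro Z hZ m w hm hw t ht
    refine hZ (m.map Sum.inl ++ w.map fun e => Sum.inr e.1) ?_ ?_
    · intro a ha
      rcases List.mem_append.1 ha with ha | ha
      · obtain ⟨x, hx, rfl⟩ := List.mem_map.1 ha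
        exact hm x hx
      · obtain ⟨e, he, rfl⟩ := List.mem_map.1 ha
        exact hw e he
    · refine mem_iUnion₂.2 ⟨w, fun e he => ?_, mem_iUnion₂.2 ⟨m, fun x hx => ?_, ht⟩⟩
      · exact List.mem_append.2 (Or.inr (List.mem_map.2 ⟨e, he, rfl⟩))
      · exact List.mem_append.2 (Or.inl (List.mem_map.2 ⟨x, hx, rfl⟩))

/-- Every point of `K` agrees on `A` with a point of the closure of `B`. -/
theorem fact2 [CompactSpace K] (hfc : ∀ x, Continuous (f x)) (A : Set X) (B : Set K)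
    (C : List X → Set K) (hC : ∀ m, ∀ k : K, ∀ ε > 0, ∃ c ∈ C m, ∀ x ∈ m, |f x c - f x k| < ε)
    (hCB : ∀ m : List X, (∀ x ∈ m, x ∈ A) → C m ⊆ B) (k : K) :
    ∃ g ∈ closure B, ∀ a ∈ A, f a g = f a k := by
  classical
  let ev : K → (A → ℝ) := fun k a => f a.1 k
  have hev : Continuous ev := continuous_pi fun a => hfc a.1
  have hcomp : IsCompact (ev '' closure B) := isClosed_closure.isCompact.image hev
  have hmem : ev k ∈ closure (ev '' closure B) := by
    rw [mem_closure_iff]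
    intro V hV hkV
    obtain ⟨I, u, hu, hIu⟩ := isOpen_pi_iff.1 hV (ev k) hkV
    have h1 : ∀ a : A, ∃ ε > 0, a ∈ I → Metric.ball (ev k a) ε ⊆ u a := by
      intro a
      by_cases ha : a ∈ I
      · obtain ⟨hua, hfa⟩ := hu a ha
        obtain ⟨ε, hε, hb⟩ := Metric.isOpen_iff.1 hua _ hfa
        exact ⟨ε, hε, fun _ => hb⟩
      · exact ⟨1, one_pos, fun h => absurd h ha⟩
    choose ε hε hεu using h1
    obtain ⟨δ, hδ, hδ'⟩ : ∃ δ > 0, ∀ a ∈ I, δ ≤ ε a := by
      by_cases hI : I.Nonempty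
      · obtain ⟨a, ha, hmin⟩ := I.exists_min_image ε hI
        exact ⟨ε a, hε a, hmin⟩
      · rw [Finset.not_nonempty_iff_eq_empty] at hI
        subst hI
        exact ⟨1, one_pos, by simp⟩
    obtain ⟨c, hc, hcd⟩ := hC (I.toList.map Subtype.val) k δ hδ
    have hcZ : c ∈ B := hCB _ (by
      intro x hx
      obtain ⟨a, _, rfl⟩ := List.mem_map.1 hx
      exact a.2) hc
    refine ⟨ev c, hIu ?_, c, subset_closure hcZ, rfl⟩
    intro a ha
    apply hεu a ha
    rw [Metric.mem_ball, Real.dist_eq]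
    exact lt_of_lt_of_le (hcd a.1 (List.mem_map.2 ⟨a, Finset.mem_toList.2 ha, rfl⟩)) (hδ' a ha)
  rw [hcomp.isClosed.closure_eq] at hmem
  obtain ⟨g, hg, hgk⟩ := hmem
  exact ⟨g, hg, fun a ha => congrFun hgk ⟨a, ha⟩⟩

end EG

end Pool.Agent.H960R3.CCEG
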