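import Mathlib
import Pool.Agent.H960R3.CCEG2

/-!
# Čech-complete scattered Eberlein–Grothendieck spaces are sigma-discrete: the end of the proof
-/

set_option autoImplicit false

open Set Topology

namespace Pool.Agent.H960R3.CCEG

open Pool.Agent.H960R3.LSEG

section EG

variable {X K : Type} [TopologicalSpace X] [TopologicalSpace K] {f : X → K → ℝ}

/-- Data which determine a point. -/
def Cond (f : X → K → ℝ) (na : X → ℕ) (l : List X) (m : List (K × ℚ × Bool)) (M N : ℕ) (a : X) :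
    Prop :=
  na a = N ∧ (∀ k k', (∀ x ∈ l, |f x k - f x k'| ≤ 1 / ((M : ℝ) + 1)) →
    |f a k - f a k'| < 1 / (4 * ((N : ℝ) + 1))) ∧
  (∀ p ∈ m, |f a p.1 - p.2.1| < 1 / (4 * ((N : ℝ) + 1))) ∧
  (∀ k, ∃ p ∈ m, ∀ x ∈ l, |f x k - f x p.1| ≤ 1 / ((M : ℝ) + 1))

theorem Cond.uniq {na : X → ℕ} {ρ : X → Ordinal.{0}} (hρ : Function.Injective ρ)
    (hna : ∀ a y, (∀ k, |f y k - f a k| < 1 / ((na a : ℝ) + 1)) → ρ y ≤ ρ a)
    {l : List X} {m : List (K × ℚ × Bool)} {M N : ℕ} {a b : X} (ha : Cond f na l m M N a)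
    (hb : Cond f na l m M N b) : a = b := by
  obtain ⟨ha1, ha2, ha3, ha4⟩ := ha
  obtain ⟨hb1, hb2, hb3, _⟩ := hb
  have key : ∀ k, |f a k - f b k| < 1 / ((N : ℝ) + 1) := by
    intro k
    obtain ⟨p, hp, hpl⟩ := ha4 k
    have h1 := abs_lt.1 (ha2 k p.1 hpl)
    have h2 := abs_lt.1 (hb2 k p.1 hpl)
    have h3 := abs_lt.1 (ha3 p hp)
    have h4 := abs_lt.1 (hb3 p hp)
    have h5 : 1 / ((N : ℝ) + 1) = 4 * (1 / (4 * ((N : ℝ) + 1))) := by
      have : (0 : ℝ) < (N : ℝ) + 1 := by positivity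
      field_simp
    rw [h5, abs_lt]
    constructor <;> linarith [h1.1, h1.2, h2.1, h2.2, h3.1, h3.2, h4.1, h4.2]
  apply hρ
  apply le_antisymm
  · exact hna b a fun k => by rw [hb1]; exact key k
  · exact hna a b fun k => by rw [ha1, abs_sub_comm]; exact key k

theorem closure_subset' (hf : IsEmbedding f) (hfc : ∀ x, Continuous (f x)) [CompactSpace K]
    (na : X → ℕ) (A : Set X) (B : Set K) (C : List X → Set K)
    (hC : ∀ m, ∀ k : K, ∀ ε > 0, ∃ c ∈ C m, ∀ x ∈ m, |f x c - f x k| < ε)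
    (hCB : ∀ m : List X, (∀ x ∈ m, x ∈ A) → C m ⊆ B)
    (hcond : ∀ l m M N a, (∀ x ∈ l, x ∈ A) → (∀ e ∈ m, e.1 ∈ B) → Cond f na l m M N a → a ∈ A) :
    closure A ⊆ A := by
  classical
  intro a ha
  set N := na a with hN
  have hε : (0 : ℝ) < 1 / (4 * ((N : ℝ) + 1)) := by positivity
  -- step 1
  have hQ : IsCompact {p : K × K | 1 / (4 * ((N : ℝ) + 1)) ≤ |f a p.1 - f a p.2|} := by
    refine IsClosed.isCompact (isClosed_le continuous_const ?_)
    exact (((hfc a).comp continuous_fst).sub ((hfc a).comp continuous_snd)).abs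
  obtain ⟨t, ht⟩ := hQ.elim_finite_subcover
    (fun i : A × ℕ => {p : K × K | 1 / ((i.2 : ℝ) + 1) < |f i.1.1 p.1 - f i.1.1 p.2|})
    (fun i => isOpen_lt continuous_const
      (((hfc i.1.1).comp continuous_fst).sub ((hfc i.1.1).comp continuous_snd)).abs) (by
      intro p hp
      obtain ⟨x, hx, hne⟩ : ∃ x ∈ A, f x p.1 ≠ f x p.2 := by
        by_contra hcon
        push Not at hcon
        have hcl : IsClosed {x | f x p.1 = f x p.2} :=
          isClosed_eq ((continuous_apply p.1).comp hf.continuous)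
            ((continuous_apply p.2).comp hf.continuous)
        have h1 : f a p.1 = f a p.2 := closure_minimal hcon hcl ha
        have h2 : 1 / (4 * ((N : ℝ) + 1)) ≤ |f a p.1 - f a p.2| := hp
        rw [h1, sub_self, abs_zero] at h2
        linarith
      obtain ⟨n, hn⟩ := exists_nat_one_div_lt (abs_pos.2 (sub_ne_zero.2 hne))
      exact mem_iUnion.2 ⟨(⟨x, hx⟩, n), hn⟩)
  let l : List X := t.toList.map fun i => i.1.1
  let M : ℕ := t.sup Prod.snd
  have hlA : ∀ x ∈ l, x ∈ A := by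
    intro x hx
    obtain ⟨i, _, rfl⟩ := List.mem_map.1 hx
    exact i.1.2
  have h2 : ∀ k k', (∀ x ∈ l, |f x k - f x k'| ≤ 1 / ((M : ℝ) + 1)) →
      |f a k - f a k'| < 1 / (4 * ((N : ℝ) + 1)) := by
    intro k k' hkk
    by_contra hcon
    rw [not_lt] at hcon
    obtain ⟨i, hi, hik⟩ := mem_iUnion₂.1 (ht (show (k, k') ∈ _ from hcon))
    have h3 := hkk i.1.1 (List.mem_map.2 ⟨i, Finset.mem_toList.2 hi, rfl⟩)
    have h4 : i.2 ≤ M := Finset.le_sup (f := Prod.snd) hi
    have h5 : 1 / ((M : ℝ) + 1) ≤ 1 / ((i.2 : ℝ) + 1) :=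
      one_div_le_one_div_of_le (by positivity) (by
        have : (i.2 : ℝ) ≤ M := by exact_mod_cast h4
        linarith)
    have h6 : 1 / ((i.2 : ℝ) + 1) < |f i.1.1 k - f i.1.1 k'| := hik
    linarith
  have hδ : (0 : ℝ) < 1 / ((M : ℝ) + 1) := by positivity
  -- step 2
  obtain ⟨t', ht'⟩ := isCompact_univ.elim_finite_subcover
    (fun c : C l => ⋂ x ∈ {x | x ∈ l}, {k : K | |f x c.1 - f x k| < 1 / ((M : ℝ) + 1)})
    (fun c => (List.finite_toSet l).isOpen_biInter fun x _ =>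
      isOpen_lt (continuous_const.sub (hfc x)).abs continuous_const) (by
      intro k _
      obtain ⟨c, hc, hck⟩ := hC l k _ hδ
      exact mem_iUnion.2 ⟨⟨c, hc⟩, mem_iInter₂.2 fun x hx => hck x hx⟩)
  have hq : ∀ c : C l, ∃ q : ℚ, |f a c.1 - q| < 1 / (4 * ((N : ℝ) + 1)) := by
    intro c
    obtain ⟨q, hq1, hq2⟩ := exists_rat_btwn (show f a c.1 < f a c.1 + 1 / (4 * ((N : ℝ) + 1)) by
      linarith)
    exact ⟨q, by rw [abs_lt]; constructor <;> linarith⟩
  choose q hq using hq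
  let m : List (K × ℚ × Bool) := t'.toList.map fun c => (c.1, q c, true)
  refine hcond l m M N a hlA ?_ ⟨hN.symm, h2, ?_, ?_⟩
  · intro e he
    obtain ⟨c, _, rfl⟩ := List.mem_map.1 he
    exact hCB l hlA c.2
  · intro p hp
    obtain ⟨c, _, rfl⟩ := List.mem_map.1 hp
    exact hq c
  · intro k
    obtain ⟨c, hc, hck⟩ := mem_iUnion₂.1 (ht' (mem_univ k))
    rw [mem_iInter₂] at hck
    refine ⟨(c.1, q c, true), List.mem_map.2 ⟨c, Finset.mem_toList.2 hc, rfl⟩, fun x hx => ?_⟩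
    rw [abs_sub_comm]
    exact le_of_lt (hck x hx)

theorem sigmaDiscrete (hf : IsEmbedding f) (hfc : ∀ x, Continuous (f x)) [CompactSpace K]
    {Y : Type} [TopologicalSpace Y] [CompactSpace Y] [T2Space Y] (e : X → Y) (he : IsEmbedding e)
    (hG : IsGδ (range e)) (hsc : Scattered X) : SD (univ : Set X) := by
  classical
  have hT2 : T2Space X := hf.t2Space
  obtain ⟨ρ, hρinj, hρ⟩ := exists_rank hsc
  obtain ⟨Gn, hGo, hGe⟩ := isGδ_iff_eq_iInter_nat.1 hG
  choose C hCc hC using exists_C f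
  -- small neighbourhoods
  have hwn : ∀ (x : X) (n : ℕ), ∃ w : List (K × ℚ × Bool), x ∈ Op f w ∧
      closure (e '' Fc f w) ⊆ Gn n := by
    intro x n
    have hx : e x ∈ Gn n := by
      have : e x ∈ ⋂ n, Gn n := by rw [← hGe]; exact mem_range_self x
      exact mem_iInter.1 this n
    obtain ⟨t, htn, htc, hts⟩ := exists_mem_nhds_isClosed_subset ((hGo n).mem_nhds hx)
    obtain ⟨w, hw, hxw⟩ := exists_Op hf (isOpen_interior.preimage he.continuous)
      (show x ∈ e ⁻¹' interior t from mem_interior_iff_mem_nhds.2 htn)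
    refine ⟨w, hxw, (closure_minimal ?_ htc).trans hts⟩
    rintro _ ⟨y, hy, rfl⟩
    exact interior_subset (hw hy)
  choose wn hwn1 hwn2 using hwn
  have hna : ∀ a : X, ∃ n : ℕ, ∀ y, (∀ k, |f y k - f a k| < 1 / ((n : ℝ) + 1)) → ρ y ≤ ρ a := by
    intro a
    obtain ⟨w, hw, haw⟩ := exists_Op hf (hρ a) (le_refl (ρ a))
    obtain ⟨n, hn⟩ := near w a haw
    exact ⟨n, fun y hy => hw (Op_subset_Fc w (hn y hy))⟩
  choose na hna using hna
  -- the operator
  let S : List X → List (K × ℚ × Bool) → Set (X ⊕ K) := fun m w =>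
    (Sum.inl '' {p : X | ∃ h : (Op f w).Nonempty, p = h.choose}) ∪
    ((Sum.inr '' C m) ∪ ⋃ x ∈ {x | x ∈ m}, ⋃ n : ℕ,
      (fun e : K × ℚ × Bool => (Sum.inr e.1 : X ⊕ K)) '' {e | e ∈ wn x n}) ∪
    (Sum.inl '' ⋃ M : ℕ, ⋃ N : ℕ, {a | Cond f na m w M N a})
  have hS : ∀ m w, (S m w).Countable := by
    intro m w
    refine ((Countable.image ?_ _).union (((hCc m).image _).union ?_)).union (Countable.image ?_ _)
    · refine Set.Subsingleton.countable ?_
      rintro p ⟨h, rfl⟩ p' ⟨h', rfl⟩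
      rfl
    · exact (List.finite_toSet m).countable.biUnion fun x _ => countable_iUnion fun n =>
        (List.finite_toSet (wn x n)).countable.image _
    · refine countable_iUnion fun M => countable_iUnion fun N => Set.Subsingleton.countable ?_
      intro a ha b hb
      exact Cond.uniq hρinj (fun a y => hna a y) ha hb
  obtain ⟨G, hGc, hGS⟩ := exists_G S hS
  let A : Set (X ⊕ K) → Set X := fun Z => {x | Sum.inl x ∈ Z}
  let B : Set (X ⊕ K) → Set K := fun Z => {k | Sum.inr k ∈ Z}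
  let On : ℕ → Set (X ⊕ K) → Set X := fun n Z =>
    {y | ∃ w : List (K × ℚ × Bool), (∀ e ∈ w, Sum.inr e.1 ∈ Z) ∧ closure (e '' Fc f w) ⊆ Gn n ∧
      y ∈ Op f w}
  have hCB : ∀ Z, IsCl G Z → ∀ m : List X, (∀ x ∈ m, x ∈ A Z) → C m ⊆ B Z := by
    intro Z hZ m hm c hc
    exact hGS Z hZ m [] hm (by simp) (Or.inl (Or.inr (Or.inl ⟨c, hc, rfl⟩)))
  have hwnB : ∀ Z, IsCl G Z → ∀ x ∈ A Z, ∀ n, ∀ e ∈ wn x n, Sum.inr e.1 ∈ Z := by
    intro Z hZ x hx n e he
    refine hGS Z hZ [x] [] (by intro z hz; rw [List.mem_singleton] at hz; subst hz; exact hx)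
      (by simp) (Or.inl (Or.inr (Or.inr ?_)))
    exact mem_iUnion₂.2 ⟨x, by simp, mem_iUnion.2 ⟨n, e, he, rfl⟩⟩
  have hpick : ∀ Z, IsCl G Z → ∀ w : List (K × ℚ × Bool), (∀ e ∈ w, Sum.inr e.1 ∈ Z) →
      (Op f w).Nonempty → (A Z ∩ Op f w).Nonempty := by
    intro Z hZ w hw h
    exact ⟨h.choose, hGS Z hZ [] w (by simp) hw (Or.inl (Or.inl ⟨h.choose, ⟨h, rfl⟩, rfl⟩)),
      h.choose_spec⟩
  have hclosed : ∀ Z, IsCl G Z → IsClosed (A Z) := by
    intro Z hZ
    refine isClosed_of_closure_subset ?_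
    refine closure_subset' hf hfc na (A Z) (B Z) C hC (hCB Z hZ) ?_
    intro l m M N a hl hm ha
    exact hGS Z hZ l m hl hm (Or.inr ⟨a, mem_iUnion₂.2 ⟨M, N, ha⟩, rfl⟩)
  have f2 : ∀ Z, IsCl G Z → ∀ k : K, ∃ g ∈ closure (B Z), ∀ a ∈ A Z, f a g = f a k :=
    fun Z hZ => fact2 hfc (A Z) (B Z) C hC (hCB Z hZ)
  have f3 : ∀ Z (a x : X), (∀ k ∈ B Z, f a k = f x k) → ∀ g ∈ closure (B Z), f a g = f x g := by
    intro Z a x h g hg
    have h1 : IsClosed {g | f a g = f x g} := isClosed_eq (hfc a) (hfc x)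
    exact closure_minimal h h1 hg
  have funiq : ∀ Z, IsCl G Z → ∀ a ∈ A Z, ∀ a' ∈ A Z, (∀ k ∈ B Z, f a k = f a' k) → a = a' := by
    intro Z hZ a ha a' ha' h
    apply hf.injective
    funext k
    obtain ⟨g, hg, hgk⟩ := f2 Z hZ k
    rw [← hgk a ha, ← hgk a' ha']
    exact f3 Z a a' h g hg
  have f1 : ∀ Z, IsCl G Z → ∀ y, (∀ n, y ∈ On n Z) → ∃ a ∈ A Z, ∀ k ∈ B Z, f a k = f y k := by
    intro Z hZ y hy
    let D : Type := {w : List (K × ℚ × Bool) // (∀ e ∈ w, (Sum.inr e.1 : X ⊕ K) ∈ Z) ∧ y ∈ Op f w}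
    have hD0 : Nonempty D := ⟨⟨[], by simp, by intro e he; simp at he⟩⟩
    have hne : (⋂ w : D, closure (e '' (A Z ∩ Op f w.1))).Nonempty := by
      refine IsCompact.nonempty_iInter_of_directed_nonempty_isCompact_isClosed _ ?_ ?_ ?_ ?_
      · intro w w'
        refine ⟨⟨w.1 ++ w'.1, ?_, ?_⟩, ?_, ?_⟩
        · intro e he
          rcases List.mem_append.1 he with he | he
          · exact w.2.1 e he
          · exact w'.2.1 e he
        · intro e he
          rcases List.mem_append.1 he with he | he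
          · exact w.2.2 e he
          · exact w'.2.2 e he
        · refine closure_mono (image_mono (inter_subset_inter_right _ ?_))
          intro z hz e he
          exact hz e (List.mem_append.2 (Or.inl he))
        · refine closure_mono (image_mono (inter_subset_inter_right _ ?_))
          intro z hz e he
          exact hz e (List.mem_append.2 (Or.inr he))
      · intro w
        exact ((hpick Z hZ w.1 w.2.1 ⟨y, w.2.2⟩).image e).closure
      · intro w
        exact isClosed_closure.isCompact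
      · intro w
        exact isClosed_closure
    obtain ⟨c, hc⟩ := hne
    rw [mem_iInter] at hc
    have hcr : c ∈ range e := by
      rw [hGe, mem_iInter]
      intro n
      obtain ⟨w, hw1, hw2, hw3⟩ := hy n
      refine hw2 (closure_mono (image_mono ?_) (hc ⟨w, hw1, hw3⟩))
      exact inter_subset_right.trans (Op_subset_Fc w)
    obtain ⟨a, rfl⟩ := hcr
    have hac : ∀ w : D, a ∈ closure (A Z ∩ Op f w.1) := by
      intro w
      rw [he.isInducing.closure_eq_preimage_closure_image]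
      exact hc w
    have haA : a ∈ A Z := by
      have h1 := hac ⟨[], by simp, by intro e he; simp at he⟩
      exact (hclosed Z hZ).closure_subset_iff.2 inter_subset_left h1
    refine ⟨a, haA, fun k hk => ?_⟩
    have hFc : ∀ w : D, a ∈ Fc f w.1 := fun w =>
      closure_minimal (inter_subset_right.trans (Op_subset_Fc w.1)) (isClosed_Fc hf w.1) (hac w)
    by_contra hne
    rcases lt_or_gt_of_ne hne with hlt | hgt
    · obtain ⟨q, hq1, hq2⟩ := exists_rat_btwn hlt
      have h1 := hFc ⟨[(k, q, true)], by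
        intro e he
        rw [List.mem_singleton] at he
        subst he
        exact hk, by
        intro e he
        rw [List.mem_singleton] at he
        subst he
        simpa [W, ng] using hq2⟩
      have h2 := h1 (k, q, true) (by simp)
      simp [W] at h2
      linarith
    · obtain ⟨q, hq1, hq2⟩ := exists_rat_btwn hgt
      have h1 := hFc ⟨[(k, q, false)], by
        intro e he
        rw [List.mem_singleton] at he
        subst he
        exact hk, by
        intro e he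
        rw [List.mem_singleton] at he
        subst he
        simpa [W, ng] using hq1⟩
      have h2 := h1 (k, q, false) (by simp)
      simp [W] at h2
      linarith
  let r : Set (X ⊕ K) → X → X := fun Z y =>
    if h : ∃ a, a ∈ A Z ∧ ∀ k ∈ B Z, f a k = f y k then h.choose else y
  have hr : ∀ Z, IsCl G Z → ∀ y, (∀ n, y ∈ On n Z) → r Z y ∈ A Z ∧ ∀ k ∈ B Z, f (r Z y) k = f y k := by
    intro Z hZ y hy
    have h := f1 Z hZ y hy
    have h1 : r Z y = h.choose := by
      simp only [r]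
      rw [dif_pos h]
    rw [h1]
    exact h.choose_spec
  have hru : ∀ Z, IsCl G Z → ∀ y a, a ∈ A Z → (∀ k ∈ B Z, f a k = f y k) → r Z y = a := by
    intro Z hZ y a ha h
    have h0 : ∃ a, a ∈ A Z ∧ ∀ k ∈ B Z, f a k = f y k := ⟨a, ha, h⟩
    have h1 : r Z y = h0.choose := by
      simp only [r]
      rw [dif_pos h0]
    rw [h1]
    exact funiq Z hZ _ h0.choose_spec.1 a ha fun k hk => by rw [h0.choose_spec.2 k hk, h k hk]
  have homono : ∀ n Z Z', Z ⊆ Z' → On n Z ⊆ On n Z' := by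
    rintro n Z Z' hZZ y ⟨w, hw1, hw2, hw3⟩
    exact ⟨w, fun e he => hZZ (hw1 e he), hw2, hw3⟩
  have hsub : ∀ Z, IsCl G Z → ∀ n, A Z ⊆ On n Z := by
    intro Z hZ n x hx
    exact ⟨wn x n, hwnB Z hZ x hx n, hwn2 x n, hwn1 x n⟩
  have hR : Retr2 G A On r := by
    refine ⟨fun Z Z' h x hx => h hx, ?_, homono, ?_, ?_, hsub, fun Z hZ y hy => (hr Z hZ y hy).1,
      ?_, ?_, ?_, ?_, ?_, hclosed⟩
    · intro ι Z
      ext x
      simp [A]
    · rintro n ι _ _ Z hm y ⟨w, hw1, hw2, hw3⟩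
      have h1 : ∀ w : List (K × ℚ × Bool), (∀ e ∈ w, (Sum.inr e.1 : X ⊕ K) ∈ ⋃ i, Z i) →
          ∃ i, ∀ e ∈ w, (Sum.inr e.1 : X ⊕ K) ∈ Z i := by
        intro w
        induction w with
        | nil => intro _; exact ⟨Classical.arbitrary ι, by simp⟩
        | cons b w ih =>
          intro h
          obtain ⟨i, hi⟩ := ih (fun a ha => h a (List.mem_cons_of_mem _ ha))
          obtain ⟨j, hj⟩ := mem_iUnion.1 (h b List.mem_cons_self)
          refine ⟨max i j, fun a ha => ?_⟩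
          rcases List.mem_cons.1 ha with rfl | ha
          · exact hm (le_max_right i j) hj
          · exact hm (le_max_left i j) (hi a ha)
      obtain ⟨i, hi⟩ := h1 w hw1
      exact mem_iUnion.2 ⟨i, w, hi, hw2, hw3⟩
    · intro n Z
      rw [isOpen_iff_mem_nhds]
      rintro y ⟨w, hw1, hw2, hw3⟩
      filter_upwards [(isOpen_Op hf w).mem_nhds hw3] with z hz
      exact ⟨w, hw1, hw2, hz⟩
    · intro Z hZ x hx
      exact hru Z hZ x x hx fun k _ => rfl
    · intro Z Z' hZ hZ' hZZ y hy n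
      obtain ⟨w, hw1, hw2, hw3⟩ := hy n
      refine ⟨w, hw1, hw2, Op_congr (fun e he => ?_) hw3⟩
      exact (hr Z' hZ' y (fun n => homono n Z Z' hZZ (hy n))).2 _ (hZZ (hw1 e he))
    · intro Z Z' hZ hZ' hZZ y hy
      refine hru Z hZ _ _ (hr Z hZ y hy).1 fun k hk => ?_
      rw [(hr Z hZ y hy).2 k hk,
        (hr Z' hZ' y (fun n => homono n Z Z' hZZ (hy n))).2 k (hZZ hk)]
    · rintro Z Z' hZ hZ' hZZ y hy n ⟨w, hw1, hw2, hw3⟩
      refine ⟨w, hw1, hw2, Op_congr (fun e he => ?_) hw3⟩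
      exact ((hr Z' hZ' y hy).2 _ (hZZ (hw1 e he))).symm
    · intro Z hZ
      rw [hf.isInducing.continuousOn_iff, continuousOn_pi]
      intro k
      obtain ⟨g, hg, hgk⟩ := f2 Z hZ k
      refine ContinuousOn.congr (f := fun x => f x g)
        ((continuous_apply g).comp hf.continuous).continuousOn ?_
      intro y hy
      show f (r Z y) k = f y g
      rw [← hgk _ (hr Z hZ y hy).1]
      exact f3 Z _ _ (hr Z hZ y hy).2 g hg
  have hfinal := hR.sd hGc (fun Z hZ => hZ.preimage_of_injOn (Sum.inl_injective.injOn))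
    univ (fun l _ => subset_univ _)
  have h2 : A univ = univ := by
    ext x; simp [A]
  rwa [h2] at hfinal

end EG

end Pool.Agent.H960R3.CCEG
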