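import Mathlib

/-!
# A coinitial subfamily lemma and unbounded sequences

Tools for a T₁ discretely Lindelöf space that is not weakly Lindelöf.
-/

set_option autoImplicit false

open Set Topology Cardinal Filter

namespace Pool.Agent.H960R3.DL

section Coinitial

def Ar : Option (Set ℕ × Set ℕ) → Type
  | none => Empty
  | some _ => ℕ

theorem card_W : #(WType Ar) ≤ 𝔠 := by
  apply WType.cardinalMk_le_of_le
  have h1 : ∀ a, 𝔠 ^ #(Ar a) ≤ 𝔠 := by
    intro a
    cases a with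
    | none =>
      have : #(Ar none) = 0 := by
        change #Empty = 0
        simp
      rw [this, power_zero]
      exact Cardinal.one_le_iff_pos.2 Cardinal.continuum_pos
    | some x =>
      have : #(Ar (some x)) = ℵ₀ := by
        change #ℕ = ℵ₀
        simp
      rw [this, continuum_power_aleph0]
  have h2 : #(Option (Set ℕ × Set ℕ)) ≤ 𝔠 := by
    have h3 : #(Set ℕ) = 𝔠 := by simp
    rw [mk_option, mk_prod, lift_id, h3, continuum_mul_self]
    exact (Cardinal.add_one_eq (Cardinal.aleph0_le_continuum)).le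
  calc sum (fun a => 𝔠 ^ #(Ar a)) ≤ sum (fun _ : Option (Set ℕ × Set ℕ) => 𝔠) :=
        Cardinal.sum_le_sum _ _ h1
    _ = #(Option (Set ℕ × Set ℕ)) * 𝔠 := by simp
    _ ≤ 𝔠 * 𝔠 := mul_le_mul_left h2 _
    _ = 𝔠 := continuum_mul_self

variable {L : ℕ → Type} [∀ n, LinearOrder (L n)] [∀ n, WellFoundedLT (L n)]

open Classical in
noncomputable def nx {S : Type*} (s0 : S) (h : S → ∀ n, L n) :
    (Σ a : Option (Set ℕ × Set ℕ), Ar a → S) → S
  | ⟨none, _⟩ => s0
  | ⟨some (P, Q), u⟩ =>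
    if H : ∃ i : S, ∀ n : ℕ, (h i n < h (u n) n ↔ n ∈ P) ∧ (h i n = h (u n) n ↔ n ∈ Q) then
      H.choose else s0

theorem coinitial {S : Type*} [Nonempty S] (h : S → ∀ n, L n) :
    ∃ (W : Type) (e : W → S), #W ≤ 𝔠 ∧ ∀ j, ∃ w, ∀ n, h (e w) n ≤ h j n := by
  classical
  obtain ⟨s0⟩ := ‹Nonempty S›
  let e : WType Ar → S := WType.elim S (nx s0 h)
  refine ⟨WType Ar, e, card_W, fun j => ?_⟩
  have h0 : ∀ n, ∃ w : WType Ar, (∃ w', h j n ≤ h (e w') n) →
      (h j n ≤ h (e w) n ∧ ∀ w', h j n ≤ h (e w') n → h (e w) n ≤ h (e w') n) := by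
    intro n
    by_cases hA : ∃ w', h j n ≤ h (e w') n
    · let T : Set (L n) := {v | h j n ≤ v ∧ ∃ w', h (e w') n = v}
      have hT : T.Nonempty := by
        obtain ⟨w', hw'⟩ := hA
        exact ⟨_, hw', w', rfl⟩
      have hm := WellFounded.min_mem (wellFounded_lt (α := L n)) T hT
      obtain ⟨hm1, w, hw⟩ := hm
      refine ⟨w, fun _ => ⟨hw ▸ hm1, fun w' hw' => ?_⟩⟩
      rw [hw]
      exact WellFounded.min_le (wellFounded_lt (α := L n)) (s := T) ⟨hw', w', rfl⟩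
    · exact ⟨WType.mk none Empty.elim, fun h => absurd h hA⟩
  choose w hw using h0
  let P : Set ℕ := {n | h j n < h (e (w n)) n}
  let Q : Set ℕ := {n | h j n = h (e (w n)) n}
  let ws : WType Ar := WType.mk (some (P, Q)) w
  have hex : ∃ i : S, ∀ n : ℕ, (h i n < h (e (w n)) n ↔ n ∈ P) ∧ (h i n = h (e (w n)) n ↔ n ∈ Q) :=
    ⟨j, fun n => ⟨Iff.rfl, Iff.rfl⟩⟩
  have he : e ws = hex.choose := by
    change nx s0 h ⟨some (P, Q), fun n => e (w n)⟩ = _
    exact dif_pos hex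
  have hsp := hex.choose_spec
  rw [← he] at hsp
  refine ⟨ws, fun n => ?_⟩
  by_cases hA : ∃ w', h j n ≤ h (e w') n
  · obtain ⟨h1, h2⟩ := hw n hA
    rcases h1.lt_or_eq with h3 | h3
    · have h4 : h (e ws) n < h (e (w n)) n := (hsp n).1.2 h3
      by_contra h5
      exact absurd (h2 ws (not_le.1 h5).le) (not_le.2 h4)
    · rw [(hsp n).2.2 h3, h3]
  · push Not at hA
    exact (hA ws).le

end Coinitial

section Bound

variable {L : ℕ → Type} [∀ n, LinearOrder (L n)]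

/-- Sets of size at most `𝔠`, or of size at most that of an earlier `L m`, are bounded. -/
def Big (L : ℕ → Type) [∀ n, LinearOrder (L n)] : Prop :=
  ∀ (n : ℕ) (s : Set (L n)), (#s ≤ 𝔠 ∨ ∃ m < n, #s ≤ #(L m)) → ∃ b, ∀ a ∈ s, a < b

def Sm (L : ℕ → Type) [∀ n, LinearOrder (L n)] (T : Type*) : Prop :=
  ∀ f : T → ∀ n, L n, ∃ h : ∀ n, L n, ∀ t, ∀ᶠ n in atTop, f t n < h n

theorem sm_of_card (hL : Big L) {T : Type} (hT : #T ≤ 𝔠) : Sm L T := by
  intro f
  have h1 : ∀ n, ∃ b, ∀ a ∈ range (fun t => f t n), a < b := fun n =>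
    hL n _ (Or.inl (mk_range_le.trans hT))
  choose h hh using h1
  exact ⟨h, fun t => Eventually.of_forall fun n => hh n _ ⟨t, rfl⟩⟩

theorem sm_of_inj (hL : Big L) {T : Type*} (e : T → Σ n, L n) (he : Function.Injective e) :
    Sm L T := by
  classical
  intro f
  have hne : ∀ n, Nonempty (L n) := fun n => ⟨(hL n ∅ (Or.inl (by simp))).choose⟩
  have h1 : ∀ n m, m < n → ∃ b : L n, ∀ t, (e t).1 = m → f t n < b := by
    intro n m hm
    let g : L m → L n := fun a => if H : ∃ t, e t = ⟨m, a⟩ then f H.choose n else (hne n).some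
    obtain ⟨b, hb⟩ := hL n (range g) (Or.inr ⟨m, hm, mk_range_le⟩)
    refine ⟨b, fun t ht => ?_⟩
    obtain ⟨m', a⟩ : Σ n, L n := e t
    have : ∃ a : L m, e t = ⟨m, a⟩ := by
      subst ht
      exact ⟨(e t).2, rfl⟩
    obtain ⟨a, ha⟩ := this
    have H : ∃ t, e t = ⟨m, a⟩ := ⟨t, ha⟩
    have h2 : g a = f t n := by
      have h3 : g a = f H.choose n := dif_pos H
      rw [h3, he (H.choose_spec.trans ha.symm)]
    rw [← h2]
    exact hb _ ⟨a, rfl⟩
  have h2 : ∀ n, ∃ b : L n, ∀ t, (e t).1 < n → f t n < b := by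
    intro n
    choose! b hb using h1 n
    have := hne n
    obtain ⟨c, hc⟩ := ((finite_Iio n).image b).bddAbove
    exact ⟨c, fun t ht => (hb _ ht t rfl).trans_le (hc ⟨_, ht, rfl⟩)⟩
  choose h hh using h2
  exact ⟨h, fun t => (eventually_gt_atTop (e t).1).mono fun n hn => hh n t hn⟩

theorem exists_G (hL : Big L) : ∃ (δ : Ordinal.{0}) (G : Ordinal.{0} → ∀ n, L n),
    (∀ ξ < δ, ∀ η < ξ, ∀ᶠ n in atTop, G η n < G ξ n) ∧
      ∀ h : ∀ n, L n, ∃ ξ < δ, ∃ᶠ n in atTop, h n ≤ G ξ n := by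
  classical
  have hne : ∀ n, Nonempty (L n) := fun n => ⟨(hL n ∅ (Or.inl (by simp))).choose⟩
  let d : ∀ n, L n := fun n => (hne n).some
  let F : ∀ ξ : Ordinal.{0}, (∀ η < ξ, ∀ n, L n) → ∀ n, L n := fun ξ ih =>
    if H : ∃ b : ∀ n, L n, ∀ η (hη : η < ξ), ∀ᶠ n in atTop, ih η hη n < b n then H.choose else d
  let G : Ordinal.{0} → ∀ n, L n := WellFounded.fix (wellFounded_lt (α := Ordinal.{0})) F
  have hGe : ∀ ξ, G ξ = F ξ (fun η _ => G η) := fun ξ => WellFounded.fix_eq _ _ ξ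
  have hG : ∀ ξ, (∃ b : ∀ n, L n, ∀ η < ξ, ∀ᶠ n in atTop, G η n < b n) →
      ∀ η < ξ, ∀ᶠ n in atTop, G η n < G ξ n := by
    intro ξ H η hη
    have h1 : G ξ = H.choose := by
      rw [hGe ξ]
      exact dif_pos H
    rw [h1]
    exact H.choose_spec η hη
  by_cases hQ : ∃ δ, ¬ ∃ b : ∀ n, L n, ∀ η < δ, ∀ᶠ n in atTop, G η n < b n
  · let δ := WellFounded.min (wellFounded_lt (α := Ordinal.{0})) {δ | ¬ ∃ b : ∀ n, L n, ∀ η < δ,
      ∀ᶠ n in atTop, G η n < b n} hQ
    have hδ : ¬ ∃ b : ∀ n, L n, ∀ η < δ, ∀ᶠ n in atTop, G η n < b n :=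
      WellFounded.min_mem (wellFounded_lt (α := Ordinal.{0})) {δ | ¬ ∃ b : ∀ n, L n, ∀ η < δ,
      ∀ᶠ n in atTop, G η n < b n} hQ
    refine ⟨δ, G, fun ξ hξ => hG ξ ?_, fun h => ?_⟩
    · by_contra h
      exact WellFounded.not_lt_min (wellFounded_lt (α := Ordinal.{0})) {δ | ¬ ∃ b : ∀ n, L n,
        ∀ η < δ, ∀ᶠ n in atTop, G η n < b n} h hξ
    · by_contra hh
      refine hδ ⟨h, fun η hη => ?_⟩
      by_contra h3
      apply hh
      refine ⟨η, hη, ?_⟩
      rw [not_eventually] at h3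
      exact h3.mono fun n hn => not_lt.1 hn
  · push Not at hQ
    exfalso
    have hinj : Function.Injective G := by
      intro η ξ hηξ
      by_contra hne'
      rcases lt_or_gt_of_ne hne' with h | h
      · obtain ⟨n, hn⟩ := (hG ξ (hQ ξ) η h).exists
        rw [hηξ] at hn
        exact lt_irrefl _ hn
      · obtain ⟨n, hn⟩ := (hG η (hQ η) ξ h).exists
        rw [hηξ] at hn
        exact lt_irrefl _ hn
    exact not_injective_of_ordinal G hinj

theorem exists_L : ∃ (L : ℕ → Type) (_ : ∀ n, LinearOrder (L n)) (_ : ∀ n, WellFoundedLT (L n)),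
    Big L := by
  let κ : ℕ → Cardinal.{0} := fun n => Nat.rec (Order.succ 𝔠) (fun _ c => Order.succ c) n
  have h0 : κ 0 = Order.succ 𝔠 := rfl
  have h1 : ∀ n, κ (n + 1) = Order.succ (κ n) := fun n => rfl
  have hlt : StrictMono κ := strictMono_nat_of_lt_succ fun n => by
    rw [h1]
    exact Order.lt_succ _
  have hc : ∀ n, 𝔠 < κ n := fun n =>
    (Order.lt_succ 𝔠).trans_le (h0 ▸ hlt.monotone (Nat.zero_le n))
  have hreg : ∀ n, (κ n).IsRegular := by
    intro n
    cases n with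
    | zero => exact isRegular_succ aleph0_le_continuum
    | succ n => exact isRegular_succ (aleph0_le_continuum.trans (hc n).le)
  refine ⟨fun n => (κ n).ord.ToType, fun n => inferInstance, fun n => inferInstance, ?_⟩
  intro n s hs
  have hs' : #s < κ n := by
    rcases hs with hs | ⟨m, hm, hs⟩
    · exact hs.trans_lt (hc n)
    · refine hs.trans_lt ?_
      rw [mk_toType, card_ord]
      exact hlt hm
  have hcof : ¬ IsCofinal s := by
    intro h
    have h2 := Order.cof_le h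
    rw [Ordinal.cof_toType, (hreg n).cof_ord] at h2
    exact absurd h2 (not_le.2 hs')
  rw [IsCofinal] at hcof
  push Not at hcof
  obtain ⟨b, hb⟩ := hcof
  exact ⟨b, fun a ha => hb a ha⟩

end Bound

end Pool.Agent.H960R3.DL
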