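import Pool.Agent.H960R3.DL1

/-!
# A T₁ discretely Lindelöf space that is not weakly Lindelöf
-/

set_option autoImplicit false

open Set Topology Cardinal Filter

namespace Pool.Agent.H960R3.DL

section Cov

variable {X : Type*}

def Cov (O : Set (Set X)) (S : Set X) : Prop := ∃ V ⊆ O, V.Countable ∧ S ⊆ ⋃₀ V

theorem Cov.mono {O : Set (Set X)} {S T : Set X} (h : Cov O T) (hST : S ⊆ T) : Cov O S := by
  obtain ⟨V, h1, h2, h3⟩ := h
  exact ⟨V, h1, h2, hST.trans h3⟩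

theorem Cov.of_mem {O : Set (Set X)} {S : Set X} (h : S ∈ O) : Cov O S :=
  ⟨{S}, by simpa using h, countable_singleton _, by simp⟩

theorem Cov.empty {O : Set (Set X)} : Cov O ∅ :=
  ⟨∅, empty_subset _, countable_empty, empty_subset _⟩

theorem Cov.iUnion {ι : Type*} [Countable ι] {O : Set (Set X)} {S : ι → Set X}
    (h : ∀ i, Cov O (S i)) : Cov O (⋃ i, S i) := by
  choose V h1 h2 h3 using h
  refine ⟨⋃ i, V i, iUnion_subset h1, countable_iUnion h2, iUnion_subset fun i x hx => ?_⟩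
  obtain ⟨v, hv, hxv⟩ := h3 i hx
  exact ⟨v, mem_iUnion.2 ⟨i, hv⟩, hxv⟩

theorem Cov.union {O : Set (Set X)} {S T : Set X} (h : Cov O S) (h' : Cov O T) :
    Cov O (S ∪ T) := by
  obtain ⟨V, h1, h2, h3⟩ := h
  obtain ⟨V', h1', h2', h3'⟩ := h'
  refine ⟨V ∪ V', union_subset h1 h1', h2.union h2', ?_⟩
  rw [sUnion_union]
  exact union_subset_union h3 h3'

theorem Cov.biUnion {ι : Type*} {O : Set (Set X)} {t : Set ι} (ht : t.Countable) {S : ι → Set X}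
    (h : ∀ i ∈ t, Cov O (S i)) : Cov O (⋃ i ∈ t, S i) := by
  have := ht.to_subtype
  rw [biUnion_eq_iUnion]
  exact Cov.iUnion fun i => h i i.2

end Cov

variable {L : ℕ → Type} [∀ n, LinearOrder (L n)]

abbrev Vec (L : ℕ → Type) := ∀ n, WithTop (L n)

/-- `x` has rank at most `ξ`. -/
def Lo (G : Ordinal.{0} → ∀ n, L n) (ξ : Ordinal.{0}) (x : Vec L) : Prop :=
  ∃ᶠ n in atTop, x n ≤ (G ξ n : WithTop (L n))

def InU (s : Finset (Σ n, L n)) (x : Vec L) : Prop :=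
  ∀ p ∈ s, x p.1 < (p.2 : WithTop (L p.1))

def InW (δ : Ordinal.{0}) (G : Ordinal.{0} → ∀ n, L n) (t : Finset Ordinal.{0}) (x : Vec L) :
    Prop :=
  ∀ ζ ∈ t, ζ < δ ∧ ¬ Lo G ζ x

/-- The point set: vectors of some rank below `δ`, in two copies. -/
def Pt (δ : Ordinal.{0}) (G : Ordinal.{0} → ∀ n, L n) : Type :=
  {x : Vec L // ∃ ξ < δ, Lo G ξ x} × Bool

def Re {δ : Ordinal.{0}} {G : Ordinal.{0} → ∀ n, L n} (p q : Pt δ G) : Prop :=
  p.2 = true → q.2 = true ∧ ∀ n, p.1.1 n ≤ q.1.1 n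

theorem Re.refl {δ : Ordinal.{0}} {G : Ordinal.{0} → ∀ n, L n} (p : Pt δ G) : Re p p :=
  fun h => ⟨h, fun _ => le_rfl⟩

open Classical in
instance tops (δ : Ordinal.{0}) (G : Ordinal.{0} → ∀ n, L n) : TopologicalSpace (Pt δ G) where
  IsOpen O := ∀ p ∈ O, ∃ (s : Finset (Σ n, L n)) (t : Finset Ordinal.{0}) (F : Finset (Pt δ G)),
    InU s p.1.1 ∧ InW δ G t p.1.1 ∧ p ∉ F ∧
      ∀ q : Pt δ G, InU s q.1.1 → InW δ G t q.1.1 → q ∉ F → Re p q → q ∈ O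
  isOpen_univ := fun p _ => ⟨∅, ∅, ∅, by simp [InU], by simp [InW], by simp, by simp⟩
  isOpen_inter := by
    intro O O' h h' p hp
    obtain ⟨s, t, F, h1, h2, h3, h4⟩ := h p hp.1
    obtain ⟨s', t', F', h1', h2', h3', h4'⟩ := h' p hp.2
    refine ⟨s ∪ s', t ∪ t', F ∪ F', ?_, ?_, ?_, ?_⟩
    · intro a ha
      rcases Finset.mem_union.1 ha with ha | ha
      · exact h1 a ha
      · exact h1' a ha
    · intro a ha
      rcases Finset.mem_union.1 ha with ha | ha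
      · exact h2 a ha
      · exact h2' a ha
    · simp [h3, h3']
    · intro q hq1 hq2 hq3 hq4
      rw [Finset.mem_union, not_or] at hq3
      exact ⟨h4 q (fun a ha => hq1 a (Finset.mem_union_left _ ha))
        (fun a ha => hq2 a (Finset.mem_union_left _ ha)) hq3.1 hq4,
        h4' q (fun a ha => hq1 a (Finset.mem_union_right _ ha))
        (fun a ha => hq2 a (Finset.mem_union_right _ ha)) hq3.2 hq4⟩
  isOpen_sUnion := by
    intro S hS p hp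
    obtain ⟨O, hO, hpO⟩ := hp
    obtain ⟨s, t, F, h1, h2, h3, h4⟩ := hS O hO p hpO
    exact ⟨s, t, F, h1, h2, h3, fun q a b c d => ⟨O, hO, h4 q a b c d⟩⟩

variable {δ : Ordinal.{0}} {G : Ordinal.{0} → ∀ n, L n}

theorem isOpen_iff' {O : Set (Pt δ G)} : IsOpen O ↔
    ∀ p ∈ O, ∃ (s : Finset (Σ n, L n)) (t : Finset Ordinal.{0}) (F : Finset (Pt δ G)),
    InU s p.1.1 ∧ InW δ G t p.1.1 ∧ p ∉ F ∧
      ∀ q : Pt δ G, InU s q.1.1 → InW δ G t q.1.1 → q ∉ F → Re p q → q ∈ O := Iff.rfl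

instance t1 : T1Space (Pt δ G) := by
  refine ⟨fun p => ⟨?_⟩⟩
  rw [isOpen_iff']
  intro q hq
  refine ⟨∅, ∅, {p}, by simp [InU], by simp [InW], by simpa using hq, ?_⟩
  intro r _ _ hr _
  simpa using hr

theorem isOpen_U (n : ℕ) (a : L n) : IsOpen {p : Pt δ G | p.1.1 n < (a : WithTop (L n))} := by
  rw [isOpen_iff']
  intro p hp
  refine ⟨{⟨n, a⟩}, ∅, ∅, ?_, by simp [InW], by simp, ?_⟩
  · intro c hc
    rw [Finset.mem_singleton] at hc
    subst hc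
    exact hp
  · intro q hq _ _ _
    exact hq ⟨n, a⟩ (by simp)

theorem isClosed_Lo {ξ : Ordinal.{0}} (hξ : ξ < δ) : IsClosed {p : Pt δ G | Lo G ξ p.1.1} := by
  refine ⟨?_⟩
  rw [isOpen_iff']
  intro p hp
  refine ⟨∅, {ξ}, ∅, by simp [InU], ?_, by simp, ?_⟩
  · intro c hc
    rw [Finset.mem_singleton] at hc
    subst hc
    exact ⟨hξ, hp⟩
  · intro q _ hq _ _
    exact (hq ξ (by simp)).2

theorem isOpen_up (x : {x : Vec L // ∃ ξ < δ, Lo G ξ x}) :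
    IsOpen {p : Pt δ G | p.2 = true ∧ ∀ n, x.1 n ≤ p.1.1 n} := by
  rw [isOpen_iff']
  intro p hp
  refine ⟨∅, ∅, ∅, by simp [InU], by simp [InW], by simp, ?_⟩
  intro q _ _ _ hR
  obtain ⟨h1, h2⟩ := hR hp.1
  exact ⟨h1, fun n => (hp.2 n).trans (h2 n)⟩

theorem Lo.mono (hG : ∀ ξ < δ, ∀ η < ξ, ∀ᶠ n in atTop, G η n < G ξ n) {η ξ : Ordinal.{0}}
    (hηξ : η ≤ ξ) (hξ : ξ < δ) {x : Vec L} (h : Lo G η x) : Lo G ξ x := by
  rcases hηξ.eq_or_lt with rfl | hlt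
  · exact h
  · exact (h.and_eventually (hG ξ hξ η hlt)).mono fun n hn =>
      hn.1.trans (WithTop.coe_le_coe.2 hn.2.le)

open Classical in
noncomputable def xA (G : Ordinal.{0} → ∀ n, L n) (ξ : Ordinal.{0}) (A : Set ℕ) : Vec L :=
  fun n => if n ∈ A then (G ξ n : WithTop (L n)) else ⊤

theorem lo_xA (G : Ordinal.{0} → ∀ n, L n) (ξ : Ordinal.{0}) {A : Set ℕ} (hA : A.Infinite) :
    Lo G ξ (xA G ξ A) := by
  have h : ∃ᶠ n in atTop, n ∈ A := Nat.frequently_atTop_iff_infinite.2 hA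
  refine h.mono fun n hn => ?_
  simp [xA, hn]

theorem cov_Lo (hG : ∀ ξ < δ, ∀ η < ξ, ∀ᶠ n in atTop, G η n < G ξ n)
    (𝒪 : Set (Set (Pt δ G))) (hO : ∀ O ∈ 𝒪, IsOpen O) (ξ : Ordinal.{0}) (hξ : ξ < δ)
    (hc : {p : Pt δ G | Lo G ξ p.1.1} ⊆ ⋃₀ 𝒪) : Cov 𝒪 {p : Pt δ G | Lo G ξ p.1.1} := by
  classical
  induction ξ using WellFoundedLT.induction with
  | ind ξ ih =>
  have h0 : ∀ A : Set ℕ, A.Infinite → ∃ (O : Set (Pt δ G)) (s : Finset (Σ n, L n))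
      (t : Finset Ordinal.{0}) (F : Finset (Pt δ G)), O ∈ 𝒪 ∧ InU s (xA G ξ A) ∧
        InW δ G t (xA G ξ A) ∧
        ∀ q : Pt δ G, InU s q.1.1 → InW δ G t q.1.1 → q ∉ F → q ∈ O := by
    intro A hA
    let p : Pt δ G := (⟨xA G ξ A, ξ, hξ, lo_xA G ξ hA⟩, false)
    obtain ⟨O, hO1, hpO⟩ := hc (show p ∈ {p : Pt δ G | Lo G ξ p.1.1} from lo_xA G ξ hA)
    obtain ⟨s, t, F, h1, h2, -, h4⟩ := isOpen_iff'.1 (hO O hO1) p hpO
    refine ⟨O, s, t, F, hO1, h1, h2, fun q a b c => h4 q a b c ?_⟩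
    intro h
    exact absurd h (by simp [p])
  choose! Oa sa ta Fa hOa hsa hta hqa using h0
  let dom : Set ℕ → Finset ℕ := fun A => (sa A).image Sigma.fst
  let D : Set (Finset ℕ) := {d | ∃ A : Set ℕ, A.Infinite ∧ dom A = d}
  have hD : ∀ d ∈ D, ∃ A : Set ℕ, A.Infinite ∧ dom A = d := fun d hd => hd
  choose! Ad hAd hAd' using hD
  have hsub : {p : Pt δ G | Lo G ξ p.1.1} ⊆ ⋃ d ∈ D, (Oa (Ad d) ∪
      ((⋃ ζ ∈ (ta (Ad d) : Set Ordinal.{0}), {p : Pt δ G | Lo G ζ p.1.1}) ∪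
        ((Fa (Ad d) : Set (Pt δ G)) ∩ {p : Pt δ G | Lo G ξ p.1.1}))) := by
    intro p hp
    let A : Set ℕ := {n | p.1.1 n ≤ (G ξ n : WithTop (L n))}
    have hA : A.Infinite := Nat.frequently_atTop_iff_infinite.1 hp
    have hd : dom A ∈ D := ⟨A, hA, rfl⟩
    refine mem_iUnion₂.2 ⟨dom A, hd, ?_⟩
    have hB := hAd _ hd
    have hB' := hAd' _ hd
    have hdomA : ∀ n ∈ dom A, n ∈ A := by
      intro n hn
      obtain ⟨c, hc1, rfl⟩ := Finset.mem_image.1 hn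
      by_contra hcA
      have h1 := hsa A hA c hc1
      simp [xA, hcA] at h1
    have hU : InU (sa (Ad (dom A))) p.1.1 := by
      intro c hc1
      have h1 : c.1 ∈ dom A := by
        rw [← hB']
        exact Finset.mem_image_of_mem _ hc1
      have h2 : p.1.1 c.1 ≤ (G ξ c.1 : WithTop (L c.1)) := hdomA _ h1
      have h3 := hsa _ hB c hc1
      have h4 : c.1 ∈ Ad (dom A) := by
        by_contra h5
        simp [xA, h5] at h3
      simp only [xA, h4, if_true] at h3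
      exact h2.trans_lt h3
    by_cases hW : InW δ G (ta (Ad (dom A))) p.1.1
    · by_cases hF : p ∈ Fa (Ad (dom A))
      · exact Or.inr (Or.inr ⟨hF, hp⟩)
      · exact Or.inl (hqa _ hB p hU hW hF)
    · refine Or.inr (Or.inl ?_)
      rw [InW] at hW
      push Not at hW
      obtain ⟨ζ, hζ, h⟩ := hW
      exact mem_iUnion₂.2 ⟨ζ, hζ, h (hta _ hB ζ hζ).1⟩
  refine Cov.mono ?_ hsub
  refine Cov.biUnion (to_countable D) fun d hd => ?_
  have hB := hAd _ hd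
  refine Cov.union (Cov.of_mem (hOa _ hB)) (Cov.union ?_ ?_)
  · refine Cov.biUnion (Finset.countable_toSet _) fun ζ hζ => ?_
    obtain ⟨h1, h2⟩ := hta _ hB ζ hζ
    have hlt : ζ < ξ := by
      by_contra h3
      rw [not_lt] at h3
      exact h2 (Lo.mono hG h3 h1 (lo_xA G ξ hB))
    exact ih ζ hlt h1 (Subset.trans (fun p hp => Lo.mono hG hlt.le hξ hp) hc)
  · have hfin : ((Fa (Ad d) : Set (Pt δ G)) ∩ {p : Pt δ G | Lo G ξ p.1.1}).Finite :=
      (Finset.finite_toSet _).inter_of_left _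
    rw [← biUnion_of_singleton ((Fa (Ad d) : Set (Pt δ G)) ∩ {p : Pt δ G | Lo G ξ p.1.1})]
    refine Cov.biUnion hfin.countable fun q hq => ?_
    obtain ⟨O, hO1, hqO⟩ := hc hq.2
    exact (Cov.of_mem hO1).mono (singleton_subset_iff.2 hqO)

end Pool.Agent.H960R3.DL
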