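import Pool.Agent.H960R3.DL2

/-!
# Discrete sets have bounded rank; the main theorem
-/

set_option autoImplicit false

open Set Topology Cardinal Filter

namespace Pool.Agent.H960R3.DL

variable {L : ℕ → Type} [∀ n, LinearOrder (L n)]
variable {δ : Ordinal.{0}} {G : Ordinal.{0} → ∀ n, L n}

theorem small_bdd (hG : ∀ ξ < δ, ∀ η < ξ, ∀ᶠ n in atTop, G η n < G ξ n)
    (hU : ∀ h : ∀ n, L n, ∃ ξ < δ, ∃ᶠ n in atTop, h n ≤ G ξ n)
    {T : Type*} (hT : Sm L T) (ρ : T → Ordinal.{0}) (hρ : ∀ t, ρ t < δ) :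
    ∃ ρ' < δ, ∀ t, ρ t ≤ ρ' := by
  obtain ⟨h, hh⟩ := hT (fun t => G (ρ t))
  obtain ⟨ξ, hξ, hf⟩ := hU h
  refine ⟨ξ, hξ, fun t => ?_⟩
  by_contra hlt
  rw [not_le] at hlt
  obtain ⟨n, hn, hn1, hn2⟩ := (hf.and_eventually ((hh t).and (hG _ (hρ t) ξ hlt))).exists
  exact absurd (hn.trans_lt hn2) (not_lt.2 hn1.le)

theorem bounded_of_discrete [∀ n, WellFoundedLT (L n)] (hL : Big L)
    (hG : ∀ ξ < δ, ∀ η < ξ, ∀ᶠ n in atTop, G η n < G ξ n)
    (hU : ∀ h : ∀ n, L n, ∃ ξ < δ, ∃ᶠ n in atTop, h n ≤ G ξ n)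
    (D : Set (Pt δ G)) (hD : DiscreteTopology D) :
    ∃ ξ < δ, D ⊆ {p : Pt δ G | Lo G ξ p.1.1} := by
  classical
  by_contra hcon
  have h0 : ∀ ξ < δ, ∃ d ∈ D, ¬ Lo G ξ d.1.1 := by
    intro ξ hξ
    by_contra h
    push Not at h
    exact hcon ⟨ξ, hξ, fun p hp => h p hp⟩
  have hne : ∀ n, Nonempty (L n) := fun n => ⟨(hL n ∅ (Or.inl (by simp))).choose⟩
  obtain ⟨ξ0, hξ0, -⟩ := hU (fun n => (hne n).some)
  have hδ : (⊥ : Ordinal.{0}) < δ := lt_of_le_of_lt bot_le hξ0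
  obtain ⟨p0, hp0, -⟩ := h0 ξ0 hξ0
  have : Nonempty (Pt δ G) := ⟨p0⟩
  choose! d hd hd' using h0
  have h1 : ∀ ξ < δ, ∃ (s : Finset (Σ n, L n)) (t : Finset Ordinal.{0}) (F : Finset (Pt δ G)),
      InU s (d ξ).1.1 ∧ InW δ G t (d ξ).1.1 ∧
      ∀ q : Pt δ G, q ∈ D → InU s q.1.1 → InW δ G t q.1.1 → q ∉ F → Re (d ξ) q → q = d ξ := by
    intro ξ hξ
    have h2 : IsOpen ({⟨d ξ, hd ξ hξ⟩} : Set D) := isOpen_discrete _
    obtain ⟨U, hU1, hU2⟩ := isOpen_induced_iff.1 h2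
    have h3 : d ξ ∈ U := by
      have : (⟨d ξ, hd ξ hξ⟩ : D) ∈ (Subtype.val ⁻¹' U : Set D) := by rw [hU2]; rfl
      exact this
    obtain ⟨s, t, F, h4, h5, -, h6⟩ := isOpen_iff'.1 hU1 _ h3
    refine ⟨s, t, F, h4, h5, fun q hqD a b c e => ?_⟩
    have h7 : q ∈ U := h6 q a b c e
    have h8 : (⟨q, hqD⟩ : D) ∈ ({⟨d ξ, hd ξ hξ⟩} : Set D) := by
      rw [← hU2]
      exact h7
    exact congrArg Subtype.val h8
  choose! s t F hs ht hq using h1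
  -- pigeonhole
  have hinf : Infinite (Σ n, L n) := by
    have hmax : NoMaxOrder (L 0) := ⟨fun a => by
      obtain ⟨b, hb⟩ := hL 0 {a} (Or.inl (by
        rw [mk_singleton]
        exact one_lt_aleph0.le.trans aleph0_le_continuum))
      exact ⟨b, hb a rfl⟩⟩
    have := hne 0
    have : Infinite (L 0) := NoMaxOrder.infinite
    exact Infinite.of_injective (fun a : L 0 => (⟨0, a⟩ : Σ n, L n)) sigma_mk_injective
  have hSmC : Sm L (Finset (Σ n, L n) × Bool) := by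
    have hcard : #(Finset (Σ n, L n) × Bool) ≤ #(Σ n, L n) := by
      rw [mk_prod, lift_id, lift_id, mk_finset_of_infinite]
      refine (mul_le_mul_right ((Cardinal.lt_aleph0_of_finite Bool).le.trans
        (aleph0_le_mk (Σ n, L n))) _).trans ?_
      exact (mul_eq_self (aleph0_le_mk _)).le
    obtain ⟨e⟩ := hcard
    exact sm_of_inj hL e e.injective
  let c : Ordinal.{0} → Finset (Σ n, L n) × Bool := fun ξ => (s ξ, (d ξ).2)
  have hpig : ∃ c0, ∀ ζ < δ, ∃ ξ, ζ ≤ ξ ∧ ξ < δ ∧ c ξ = c0 := by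
    by_contra h
    push Not at h
    choose z hz hz' using h
    obtain ⟨ρ, hρ, hρ'⟩ := small_bdd hG hU hSmC z hz
    exact hz' (c ρ) ρ (hρ' _) hρ rfl
  obtain ⟨c0, hc0⟩ := hpig
  let S : Type 1 := {ξ : Ordinal.{0} // ξ < δ ∧ c ξ = c0}
  have hSne : Nonempty S := by
    obtain ⟨ξ, -, h⟩ := hc0 ξ0 hξ0
    exact ⟨⟨ξ, h⟩⟩
  obtain ⟨W, e, hW, he⟩ := coinitial (L := fun n => WithTop (L n))
    (fun ξ : S => (d ξ.1).1.1)
  -- ranks
  have hr : ∀ q : Pt δ G, ∃ ξ < δ, Lo G ξ q.1.1 := fun q => q.1.2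
  choose r hr1 hr2 using hr
  let ρ : W → Ordinal.{0} := fun w =>
    max ((t (e w).1).sup id) ((insert (d (e w).1) (F (e w).1)).sup r)
  have hρ : ∀ w, ρ w < δ := by
    intro w
    refine max_lt ((Finset.sup_lt_iff hδ).2 fun ζ hζ => ?_)
      ((Finset.sup_lt_iff hδ).2 fun q _ => hr1 q)
    exact (ht (e w).1 (e w).2.1 ζ hζ).1
  obtain ⟨ρ', hρ'1, hρ'2⟩ := small_bdd hG hU (sm_of_card hL hW) ρ hρ
  obtain ⟨j, hj1, hj2, hj3⟩ := hc0 ρ' hρ'1
  obtain ⟨w, hw⟩ := he ⟨j, hj2, hj3⟩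
  set i : S := e w with hi
  have hcij : c i.1 = c j := i.2.2.trans hj3.symm
  have hsij : s i.1 = s j := congrArg Prod.fst hcij
  have hbij : (d i.1).2 = (d j).2 := congrArg (fun a : Finset (Σ n, L n) × Bool => a.2) hcij
  have hle : ρ w ≤ j := (hρ'2 w).trans hj1
  have hnot : ∀ q ∈ insert (d i.1) (F i.1), d j ≠ q := by
    intro q hq' heq
    have h2 : r q ≤ ρ w := le_max_of_le_right (Finset.le_sup (f := r) hq')
    have h3 : Lo G j (d j).1.1 := by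
      rw [heq]
      exact Lo.mono hG (h2.trans hle) hj2 (hr2 q)
    exact hd' j hj2 h3
  refine hnot (d i.1) (Finset.mem_insert_self _ _) (hq i.1 i.2.1 (d j) (hd j hj2) ?_ ?_ ?_ ?_)
  · rw [hsij]
    exact hs j hj2
  · intro ζ hζ
    refine ⟨(ht i.1 i.2.1 ζ hζ).1, fun hlo => hd' j hj2 ?_⟩
    have h2 : ζ ≤ ρ w := le_max_of_le_left (Finset.le_sup (f := id) hζ)
    exact Lo.mono hG (h2.trans hle) hj2 hlo
  · intro hF
    exact hnot (d j) (Finset.mem_insert_of_mem hF) rfl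
  · intro h2
    exact ⟨hbij ▸ h2, hw⟩

theorem isLindelof_Lo (hG : ∀ ξ < δ, ∀ η < ξ, ∀ᶠ n in atTop, G η n < G ξ n)
    {ξ : Ordinal.{0}} (hξ : ξ < δ) : IsLindelof {p : Pt δ G | Lo G ξ p.1.1} := by
  refine isLindelof_of_countable_subcover ?_
  intro ι U hUo hUc
  obtain ⟨V, hV1, hV2, hV3⟩ := cov_Lo hG (range U)
    (by rintro _ ⟨i, rfl⟩; exact hUo i) ξ hξ (by rwa [sUnion_range])
  have hV4 : ∀ v : V, ∃ i, U i = v.1 := fun v => hV1 v.2
  choose c hc using hV4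
  have := hV2.to_subtype
  refine ⟨range c, countable_range c, fun p hp => ?_⟩
  obtain ⟨v, hv, hpv⟩ := hV3 hp
  refine mem_iUnion₂.2 ⟨c ⟨v, hv⟩, ⟨_, rfl⟩, ?_⟩
  rw [hc ⟨v, hv⟩]
  exact hpv

theorem exists_space : ∃ (X : Type) (_ : TopologicalSpace X), T1Space X ∧
    (∀ D : Set X, DiscreteTopology D → LindelofSpace (closure D)) ∧
    ∃ 𝒰 : Set (Set X), (∀ U ∈ 𝒰, IsOpen U) ∧ ⋃₀ 𝒰 = Set.univ ∧
      ∀ 𝒱 ⊆ 𝒰, 𝒱.Countable → ¬ Dense (⋃₀ 𝒱) := by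
  classical
  obtain ⟨L, i1, i2, hL⟩ := exists_L
  obtain ⟨δ, G, hG, hU⟩ := exists_G hL
  refine ⟨Pt δ G, inferInstance, inferInstance, ?_, ?_⟩
  · intro D hD
    obtain ⟨ξ, hξ, hDξ⟩ := bounded_of_discrete hL hG hU D hD
    rw [← isLindelof_iff_lindelofSpace]
    exact (isLindelof_Lo hG hξ).of_isClosed_subset isClosed_closure
      (closure_minimal hDξ (isClosed_Lo hξ))
  · let U : (Σ n, L n) → Set (Pt δ G) := fun a => {p | p.1.1 a.1 < (a.2 : WithTop (L a.1))}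
    refine ⟨range U, ?_, ?_, ?_⟩
    · rintro _ ⟨a, rfl⟩
      exact isOpen_U a.1 a.2
    · refine eq_univ_of_forall fun p => ?_
      obtain ⟨ξ, hξ, hlo⟩ := p.1.2
      obtain ⟨n, hn⟩ := hlo.exists
      obtain ⟨b, hb⟩ := hL n {G ξ n} (Or.inl (by
        rw [mk_singleton]
        exact one_lt_aleph0.le.trans aleph0_le_continuum))
      refine ⟨U ⟨n, b⟩, ⟨_, rfl⟩, ?_⟩
      exact hn.trans_lt (WithTop.coe_lt_coe.2 (hb _ rfl))
    · intro V hV hVc hdense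
      have hV4 : ∀ v : V, ∃ i, U i = v.1 := fun v => hV v.2
      choose c hc using hV4
      have := hVc.to_subtype
      have h1 : ∀ n, ∃ b : L n, ∀ a : L n, (⟨n, a⟩ : Σ n, L n) ∈ range c → a < b := by
        intro n
        have hcount : ((Sigma.mk n) ⁻¹' (range c) : Set (L n)).Countable :=
          (countable_range c).preimage sigma_mk_injective
        exact hL n _ (Or.inl (hcount.le_aleph0.trans aleph0_le_continuum))
      choose h hh using h1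
      obtain ⟨ξ, hξ, hf⟩ := hU h
      let A : Set ℕ := {n | h n ≤ G ξ n}
      have hA : A.Infinite := Nat.frequently_atTop_iff_infinite.1 hf
      let x : {x : Vec L // ∃ ξ < δ, Lo G ξ x} := ⟨xA G ξ A, ξ, hξ, lo_xA G ξ hA⟩
      obtain ⟨q, hq1, hq2⟩ := hdense.inter_open_nonempty _ (isOpen_up x)
        ⟨(x, true), rfl, fun n => le_rfl⟩
      obtain ⟨v', hv, hqv⟩ := hq2
      obtain ⟨v, rfl⟩ : ∃ v : V, v.1 = v' := ⟨⟨v', hv⟩, rfl⟩
      have h2 : U (c v) = v := hc v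
      rw [← h2] at hqv
      have h3 : q.1.1 (c v).1 < ((c v).2 : WithTop (L (c v).1)) := hqv
      have h4 : (c v).2 < h (c v).1 := hh _ _ ⟨v, rfl⟩
      have h5 : (h (c v).1 : WithTop (L (c v).1)) ≤ x.1 (c v).1 := by
        change (h (c v).1 : WithTop (L (c v).1)) ≤ xA G ξ A (c v).1
        by_cases hn : (c v).1 ∈ A
        · simp only [xA, hn, if_true]
          exact WithTop.coe_le_coe.2 hn
        · simp [xA, hn]
      exact absurd ((h5.trans (hq1.2 _)).trans_lt (h3.trans (WithTop.coe_lt_coe.2 h4)))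
        (lt_irrefl _)

end Pool.Agent.H960R3.DL
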