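import Mathlib

/-!
# A Navy type space: combinatorial part

`W` is an uncountable linear order with countable initial segments.
-/

set_option autoImplicit false

open Set

namespace Pool.Agent.H960R3.Navy

/-- Root lemma (a weak form of the Delta-system lemma). -/
theorem root_lemma {ι T : Type} (J : Set ι) (hJ : ¬ J.Countable) (R : ι → Finset T) :
    ∃ (R₀ : Finset T) (J₀ : Set ι), J₀ ⊆ J ∧ ¬ J₀.Countable ∧ (∀ i ∈ J₀, R₀ ⊆ R i) ∧
      ∀ H : Set T, H.Countable → {i ∈ J₀ | ¬ ∀ x ∈ R i, x ∈ H → x ∈ R₀}.Countable := by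
  classical
  have h1 : ∃ N, ¬ {i ∈ J | (R i).card = N}.Countable := by
    by_contra hcon
    push Not at hcon
    refine hJ ((countable_iUnion hcon).mono ?_)
    intro i hi
    exact mem_iUnion.2 ⟨(R i).card, hi, rfl⟩
  obtain ⟨N, hN⟩ := h1
  let P : ℕ → Prop := fun k => ∃ R₀ : Finset T, R₀.card = k ∧
    ¬ {i ∈ J | (R i).card = N ∧ R₀ ⊆ R i}.Countable
  have hP0 : P 0 := ⟨∅, rfl, by simpa using hN⟩
  have hPN : ∀ k, P k → k ≤ N := by
    rintro k ⟨R₀, rfl, h⟩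
    by_contra hk
    refine h (Set.countable_empty.mono ?_)
    rintro i ⟨-, hi, hR⟩
    exact (hk (hi ▸ Finset.card_le_card hR)).elim
  obtain ⟨R₀, hc, hR₀⟩ := Nat.findGreatest_spec (P := P) (Nat.zero_le N) hP0
  have hmax : ∀ x ∉ R₀, {i ∈ J | (R i).card = N ∧ insert x R₀ ⊆ R i}.Countable := by
    intro x hx
    by_contra hcon
    have h2 : P (R₀.card + 1) := ⟨insert x R₀, Finset.card_insert_of_notMem hx, hcon⟩
    have h3 := Nat.le_findGreatest (hPN _ h2) h2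
    omega
  refine ⟨R₀, {i ∈ J | (R i).card = N ∧ R₀ ⊆ R i}, fun i hi => hi.1, hR₀, fun i hi => hi.2.2, ?_⟩
  intro H hH
  refine ((hH.mono (inter_subset_left (t := {x | x ∉ R₀}))).biUnion
    (t := fun x _ => {i ∈ J | (R i).card = N ∧ insert x R₀ ⊆ R i})
    fun x hx => hmax x hx.2).mono ?_
  rintro i ⟨⟨hi, hN', hR⟩, h⟩
  push Not at h
  obtain ⟨x, hx, hxH, hxR⟩ := h
  exact mem_iUnion₂.2 ⟨x, ⟨hxH, hxR⟩, hi, hN', Finset.insert_subset hx hR⟩

variable {W : Type} [LinearOrder W]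

/-- Length functions: `q a u` depends only on the first `q a u` entries of `u`. -/
def Q (W : Type) : Type :=
  {q : W → (ℕ → W) → ℕ // ∀ a u v, (∀ k < q a u, v k = u k) → q a v = q a u}

/-- Trees of plays for a fixed index `a`, given the neighbourhood data `m`, `F`. -/
inductive G (a : W) (m : (ℕ → W) → ℕ) (F : (ℕ → W) → Finset (Q W)) :
    (ℕ → W) → ℕ → Set (Q W × ℕ) → Prop
  | leaf (v : ℕ → W) (k : ℕ) (u : ℕ → W) (h1 : m u ≤ k) (h2 : ∀ j < m u, v j = u j)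
      (h3 : ∀ q ∈ F u, q.1 a v ≤ k) : G a m F v k {x | x.1 ∈ F u ∧ x.2 = x.1.1 a v}
  | node (v : ℕ → W) (k : ℕ) (R : Set (Q W × ℕ)) (hR : R.Finite)
      (nx : Set (Q W × ℕ) → W → (ℕ → W)) (lb : Set (Q W × ℕ) → W → Set (Q W × ℕ))
      (h1 : ∀ H : Set (Q W × ℕ), H.Countable → ∀ γ : W, ∀ j < k, nx H γ j = v j)
      (h2 : ∀ H : Set (Q W × ℕ), H.Countable → ∀ γ : W, γ < nx H γ k)
      (h3 : ∀ H : Set (Q W × ℕ), H.Countable → ∀ γ : W, R ⊆ lb H γ)
      (h4 : ∀ H : Set (Q W × ℕ), H.Countable → ∀ γ : W, ∀ x ∈ lb H γ, x ∈ H → x ∈ R)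
      (h5 : ∀ H : Set (Q W × ℕ), H.Countable → ∀ γ : W, G a m F (nx H γ) (k + 1) (lb H γ)) :
      G a m F v k R

variable {a : W} {m : (ℕ → W) → ℕ} {F : (ℕ → W) → Finset (Q W)}

theorem G.mkNode {v : ℕ → W} {k : ℕ} {R : Set (Q W × ℕ)} (hR : R.Finite)
    (h : ∀ H : Set (Q W × ℕ), H.Countable → ∀ γ : W, ∃ (v' : ℕ → W) (R' : Set (Q W × ℕ)),
        (∀ j < k, v' j = v j) ∧ γ < v' k ∧ R ⊆ R' ∧ (∀ x ∈ R', x ∈ H → x ∈ R) ∧
        G a m F v' (k + 1) R') : G a m F v k R := by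
  classical
  have h' : ∀ (H : Set (Q W × ℕ)) (γ : W), ∃ (v' : ℕ → W) (R' : Set (Q W × ℕ)), H.Countable →
        (∀ j < k, v' j = v j) ∧ γ < v' k ∧ R ⊆ R' ∧ (∀ x ∈ R', x ∈ H → x ∈ R) ∧
        G a m F v' (k + 1) R' := by
    intro H γ
    by_cases hH : H.Countable
    · obtain ⟨v', R', h1⟩ := h H hH γ
      exact ⟨v', R', fun _ => h1⟩
    · exact ⟨v, R, fun h => absurd h hH⟩
  choose nx lb hh using h'
  exact G.node v k R hR nx lb (fun H hH γ => (hh H γ hH).1) (fun H hH γ => (hh H γ hH).2.1)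
    (fun H hH γ => (hh H γ hH).2.2.1) (fun H hH γ => (hh H γ hH).2.2.2.1)
    (fun H hH γ => (hh H γ hH).2.2.2.2)

theorem leaf_finite (v : ℕ → W) (u : ℕ → W) :
    {x : Q W × ℕ | x.1 ∈ F u ∧ x.2 = x.1.1 a v}.Finite := by
  refine ((F u).finite_toSet.image fun q => (q, q.1 a v)).subset ?_
  rintro ⟨q, l⟩ ⟨hq, hl⟩
  exact ⟨q, hq, by simp only at hl; rw [hl]⟩

theorem G.finite {v : ℕ → W} {k : ℕ} {R : Set (Q W × ℕ)} (h : G a m F v k R) : R.Finite := by
  cases h with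
  | leaf _ _ u h1 h2 h3 => exact leaf_finite v u
  | node _ _ _ hR => exact hR

theorem leaf_congr {v w u : ℕ → W} {k : ℕ} (h3 : ∀ q ∈ F u, q.1 a v ≤ k)
    (hw : ∀ j < k, w j = v j) :
    (∀ q ∈ F u, q.1 a w ≤ k) ∧ {x : Q W × ℕ | x.1 ∈ F u ∧ x.2 = x.1.1 a v} =
      {x : Q W × ℕ | x.1 ∈ F u ∧ x.2 = x.1.1 a w} := by
  have h4 : ∀ q ∈ F u, q.1 a w = q.1 a v := fun q hq =>
    q.2 a v w fun j hj => hw j (lt_of_lt_of_le hj (h3 q hq))
  refine ⟨fun q hq => by rw [h4 q hq]; exact h3 q hq, ?_⟩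
  ext x
  constructor
  · rintro ⟨hx, hx'⟩; exact ⟨hx, by rw [h4 _ hx]; exact hx'⟩
  · rintro ⟨hx, hx'⟩; exact ⟨hx, by rw [← h4 _ hx]; exact hx'⟩

theorem G.congr {v w : ℕ → W} {k : ℕ} {R : Set (Q W × ℕ)} (h : G a m F v k R)
    (hw : ∀ j < k, w j = v j) : G a m F w k R := by
  cases h with
  | leaf _ _ u h1 h2 h3 =>
    obtain ⟨h4, h5⟩ := leaf_congr h3 hw
    rw [h5]
    exact G.leaf w k u h1 (fun j hj => (hw j (lt_of_lt_of_le hj h1)).trans (h2 j hj)) h4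
  | node _ _ _ hR nx lb h1 h2 h3 h4 h5 =>
    exact G.node w k R hR nx lb (fun H hH γ j hj => (h1 H hH γ j hj).trans (hw j hj).symm)
      h2 h3 h4 h5

/-- The labels are functional. -/
theorem G.functional (hne : Nonempty W) {v : ℕ → W} {k : ℕ} {R : Set (Q W × ℕ)}
    (h : G a m F v k R) : ∀ q l l', (q, l) ∈ R → (q, l') ∈ R → l = l' := by
  induction h with
  | leaf v k u h1 h2 h3 =>
    rintro q l l' ⟨-, hl⟩ ⟨-, hl'⟩
    exact hl.trans hl'.symm
  | node v k R hR nx lb h1 h2 h3 h4 h5 ih =>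
    intro q l l' hl hl'
    obtain ⟨γ⟩ := hne
    exact ih ∅ countable_empty γ q l l' (h3 ∅ countable_empty γ hl) (h3 ∅ countable_empty γ hl')

/-- One more step is always possible. -/
theorem G.step {v : ℕ → W} {k : ℕ} {R : Set (Q W × ℕ)} (h : G a m F v k R)
    (hW : ∀ γ : W, ∃ α, γ < α) (H : Set (Q W × ℕ)) (hH : H.Countable) (γ : W) :
    ∃ (v' : ℕ → W) (R' : Set (Q W × ℕ)), (∀ j < k, v' j = v j) ∧ γ < v' k ∧ R ⊆ R' ∧
      (∀ x ∈ R', x ∈ H → x ∈ R) ∧ G a m F v' (k + 1) R' := by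
  classical
  cases h with
  | leaf _ _ u h1 h2 h3 =>
    obtain ⟨α, hα⟩ := hW γ
    have hw : ∀ j < k, Function.update v k α j = v j := fun j hj =>
      Function.update_of_ne (ne_of_lt hj) _ _
    obtain ⟨h4, h5⟩ := leaf_congr h3 hw
    refine ⟨Function.update v k α, _, hw, by simpa using hα, Subset.rfl, fun x hx _ => hx, ?_⟩
    rw [h5]
    exact G.leaf _ _ u (Nat.le_succ_of_le h1)
      (fun j hj => (hw j (lt_of_lt_of_le hj h1)).trans (h2 j hj))
      fun q hq => Nat.le_succ_of_le (h4 q hq)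
  | node _ _ _ hR nx lb h1 h2 h3 h4 h5 =>
    exact ⟨nx H γ, lb H γ, h1 H hH γ, h2 H hH γ, h3 H hH γ, h4 H hH γ, h5 H hH γ⟩

/-- There are trees of plays. -/
theorem exists_G (hWu : ¬ (univ : Set W).Countable) (hWc : ∀ γ : W, (Iic γ).Countable)
    (v₀ : ℕ → W) : ∃ R, G a m F v₀ 0 R := by
  classical
  by_contra hcon
  push Not at hcon
  have step : ∀ (v : ℕ → W) (k : ℕ), (∀ R, ¬ G a m F v k R) →
      ∃ α : W, ∀ R, ¬ G a m F (Function.update v k α) (k + 1) R := by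
    intro v k hv
    by_contra h
    push Not at h
    choose R hR using h
    have hfin : ∀ α, (R α).Finite := fun α => (hR α).finite
    obtain ⟨R₀, J₀, -, hJ₀, hsub, hH⟩ := root_lemma (univ : Set W) hWu
      (fun α => (hfin α).toFinset)
    refine hv (R₀ : Set (Q W × ℕ)) (G.mkNode R₀.finite_toSet fun H hHc γ => ?_)
    have h1 := (hH H hHc).union (hWc γ)
    have h2 : ∃ α ∈ J₀, α ∉ {i ∈ J₀ | ¬ ∀ x ∈ (hfin i).toFinset, x ∈ H → x ∈ R₀} ∪ Iic γ := by
      by_contra h3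
      refine hJ₀ (h1.mono fun α hα => ?_)
      by_contra h4
      exact h3 ⟨α, hα, h4⟩
    obtain ⟨α, hα, hα'⟩ := h2
    rw [mem_union, not_or] at hα'
    refine ⟨Function.update v k α, R α, fun j hj => Function.update_of_ne (ne_of_lt hj) _ _,
      ?_, ?_, ?_, hR α⟩
    · simpa using hα'.2
    · intro x hx
      exact (hfin α).mem_toFinset.1 (hsub α hα hx)
    · intro x hx hxH
      by_contra h4
      refine hα'.1 ⟨hα, fun h5 => h4 (h5 x ((hfin α).mem_toFinset.2 hx) hxH)⟩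
  -- build a branch
  let T := {p : (ℕ → W) × ℕ // ∀ R, ¬ G a m F p.1 p.2 R}
  have : Nonempty W := ⟨v₀ 0⟩
  choose! g hg using step
  let nxt : T → T := fun p => ⟨(Function.update p.1.1 p.1.2 (g p.1.1 p.1.2), p.1.2 + 1),
    hg p.1.1 p.1.2 p.2⟩
  let s : ℕ → T := fun n => Nat.rec ⟨(v₀, 0), hcon⟩ (fun _ p => nxt p) n
  have hs2 : ∀ n, (s n).1.2 = n := by
    intro n
    induction n with
    | zero => rfl
    | succ n ih =>
      show (s n).1.2 + 1 = n + 1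
      rw [ih]
  have hs1 : ∀ n j, j < n → (s (n + 1)).1.1 j = (s n).1.1 j := by
    intro n j hj
    show Function.update (s n).1.1 (s n).1.2 _ j = _
    rw [hs2]
    exact Function.update_of_ne (ne_of_lt hj) _ _
  have hs3 : ∀ n d j, j < n → (s (n + d)).1.1 j = (s n).1.1 j := by
    intro n d j hj
    induction d with
    | zero => rfl
    | succ d ih =>
      rw [← ih]
      exact hs1 (n + d) j (by omega)
  let v : ℕ → W := fun j => (s (j + 1)).1.1 j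
  have hv : ∀ n j, j < n → v j = (s n).1.1 j := by
    intro n j hj
    obtain ⟨d, rfl⟩ := Nat.exists_eq_add_of_lt hj
    have h1 := hs3 (j + 1) d j (Nat.lt_succ_self j)
    rw [show j + d + 1 = j + 1 + d by omega]
    exact h1.symm
  have hbad : ∀ n R, ¬ G a m F v n R := by
    intro n R hG
    have h1 : G a m F (s n).1.1 n R := hG.congr fun j hj => (hv n j hj).symm
    have h2 := (s n).2 R
    rw [hs2] at h2
    exact h2 h1
  let N : ℕ := max (m v) ((F v).sup fun q => q.1 a v)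
  exact hbad N _ (G.leaf v N v (le_max_left _ _) (fun _ _ => rfl)
    fun q hq => le_trans (Finset.le_sup (f := fun q : Q W => q.1 a v) hq) (le_max_right _ _))

end Pool.Agent.H960R3.Navy
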