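import Pool.Agent.H960R3.Navy1

/-!
# A Navy type space: two plays can be linked
-/

set_option autoImplicit false

open Set

namespace Pool.Agent.H960R3.Navy

variable {W : Type} [LinearOrder W]

/-- link condition up to level `k` -/
def Lnk (a e : W) (v w : ℕ → W) (k : ℕ) : Prop :=
  ∀ j < k, (a < v j ∧ e < v j ∧ a < w j ∧ e < w j) ∧
    ∀ i < j, v i < v j ∧ w i < v j ∧ v i < w j ∧ w i < w j

/-- compatible labels -/
def Compat (R R' : Set (Q W × ℕ)) : Prop := ∀ q l l', (q, l) ∈ R → (q, l') ∈ R' → l = l'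

theorem exists_bound (a e : W) (v w : ℕ → W) (k : ℕ) :
    ∃ γ, a ≤ γ ∧ e ≤ γ ∧ ∀ j < k, v j ≤ γ ∧ w j ≤ γ := by
  induction k with
  | zero => exact ⟨max a e, le_max_left _ _, le_max_right _ _, fun j hj => (Nat.not_lt_zero j hj).elim⟩
  | succ k ih =>
    obtain ⟨γ, h1, h2, h3⟩ := ih
    refine ⟨max γ (max (v k) (w k)), h1.trans (le_max_left _ _), h2.trans (le_max_left _ _), ?_⟩
    intro j hj
    rcases Nat.lt_succ_iff_lt_or_eq.1 hj with h | rfl
    · exact ⟨(h3 j h).1.trans (le_max_left _ _), (h3 j h).2.trans (le_max_left _ _)⟩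
    · exact ⟨(le_max_left _ _).trans (le_max_right _ _), (le_max_right _ _).trans (le_max_right _ _)⟩

theorem Lnk.succ {a e γ : W} {v w v' w' : ℕ → W} {k : ℕ} (h : Lnk a e v w k)
    (hγ : a ≤ γ ∧ e ≤ γ ∧ ∀ j < k, v j ≤ γ ∧ w j ≤ γ) (hv : ∀ j < k, v' j = v j)
    (hw : ∀ j < k, w' j = w j) (hv' : γ < v' k) (hw' : γ < w' k) : Lnk a e v' w' (k + 1) := by
  intro j hj
  rcases Nat.lt_succ_iff_lt_or_eq.1 hj with h1 | rfl
  · have h2 := h j h1
    rw [hv j h1, hw j h1]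
    refine ⟨h2.1, fun i hi => ?_⟩
    rw [hv i (hi.trans h1), hw i (hi.trans h1)]
    exact h2.2 i hi
  · refine ⟨⟨hγ.1.trans_lt hv', hγ.2.1.trans_lt hv', hγ.1.trans_lt hw', hγ.2.1.trans_lt hw'⟩,
      fun i hi => ?_⟩
    rw [hv i hi, hw i hi]
    have h3 := hγ.2.2 i hi
    exact ⟨h3.1.trans_lt hv', h3.2.trans_lt hv', h3.1.trans_lt hw', h3.2.trans_lt hw'⟩

/-- all labels with a first coordinate occurring in `R` -/
def Hull (R : Set (Q W × ℕ)) : Set (Q W × ℕ) := (Prod.fst '' R) ×ˢ univ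

omit [LinearOrder W] in
theorem Hull_countable {R : Set (Q W × ℕ)} (hR : R.Finite) : (Hull R).Countable :=
  (hR.image _).countable.prod countable_univ

omit [LinearOrder W] in
theorem mem_Hull {R : Set (Q W × ℕ)} {q : Q W} {l l' : ℕ} (h : (q, l) ∈ R) : (q, l') ∈ Hull R :=
  ⟨⟨(q, l), h, rfl⟩, mem_univ _⟩

variable {a e : W} {m m' : (ℕ → W) → ℕ} {F F' : (ℕ → W) → Finset (Q W)}

/-- The conclusion of the play. -/
def Concl (a e : W) (m m' : (ℕ → W) → ℕ) (F F' : (ℕ → W) → Finset (Q W)) : Prop :=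
  ∃ (v w : ℕ → W) (n : ℕ) (u u' : ℕ → W), m u ≤ n ∧ (∀ j < m u, v j = u j) ∧
    m' u' ≤ n ∧ (∀ j < m' u', w j = u' j) ∧ Lnk a e v w n ∧
    ∀ q ∈ F u, q ∈ F' u' → q.1 a v = q.1 e w

theorem play_leaf (hW : ∀ γ : W, ∃ α, γ < α) {u : ℕ → W} {w : ℕ → W} {k : ℕ}
    {R' : Set (Q W × ℕ)} (h' : G e m' F' w k R') :
    ∀ v : ℕ → W, m u ≤ k → (∀ j < m u, v j = u j) → (∀ q ∈ F u, q.1 a v ≤ k) →
      Compat {x | x.1 ∈ F u ∧ x.2 = x.1.1 a v} R' → Lnk a e v w k → Concl a e m m' F F' := by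
  classical
  induction h' with
  | leaf w k u' g1 g2 g3 =>
    intro v h1 h2 h3 hc hl
    exact ⟨v, w, k, u, u', h1, h2, g1, g2, hl, fun q hq hq' => hc q _ _ ⟨hq, rfl⟩ ⟨hq', rfl⟩⟩
  | node w k R' hR nx lb g1 g2 g3 g4 g5 ih =>
    intro v h1 h2 h3 hc hl
    obtain ⟨γ, hγ⟩ := exists_bound a e v w k
    obtain ⟨α, hα⟩ := hW γ
    have hw : ∀ j < k, Function.update v k α j = v j := fun j hj =>
      Function.update_of_ne (ne_of_lt hj) _ _
    obtain ⟨h4, h5⟩ := leaf_congr h3 hw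
    have hH : (Hull {x : Q W × ℕ | x.1 ∈ F u ∧ x.2 = x.1.1 a v}).Countable :=
      Hull_countable (leaf_finite v u)
    refine ih _ hH γ (Function.update v k α) (Nat.le_succ_of_le h1)
      (fun j hj => (hw j (lt_of_lt_of_le hj h1)).trans (h2 j hj))
      (fun q hq => Nat.le_succ_of_le (h4 q hq)) ?_
      (hl.succ hγ hw (g1 _ hH γ) (by simpa using hα) (g2 _ hH γ))
    rw [← h5]
    intro q l l' hq hq'
    exact hc q l l' hq (g4 _ hH γ _ hq' (mem_Hull hq))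

theorem play (hW : ∀ γ : W, ∃ α, γ < α) {v : ℕ → W} {k : ℕ} {R : Set (Q W × ℕ)}
    (h : G a m F v k R) : ∀ (w : ℕ → W) (R' : Set (Q W × ℕ)), G e m' F' w k R' →
      Compat R R' → Lnk a e v w k → Concl a e m m' F F' := by
  induction h with
  | leaf v k u h1 h2 h3 =>
    intro w R' h' hc hl
    exact play_leaf hW h' v h1 h2 h3 hc hl
  | node v k R hR nx lb h1 h2 h3 h4 h5 ih =>
    intro w R' h' hc hl
    obtain ⟨γ, hγ⟩ := exists_bound a e v w k
    have hH : (Hull R').Countable := Hull_countable h'.finite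
    have hfin := (h5 _ hH γ).finite
    obtain ⟨w', R₁, g1, g2, g3, g4, g5⟩ := h'.step hW (Hull (lb (Hull R') γ))
      (Hull_countable hfin) γ
    refine ih _ hH γ w' R₁ g5 ?_ (hl.succ hγ (h1 _ hH γ) g1 (h2 _ hH γ) g2)
    intro q l l' hq hq'
    have h6 := g4 _ hq' (mem_Hull hq)
    exact hc q l l' (h4 _ hH γ _ hq (mem_Hull h6)) h6

/-- Main combinatorial lemma: any uncountable family of neighbourhood data contains two different
indices that are linked. -/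
theorem exists_linked (hWu : ¬ (univ : Set W).Countable) (hWc : ∀ γ : W, (Iic γ).Countable)
    (D : Set W) (hD : ¬ D.Countable) (m : W → (ℕ → W) → ℕ)
    (F : W → (ℕ → W) → Finset (Q W)) :
    ∃ a ∈ D, ∃ e ∈ D, a ≠ e ∧ Concl a e (m a) (m e) (F a) (F e) := by
  classical
  have hW : ∀ γ : W, ∃ α, γ < α := by
    intro γ
    by_contra hcon
    push Not at hcon
    exact hWu ((hWc γ).mono fun α _ => hcon α)
  obtain ⟨v₀⟩ : Nonempty (ℕ → W) := by
    have : D.Nonempty := by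
      by_contra h
      rw [not_nonempty_iff_eq_empty] at h
      exact hD (h ▸ countable_empty)
    exact ⟨fun _ => this.some⟩
  have h1 : ∀ a, ∃ R, G a (m a) (F a) v₀ 0 R := fun a => exists_G hWu hWc v₀
  choose R hR using h1
  have hfin : ∀ a, (R a).Finite := fun a => (hR a).finite
  obtain ⟨R₀, J, hJD, hJ, hsub, hH⟩ := root_lemma D hD (fun a => (hfin a).toFinset)
  have hJne : J.Nonempty := by
    by_contra h
    rw [not_nonempty_iff_eq_empty] at h
    exact hJ (h ▸ countable_empty)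
  obtain ⟨a, ha⟩ := hJne
  have h2 := (hH (Hull (R a)) (Hull_countable (hfin a))).union (countable_singleton a)
  have h3 : ∃ e ∈ J, e ∉ {i ∈ J | ¬ ∀ x ∈ (hfin i).toFinset, x ∈ Hull (R a) → x ∈ R₀} ∪ {a} := by
    by_contra h3
    refine hJ (h2.mono fun α hα => ?_)
    by_contra h4
    exact h3 ⟨α, hα, h4⟩
  obtain ⟨e, he, he'⟩ := h3
  rw [mem_union, not_or] at he'
  refine ⟨a, hJD ha, e, hJD he, fun h => he'.2 h.symm, ?_⟩
  refine play hW (hR a) v₀ (R e) (hR e) ?_ (fun j hj => (Nat.not_lt_zero j hj).elim)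
  intro q l l' hq hq'
  have h5 : (q, l') ∈ R₀ := by
    by_contra h5
    exact he'.1 ⟨he, fun h6 => h5 (h6 _ ((hfin e).mem_toFinset.2 hq') (mem_Hull hq))⟩
  have h6 : (q, l') ∈ R a := (hfin a).mem_toFinset.1 (hsub a ha h5)
  exact (hR a).functional ⟨a⟩ q l l' hq h6

end Pool.Agent.H960R3.Navy
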