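import Pool.Agent.H960R3.Navy2

/-!
# A Navy type space: topology
-/

set_option autoImplicit false

open Set Topology

namespace Pool.Agent.H960R3.Navy

variable {W : Type} [LinearOrder W]

/-- Data of the isolated points. -/
structure Iso (W : Type) where
  c : Bool → W
  t : Bool → ℕ → W
  n : ℕ
  φ : Q W → ℕ

/-- the link condition of an isolated point -/
def Lk (i : Iso W) : Prop := i.c false ≠ i.c true ∧ Lnk (i.c false) (i.c true) (i.t false) (i.t true) i.n

/-- The points of the space `X`. -/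
inductive XX (W : Type) : Type
  | pt (a : W) (u : ℕ → W) : XX W
  | iso (i : Iso W) : XX W

/-- The points of the quotient space `Y`. -/
inductive YY (W : Type) : Type
  | pt (a : W) : YY W
  | iso (i : Iso W) : YY W

omit [LinearOrder W] in
theorem ipf {i : Iso W} {a : W} {C : Prop} (h : YY.iso i = YY.pt a) : C := by cases h

omit [LinearOrder W] in
theorem pif {i : Iso W} {a : W} {C : Prop} (h : YY.pt a = YY.iso i) : C := by cases h

omit [LinearOrder W] in
theorem pixf {i : Iso W} {a : W} {u : ℕ → W} {C : Prop} (h : XX.pt a u = XX.iso i) : C := by cases h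

omit [LinearOrder W] in
theorem ipxf {i : Iso W} {a : W} {u : ℕ → W} {C : Prop} (h : XX.iso i = XX.pt a u) : C := by cases h

/-- `i` is near the point `(a, u)`, up to `m` and `F`. -/
def Near (a : W) (u : ℕ → W) (m : ℕ) (F : Finset (Q W)) (i : Iso W) : Prop :=
  Lk i ∧ ∃ b, i.c b = a ∧ m ≤ i.n ∧ (∀ k < m, i.t b k = u k) ∧ ∀ q ∈ F, i.φ q = q.1 a (i.t b)

/-- basic neighbourhoods -/
def B (a : W) (u : ℕ → W) (m : ℕ) (F : Finset (Q W)) : Set (XX W)
  | .pt a' v => a' = a ∧ ∀ k < m, v k = u k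
  | .iso i => Near a u m F i

theorem pt_mem_B {a a' : W} {u v : ℕ → W} {m : ℕ} {F : Finset (Q W)} :
    XX.pt a' v ∈ B a u m F ↔ a' = a ∧ ∀ k < m, v k = u k := Iff.rfl

theorem iso_mem_B {a : W} {u : ℕ → W} {m : ℕ} {F : Finset (Q W)} {i : Iso W} :
    XX.iso i ∈ B a u m F ↔ Near a u m F i := Iff.rfl

theorem B_anti {a : W} {u : ℕ → W} {m m' : ℕ} {F F' : Finset (Q W)} (hm : m ≤ m') (hF : F ⊆ F') :
    B a u m' F' ⊆ B a u m F := by
  rintro (⟨a', v⟩ | i) h
  · exact ⟨h.1, fun k hk => h.2 k (lt_of_lt_of_le hk hm)⟩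
  · obtain ⟨h1, b, h2, h3, h4, h5⟩ := h
    exact ⟨h1, b, h2, hm.trans h3, fun k hk => h4 k (lt_of_lt_of_le hk hm),
      fun q hq => h5 q (hF hq)⟩

theorem B_congr {a : W} {u v : ℕ → W} {m : ℕ} {F : Finset (Q W)} (h : ∀ k < m, v k = u k) :
    B a v m F ⊆ B a u m F := by
  rintro (⟨a', w⟩ | i) hw
  · exact ⟨hw.1, fun k hk => (hw.2 k hk).trans (h k hk)⟩
  · obtain ⟨h1, b, h2, h3, h4, h5⟩ := hw
    exact ⟨h1, b, h2, h3, fun k hk => (h4 k hk).trans (h k hk), h5⟩

theorem mem_B (a : W) (u : ℕ → W) (m : ℕ) (F : Finset (Q W)) : XX.pt a u ∈ B a u m F :=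
  ⟨rfl, fun _ _ => rfl⟩

instance : TopologicalSpace (XX W) where
  IsOpen U := ∀ a u, XX.pt a u ∈ U → ∃ m F, B a u m F ⊆ U
  isOpen_univ := fun _ _ _ => ⟨0, ∅, subset_univ _⟩
  isOpen_inter := by
    classical
    intro U V hU hV a u h
    obtain ⟨m, F, h1⟩ := hU a u h.1
    obtain ⟨m', F', h2⟩ := hV a u h.2
    exact ⟨max m m', F ∪ F', subset_inter
      ((B_anti (le_max_left _ _) Finset.subset_union_left).trans h1)
      ((B_anti (le_max_right _ _) Finset.subset_union_right).trans h2)⟩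
  isOpen_sUnion := by
    rintro 𝒰 h𝒰 a u ⟨U, hU, h⟩
    obtain ⟨m, F, h1⟩ := h𝒰 U hU a u h
    exact ⟨m, F, h1.trans (subset_sUnion_of_mem hU)⟩

theorem isOpen_iff {U : Set (XX W)} :
    IsOpen U ↔ ∀ a u, XX.pt a u ∈ U → ∃ m F, B a u m F ⊆ U := Iff.rfl

theorem isOpen_B (a : W) (u : ℕ → W) (m : ℕ) (F : Finset (Q W)) : IsOpen (B a u m F) := by
  rw [isOpen_iff]
  rintro a' v ⟨rfl, hv⟩
  exact ⟨m, F, B_congr hv⟩

theorem isOpen_iso (s : Set (XX W)) (hs : ∀ a u, XX.pt a u ∉ s) : IsOpen s := by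
  rw [isOpen_iff]
  intro a u h
  exact absurd h (hs a u)

/-- separates the index `a` from all others -/
def qs [DecidableEq W] (a : W) : Q W := ⟨fun e _ => if e = a then 0 else 1, fun _ _ _ _ => rfl⟩

theorem side_unique {i : Iso W} (h : Lk i) {b b' : Bool} (hb : i.c b = i.c b') : b = b' := by
  have h1 := h.1
  cases b <;> cases b' <;> simp_all

/-- clopen part of `a` -/
def P [DecidableEq W] (a : W) : Set (XX W)
  | .pt a' _ => a' = a
  | .iso i => Lk i ∧ ∃ b, i.c b = a ∧ i.φ (qs a) = 0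

theorem isOpen_P [DecidableEq W] (a : W) : IsOpen (P a : Set (XX W)) := by
  rw [isOpen_iff]
  rintro a' u (rfl : a' = a)
  refine ⟨0, {qs a'}, ?_⟩
  rintro (⟨a'', w⟩ | i) hw
  · exact hw.1
  · obtain ⟨h1, b, h2, h3, h4, h5⟩ := hw
    refine ⟨h1, b, h2, ?_⟩
    rw [h5 (qs a') (Finset.mem_singleton_self _)]
    simp [qs]

theorem P_disj [DecidableEq W] {a a' : W} (h : a' ≠ a) (u : ℕ → W) :
    Disjoint (B a' u 0 {qs a}) (P a : Set (XX W)) := by
  rw [disjoint_left]
  rintro (⟨a'', w⟩ | i) hw hP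
  · exact h (hw.1.symm.trans hP)
  · obtain ⟨h1, b, h2, h3, h4, h5⟩ := hw
    obtain ⟨-, b', h2', h3'⟩ := hP
    rw [h5 (qs a) (Finset.mem_singleton_self _)] at h3'
    simp [qs, h] at h3'

theorem isClosed_P [DecidableEq W] (a : W) : IsClosed (P a : Set (XX W)) := by
  rw [← isOpen_compl_iff, isOpen_iff]
  intro a' u h
  refine ⟨0, {qs a}, fun z hz hzP => disjoint_left.1 (P_disj (a := a) (a' := a') ?_ u) hz hzP⟩
  intro h'
  exact h h'

/-- A subset of `P a` which is open and whose points `pt` are determined by finitely many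
coordinates is closed. -/
theorem isClosed_of [DecidableEq W] {a : W} {s : Set (XX W)} (hs : s ⊆ P a)
    (h : ∀ u, XX.pt a u ∉ s → ∃ m F, Disjoint (B a u m F) s) : IsClosed s := by
  rw [← isOpen_compl_iff, isOpen_iff]
  intro a' u hu
  by_cases ha : a' = a
  · subst ha
    obtain ⟨m, F, h1⟩ := h u hu
    exact ⟨m, F, fun z hz hzs => disjoint_left.1 h1 hz hzs⟩
  · exact ⟨0, {qs a}, fun z hz hzs => disjoint_left.1 (P_disj ha u) hz (hs hzs)⟩

theorem B_disj {a : W} {u v : ℕ → W} {m k : ℕ} {F F' : Finset (Q W)} (hk : k < m)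
    (h : v k ≠ u k) : Disjoint (B a v m F) (B a u m F') := by
  rw [disjoint_left]
  rintro (⟨a', w⟩ | i) h1 h2
  · exact h ((h1.2 k hk).symm.trans (h2.2 k hk))
  · obtain ⟨hl, b, g2, g3, g4, g5⟩ := h1
    obtain ⟨-, b', g2', g3', g4', g5'⟩ := h2
    have : b = b' := side_unique hl (g2.trans g2'.symm)
    subst this
    exact h ((g4 k hk).symm.trans (g4' k hk))

theorem B_subset_P [DecidableEq W] {a : W} {u : ℕ → W} {m : ℕ} {F : Finset (Q W)}
    (hF : qs a ∈ F) : B a u m F ⊆ P a := by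
  rintro (⟨a', w⟩ | i) h1
  · exact h1.1
  · obtain ⟨hl, b, g2, g3, g4, g5⟩ := h1
    refine ⟨hl, b, g2, ?_⟩
    rw [g5 _ hF]
    simp [qs]

theorem isClosed_B [DecidableEq W] {a : W} {u : ℕ → W} {m : ℕ} {F : Finset (Q W)}
    (hF : qs a ∈ F) : IsClosed (B a u m F) := by
  refine isClosed_of (B_subset_P hF) fun v hv => ?_
  have : ∃ k < m, v k ≠ u k := by
    by_contra hcon
    push Not at hcon
    exact hv ⟨rfl, hcon⟩
  obtain ⟨k, hk, h⟩ := this
  exact ⟨m, ∅, B_disj hk h⟩

theorem iso_closed (i : Iso W) : IsClosed ({XX.iso i} : Set (XX W)) := by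
  rw [← isOpen_compl_iff, isOpen_iff]
  intro a u _
  refine ⟨i.n + 1, ∅, ?_⟩
  rintro z hz rfl
  obtain ⟨-, b, -, h3, -⟩ := hz
  omega

instance : T1Space (XX W) := by
  classical
  refine ⟨fun z => ?_⟩
  rcases z with ⟨a, u⟩ | i
  · refine isClosed_of (a := a) ?_ fun v hv => ?_
    · rintro z rfl
      exact rfl
    · have : v ≠ u := fun h => hv (by rw [h]; rfl)
      obtain ⟨k, hk⟩ := Function.ne_iff.1 this
      refine ⟨k + 1, ∅, ?_⟩
      rw [disjoint_left]
      rintro z hz rfl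
      exact hk (hz.2 k (Nat.lt_succ_self k)).symm
  · exact iso_closed i

instance : T3Space (XX W) := by
  classical
  have : RegularSpace (XX W) := by
    refine RegularSpace.of_exists_mem_nhds_isClosed_subset fun z s hs => ?_
    rcases z with ⟨a, u⟩ | i
    · obtain ⟨U, hUs, hU, hz⟩ := mem_nhds_iff.1 hs
      obtain ⟨m, F, hF⟩ := hU a u hz
      refine ⟨B a u m (insert (qs a) F), (isOpen_B _ _ _ _).mem_nhds (mem_B _ _ _ _),
        isClosed_B (Finset.mem_insert_self _ _), ?_⟩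
      exact ((B_anti le_rfl (Finset.subset_insert _ _)).trans hF).trans hUs
    · refine ⟨{XX.iso i}, (isOpen_iso _ (by rintro a u ⟨⟩)).mem_nhds rfl, iso_closed i, ?_⟩
      rintro z rfl
      exact mem_of_mem_nhds hs
  exact {}

/-! ### The quotient map -/

/-- the map that collapses the sets `{a} × (ℕ → W)` -/
def ff : XX W → YY W
  | .pt a _ => .pt a
  | .iso i => .iso i

instance : TopologicalSpace (YY W) := TopologicalSpace.coinduced ff inferInstance

theorem ff_cont : Continuous (ff : XX W → YY W) := continuous_coinduced_rng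

theorem isOpenY {V : Set (YY W)} : IsOpen V ↔ IsOpen (ff ⁻¹' V) := isOpen_coinduced

theorem isClosedY {V : Set (YY W)} : IsClosed V ↔ IsClosed (ff ⁻¹' V) := by
  rw [← isOpen_compl_iff, isOpenY, preimage_compl, isOpen_compl_iff]

omit [LinearOrder W] in
theorem ff_surj [Nonempty W] : Function.Surjective (ff : XX W → YY W) := by
  obtain ⟨w⟩ := ‹Nonempty W›
  rintro (a | i)
  · exact ⟨.pt a fun _ => w, rfl⟩
  · exact ⟨.iso i, rfl⟩

theorem ff_closed : IsClosedMap (ff : XX W → YY W) := by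
  intro C hC
  rw [isClosedY, ← isOpen_compl_iff, isOpen_iff]
  intro a u h
  have h1 : XX.pt a u ∉ C := fun h' => h ⟨_, h', rfl⟩
  obtain ⟨m, F, hF⟩ := hC.isOpen_compl a u h1
  refine ⟨m, F, ?_⟩
  rintro (⟨a', v⟩ | i) hz ⟨w, hw, hwz⟩
  · obtain ⟨rfl, -⟩ := hz
    exact h ⟨w, hw, hwz⟩
  · rcases w with ⟨a'', v'⟩ | i'
    · exact pif hwz
    · have h2 : i' = i := YY.iso.inj hwz
      rw [h2] at hw
      exact hF hz hw

instance : T1Space (YY W) := by
  classical
  refine ⟨fun z => ?_⟩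
  rw [isClosedY]
  rcases z with a | i
  · refine isClosed_of (a := a) ?_ fun v hv => ?_
    · rintro (⟨a', v⟩ | i) hz
      · exact YY.pt.inj hz
      · exact ipf (show YY.iso i = YY.pt a from hz)
    · exact absurd rfl hv
  · have : (ff ⁻¹' {YY.iso i} : Set (XX W)) = {XX.iso i} := by
      ext z
      rcases z with ⟨a', v⟩ | i'
      · constructor
        · intro h; exact pif (show YY.pt a' = YY.iso i from h)
        · intro h; exact pixf (show XX.pt a' v = XX.iso i from h)
      · constructor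
        · intro h; exact congrArg XX.iso (YY.iso.inj h)
        · intro h; exact congrArg YY.iso (XX.iso.inj h)
    rw [this]
    exact iso_closed i

instance : T3Space (YY W) := by
  classical
  have : RegularSpace (YY W) := by
    refine RegularSpace.of_exists_mem_nhds_isClosed_subset fun z s hs => ?_
    obtain ⟨U, hUs, hU, hz⟩ := mem_nhds_iff.1 hs
    rcases z with a | i
    · -- the clopen neighbourhood `U ∩ P a`
      let V : Set (YY W) := {y | y ∈ U ∧ ((∃ i, y = YY.iso i ∧ XX.iso i ∈ P a) ∨ y = YY.pt a)}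
      have hV : ff ⁻¹' V = ff ⁻¹' U ∩ P a := by
        ext z
        rcases z with ⟨a', v⟩ | i'
        · constructor
          · rintro ⟨h1, ⟨i, h2, -⟩ | h2⟩
            · exact pif (show YY.pt a' = YY.iso i from h2)
            · exact ⟨h1, YY.pt.inj h2⟩
          · rintro ⟨h1, h2⟩
            exact ⟨h1, Or.inr (congrArg YY.pt h2)⟩
        · constructor
          · rintro ⟨h1, ⟨i, h2, h3⟩ | h2⟩
            · have h4 : i' = i := YY.iso.inj h2
              exact ⟨h1, by rw [h4]; exact h3⟩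
            · exact ipf (show YY.iso i' = YY.pt a from h2)
          · rintro ⟨h1, h2⟩
            exact ⟨h1, Or.inl ⟨i', rfl, h2⟩⟩
      refine ⟨V, ?_, ?_, fun y hy => hUs hy.1⟩
      · refine IsOpen.mem_nhds ?_ ⟨hz, Or.inr rfl⟩
        rw [isOpenY, hV]
        exact (isOpenY.1 hU).inter (isOpen_P a)
      · rw [isClosedY, hV]
        refine isClosed_of inter_subset_right fun v hv => ?_
        exact absurd ⟨hz, rfl⟩ hv
    · refine ⟨{YY.iso i}, ?_, ?_, ?_⟩
      · refine IsOpen.mem_nhds ?_ rfl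
        rw [isOpenY]
        refine isOpen_iso _ ?_
        intro a u h
        exact pif (show YY.pt a = YY.iso i from h)
      · exact isClosed_singleton
      · rintro z rfl
        exact mem_of_mem_nhds hs
  exact {}

end Pool.Agent.H960R3.Navy
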