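import Pool.Agent.H960R3.Navy3

/-!
# A Navy type space: `XX W` is paralindelöf, its closed image `YY W` is not
-/

set_option autoImplicit false

open Set Topology

namespace Pool.Agent.H960R3.Navy

variable {W : Type} [LinearOrder W]

omit [LinearOrder W] in
/-- truncation -/
def T (w₀ : W) (u : ℕ → W) (l : ℕ) : ℕ → W := fun k => if k < l then u k else w₀

omit [LinearOrder W] in
theorem T_lt {w₀ : W} {u : ℕ → W} {l k : ℕ} (h : k < l) : T w₀ u l k = u k := if_pos h

omit [LinearOrder W] in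
theorem T_congr {w₀ : W} {u v : ℕ → W} {l : ℕ} (h : ∀ k < l, u k = v k) :
    T w₀ u l = T w₀ v l := by
  funext k
  by_cases hk : k < l
  · rw [T_lt hk, T_lt hk, h k hk]
  · simp [T, hk]

theorem T_countable (w₀ : W) (hWc : ∀ γ : W, (Iic γ).Countable) (γ : W) (l : ℕ) :
    {z : ℕ → W | ∃ v : ℕ → W, (∀ k < l, v k ≤ γ) ∧ z = T w₀ v l}.Countable := by
  have : Countable (Iic γ) := (hWc γ).to_subtype
  refine (countable_range (fun f : Fin l → Iic γ => fun k : ℕ =>
    if h : k < l then (f ⟨k, h⟩ : W) else w₀)).mono ?_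
  rintro z ⟨v, hv, rfl⟩
  refine ⟨fun k => ⟨v k, hv k k.2⟩, ?_⟩
  funext k
  by_cases hk : k < l <;> simp [T, hk]

section
variable (m : W → (ℕ → W) → ℕ)

omit [LinearOrder W] in
theorem ex_len (a : W) (u : ℕ → W) : ∃ l, ∃ u' : ℕ → W, (∀ k < l, u' k = u k) ∧ m a u' ≤ l :=
  ⟨m a u, u, fun _ _ => rfl, le_rfl⟩

omit [LinearOrder W] in
open Classical in
/-- the length function determined by `m` -/
noncomputable def len (a : W) (u : ℕ → W) : ℕ := Nat.find (ex_len m a u)

omit [LinearOrder W] in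
theorem len_spec (a : W) (u : ℕ → W) :
    ∃ u' : ℕ → W, (∀ k < len m a u, u' k = u k) ∧ m a u' ≤ len m a u := by
  classical
  exact Nat.find_spec (ex_len m a u)

omit [LinearOrder W] in
theorem len_le {a : W} {u : ℕ → W} {l : ℕ} (u' : ℕ → W) (h : ∀ k < l, u' k = u k)
    (h' : m a u' ≤ l) : len m a u ≤ l := by
  classical
  exact Nat.find_min' _ ⟨u', h, h'⟩

omit [LinearOrder W] in
theorem len_congr (a : W) (u v : ℕ → W) (h : ∀ k < len m a u, v k = u k) :
    len m a v = len m a u := by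
  obtain ⟨u', h1, h2⟩ := len_spec m a u
  have h3 : len m a v ≤ len m a u :=
    len_le m u' (fun k hk => (h1 k hk).trans (h k hk).symm) h2
  refine le_antisymm h3 ?_
  obtain ⟨v', h4, h5⟩ := len_spec m a v
  exact len_le m v' (fun k hk => (h4 k hk).trans (h k (lt_of_lt_of_le hk h3))) h5

omit [LinearOrder W] in
/-- the length function, as an element of `Q` -/
noncomputable def qq : Q W := ⟨len m, len_congr m⟩

omit [LinearOrder W] in
/-- a witness for the length -/
noncomputable def wit (a : W) (u : ℕ → W) : ℕ → W := (len_spec m a u).choose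

omit [LinearOrder W] in
theorem wit_eq (a : W) (u : ℕ → W) : ∀ k < len m a u, wit m a u k = u k :=
  (len_spec m a u).choose_spec.1

omit [LinearOrder W] in
theorem wit_le (a : W) (u : ℕ → W) : m a (wit m a u) ≤ len m a u :=
  (len_spec m a u).choose_spec.2

end

/-- the members of the refinement -/
noncomputable def VV (m : W → (ℕ → W) → ℕ) (F : W → (ℕ → W) → Finset (Q W)) (a : W)
    (z : ℕ → W) : Set (XX W) := by
  classical
  exact B a z (len m a z) (insert (qq m) (F a (wit m a z)))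

section
variable {m : W → (ℕ → W) → ℕ} {F : W → (ℕ → W) → Finset (Q W)}

theorem VV_open (a : W) (z : ℕ → W) : IsOpen (VV m F a z) := isOpen_B _ _ _ _

theorem VV_sub (a : W) (z : ℕ → W) :
    VV m F a z ⊆ B a (wit m a z) (m a (wit m a z)) (F a (wit m a z)) := by
  classical
  refine (B_anti (wit_le m a z) (Finset.subset_insert _ _)).trans ?_
  exact B_congr fun k hk => (wit_eq m a z k (lt_of_lt_of_le hk (wit_le m a z))).symm

/-- a point `pt` in `VV` determines its index -/
theorem VV_pt {a' a : W} {z w : ℕ → W} (w₀ : W) (hz : z = T w₀ z (len m a' z))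
    (h : XX.pt a w ∈ VV m F a' z) : a' = a ∧ z = T w₀ w (len m a w) := by
  obtain ⟨h1, h2⟩ := h
  subst h1
  refine ⟨rfl, ?_⟩
  rw [len_congr m a z w h2]
  exact hz.trans (T_congr fun k hk => (h2 k hk).symm)

/-- an isolated point in `VV` determines its index -/
theorem VV_iso {a' : W} {z : ℕ → W} {i : Iso W} (w₀ : W) (hz : z = T w₀ z (len m a' z))
    (h : XX.iso i ∈ VV m F a' z) : Lk i ∧ i.φ (qq m) = len m a' z ∧ len m a' z ≤ i.n ∧
      ∃ b, a' = i.c b ∧ z = T w₀ (i.t b) (i.φ (qq m)) := by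
  classical
  obtain ⟨hl, b, g2, g3, g4, g5⟩ := h
  have h6 : i.φ (qq m) = len m a' z := by
    rw [g5 _ (Finset.mem_insert_self _ _)]
    exact len_congr m a' z (i.t b) g4
  refine ⟨hl, h6, g3, b, g2.symm, ?_⟩
  rw [h6]
  exact hz.trans (T_congr fun k hk => (g4 k hk).symm)

end

theorem paralindelof_XX (hWc : ∀ γ : W, (Iic γ).Countable) (w₀ : W) (𝒰 : Set (Set (XX W)))
    (hU : ∀ U ∈ 𝒰, IsOpen U) (hc : ⋃₀ 𝒰 = univ) :
    ∃ 𝒱 : Set (Set (XX W)), (∀ V ∈ 𝒱, IsOpen V) ∧ ⋃₀ 𝒱 = univ ∧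
      (∀ V ∈ 𝒱, ∃ U ∈ 𝒰, V ⊆ U) ∧
      ∀ x : XX W, ∃ N ∈ 𝓝 x, {V ∈ 𝒱 | (V ∩ N).Nonempty}.Countable := by
  classical
  have h1 : ∀ a u, ∃ (m : ℕ) (F : Finset (Q W)), ∃ U ∈ 𝒰, B a u m F ⊆ U := by
    intro a u
    have h2 : XX.pt a u ∈ ⋃₀ 𝒰 := by rw [hc]; trivial
    obtain ⟨U, hU', hx⟩ := h2
    obtain ⟨m, F, h3⟩ := hU U hU' a u hx
    exact ⟨m, F, U, hU', h3⟩
  choose m F hmF using h1
  -- the pt-part of the refinement
  let 𝒱₁ : Set (Set (XX W)) := {V | ∃ a z, z = T w₀ z (len m a z) ∧ V = VV m F a z}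
  have hpt : ∀ a u, VV m F a (T w₀ u (len m a u)) ∈ 𝒱₁ ∧
      XX.pt a u ∈ VV m F a (T w₀ u (len m a u)) := by
    intro a u
    have h2 : len m a (T w₀ u (len m a u)) = len m a u :=
      len_congr m a u _ fun k hk => T_lt hk
    refine ⟨⟨a, _, ?_, rfl⟩, rfl, ?_⟩
    · rw [h2]
      exact (T_congr fun k hk => T_lt hk).symm
    · intro k hk
      rw [h2] at hk
      exact (T_lt hk).symm
  let 𝒱₂ : Set (Set (XX W)) := {V | ∃ i, XX.iso i ∉ ⋃₀ 𝒱₁ ∧ V = {XX.iso i}}
  refine ⟨𝒱₁ ∪ 𝒱₂, ?_, ?_, ?_, ?_⟩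
  · rintro V (⟨a, z, -, rfl⟩ | ⟨i, -, rfl⟩)
    · exact VV_open a z
    · exact isOpen_iso _ (by rintro a u ⟨⟩)
  · rw [eq_univ_iff_forall]
    rintro (⟨a, u⟩ | i)
    · exact ⟨_, Or.inl (hpt a u).1, (hpt a u).2⟩
    · by_cases hi : XX.iso i ∈ ⋃₀ 𝒱₁
      · obtain ⟨V, hV, h2⟩ := hi
        exact ⟨V, Or.inl hV, h2⟩
      · exact ⟨{XX.iso i}, Or.inr ⟨i, hi, rfl⟩, rfl⟩
  · rintro V (⟨a, z, -, rfl⟩ | ⟨i, -, rfl⟩)
    · obtain ⟨U, hU', h2⟩ := hmF a (wit m a z)
      exact ⟨U, hU', (VV_sub a z).trans h2⟩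
    · have h2 : XX.iso i ∈ ⋃₀ 𝒰 := by rw [hc]; trivial
      obtain ⟨U, hU', hx⟩ := h2
      exact ⟨U, hU', by rintro z rfl; exact hx⟩
  · rintro (⟨a, u⟩ | i)
    · -- local countability at a point `pt`
      set l := len m a u with hl
      refine ⟨VV m F a (T w₀ u l) ∩ B a u (l + 1) {qq m}, ?_, ?_⟩
      · exact ((VV_open _ _).inter (isOpen_B _ _ _ _)).mem_nhds ⟨(hpt a u).2, mem_B _ _ _ _⟩
      · have hcount : ((fun p : W × (ℕ → W) => VV m F p.1 p.2) ''
            (Iic (u l) ×ˢ {z : ℕ → W | ∃ v : ℕ → W, (∀ k < l, v k ≤ u l) ∧ z = T w₀ v l})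
              ∪ {VV m F a (T w₀ u l)}).Countable :=
          (((hWc _).prod (T_countable w₀ hWc (u l) l)).image _).union (countable_singleton _)
        refine hcount.mono ?_
        rintro V ⟨⟨a', z, hz, rfl⟩ | ⟨i, hi, rfl⟩, x, hxV, hx1, hx2⟩
        · rcases x with ⟨a'', w⟩ | i
          · right
            obtain ⟨h2, h3⟩ := VV_pt w₀ hz hxV
            obtain ⟨h4, h5⟩ := hx2
            have h6 : len m a'' w = l := by
              rw [h4]
              exact len_congr m a u w fun k hk => h5 k (by omega)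
            rw [h6] at h3
            have h7 : z = T w₀ u l := h3.trans (T_congr fun k hk => h5 k (by omega))
            rw [h7, h2, h4]
            rfl
          · obtain ⟨h2, h3, h4, b', h5, h6⟩ := VV_iso w₀ hz hxV
            obtain ⟨-, b, g2, g3, g4, g5⟩ := hx2
            have h7 : i.φ (qq m) = l := by
              rw [g5 _ (Finset.mem_singleton_self _)]
              exact len_congr m a u (i.t b) fun k hk => g4 k (by omega)
            rw [h7] at h3 h6
            by_cases hbb : b' = b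
            · right
              subst hbb
              have h8 : a' = a := h5.trans g2
              subst h8
              have h9 : z = T w₀ u l := h6.trans (T_congr fun k hk => g4 k (by omega))
              rw [h9]
              rfl
            · left
              have h8 := h2.2 l (by omega)
              have h9 : i.t b l = u l := g4 l (by omega)
              refine ⟨(a', z), ⟨?_, i.t b', ?_, h6⟩, rfl⟩
              · show a' ≤ u l
                rw [h5, ← h9]
                cases b <;> cases b'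
                · exact absurd rfl hbb
                · exact h8.1.2.1.le
                · exact h8.1.2.2.1.le
                · exact absurd rfl hbb
              · intro k hk
                have h10 := h8.2 k hk
                rw [← h9]
                cases b <;> cases b'
                · exact absurd rfl hbb
                · exact h10.2.1.le
                · exact h10.2.2.1.le
                · exact absurd rfl hbb
        · exfalso
          have h2 : x = XX.iso i := hxV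
          subst h2
          exact hi ⟨_, (hpt a u).1, hx1⟩
    · refine ⟨{XX.iso i}, (isOpen_iso _ (by rintro a u ⟨⟩)).mem_nhds rfl, ?_⟩
      have hcount : (range (fun b : Bool => VV m F (i.c b) (T w₀ (i.t b) (i.φ (qq m))))
        ∪ {{XX.iso i}}).Countable := (countable_range _).union (countable_singleton _)
      refine hcount.mono ?_
      rintro V ⟨⟨a', z, hz, rfl⟩ | ⟨i', hi', rfl⟩, x, hxV, hx⟩
      · left
        have h2 : x = XX.iso i := hx
        subst h2
        obtain ⟨h2, h3, h4, b', h5, h6⟩ := VV_iso w₀ hz hxV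
        exact ⟨b', by
          show VV m F (i.c b') _ = _
          rw [← h5, ← h6]⟩
      · right
        have h2 : x = XX.iso i := hx
        subst h2
        have h3 : XX.iso i = XX.iso i' := hxV
        show ({XX.iso i'} : Set (XX W)) = {XX.iso i}
        rw [h3]

/-- `YY W` is not paralindelöf. -/
theorem not_paralindelof_YY (hWu : ¬ (univ : Set W).Countable)
    (hWc : ∀ γ : W, (Iic γ).Countable) :
    ¬ ∀ 𝒰 : Set (Set (YY W)), (∀ U ∈ 𝒰, IsOpen U) → ⋃₀ 𝒰 = univ →
    ∃ 𝒱 : Set (Set (YY W)), (∀ V ∈ 𝒱, IsOpen V) ∧ ⋃₀ 𝒱 = univ ∧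
      (∀ V ∈ 𝒱, ∃ U ∈ 𝒰, V ⊆ U) ∧
      ∀ x : YY W, ∃ N ∈ 𝓝 x, {V ∈ 𝒱 | (V ∩ N).Nonempty}.Countable := by
  classical
  intro hY
  have hWne : Nonempty W := by
    by_contra h
    rw [not_nonempty_iff] at h
    exact hWu (to_countable _)
  let O : W → Set (YY W) := fun a => {y | ∀ e, y = YY.pt e → e = a}
  obtain ⟨𝒱, hVo, hVc, hVr, hVl⟩ := hY (range O) (by
      rintro _ ⟨a, rfl⟩
      rw [isOpenY, isOpen_iff]
      intro a' u hu
      have h1 : a' = a := hu a' rfl
      subst h1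
      refine ⟨0, ∅, ?_⟩
      rintro (⟨a'', v⟩ | i) hz e he
      · have h2 : a'' = e := YY.pt.inj he
        rw [← h2]
        exact hz.1
      · exact ipf (show YY.iso i = YY.pt e from he)) (by
      rw [eq_univ_iff_forall]
      rintro (a | i)
      · exact ⟨O a, ⟨a, rfl⟩, fun e he => (YY.pt.inj he).symm⟩
      · obtain ⟨a⟩ := hWne
        exact ⟨O a, ⟨a, rfl⟩, fun e he => ipf he⟩)
  have h1 : ∀ a, ∃ V ∈ 𝒱, YY.pt a ∈ V := by
    intro a
    have : YY.pt a ∈ ⋃₀ 𝒱 := by rw [hVc]; trivial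
    exact this
  choose V hV hVa using h1
  have hVsub : ∀ a e, YY.pt e ∈ V a → e = a := by
    intro a e he
    obtain ⟨_, ⟨a', rfl⟩, h2⟩ := hVr (V a) (hV a)
    exact (h2 he e rfl).trans (h2 (hVa a) a rfl).symm
  choose N hN hNc using fun a => hVl (YY.pt a)
  let Gs : W → Set (YY W) := fun a => V a ∩ interior (N a)
  have hGo : ∀ a, IsOpen (Gs a) := fun a => (hVo _ (hV a)).inter isOpen_interior
  have hGa : ∀ a, YY.pt a ∈ Gs a := fun a => ⟨hVa a, mem_interior_iff_mem_nhds.2 (hN a)⟩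
  have hGc : ∀ a, {e | ¬ Disjoint (Gs a) (Gs e)}.Countable := by
    intro a
    refine Set.MapsTo.countable_of_injOn (f := V) (t := {V ∈ 𝒱 | (V ∩ N a).Nonempty}) ?_ ?_ (hNc a)
    · intro e he
      refine ⟨hV e, ?_⟩
      obtain ⟨x, hx, hx'⟩ := not_disjoint_iff.1 he
      exact ⟨x, hx'.1, interior_subset hx.2⟩
    · intro e _ e' _ h
      have : YY.pt e ∈ V e' := h ▸ hVa e
      exact hVsub _ _ this
  obtain ⟨D, hD⟩ := zorn_subset {D : Set W | ∀ a ∈ D, ∀ e ∈ D, a ≠ e → Disjoint (Gs a) (Gs e)} (by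
    intro c hc hch
    refine ⟨⋃₀ c, ?_, fun s hs => subset_sUnion_of_mem hs⟩
    rintro a ⟨s, hs, ha⟩ e ⟨s', hs', he⟩ hae
    rcases hch.total hs hs' with h | h
    · exact hc hs' a (h ha) e he hae
    · exact hc hs a ha e (h he) hae)
  have hDu : ¬ D.Countable := by
    intro hDc
    refine hWu ((hDc.union (hDc.biUnion fun a _ => hGc a)).mono ?_)
    intro e _
    by_contra hcon
    rw [mem_union, not_or] at hcon
    have h2 : ∀ a ∈ D, Disjoint (Gs a) (Gs e) := by
      intro a ha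
      by_contra h3
      exact hcon.2 (mem_iUnion₂.2 ⟨a, ha, h3⟩)
    have h3 : insert e D ⊆ D := hD.2 (by
      rintro a (rfl | ha) b (rfl | hb) hab
      · exact absurd rfl hab
      · exact (h2 b hb).symm
      · exact h2 a ha
      · exact hD.1 a ha b hb hab) (subset_insert e D)
    exact hcon.1 (h3 (mem_insert e D))
  have h4 : ∀ a u, ∃ (m : ℕ) (F : Finset (Q W)), B a u m F ⊆ ff ⁻¹' (Gs a) := fun a u =>
    (isOpenY.1 (hGo a)) a u (hGa a)
  choose m F hmF using h4
  obtain ⟨a, ha, e, he, hae, v, w, n, u, u', g1, g2, g3, g4, g5, g6⟩ :=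
    exists_linked hWu hWc D hDu m F
  let i : Iso W := ⟨fun b => cond b e a, fun b => cond b w v, n,
    fun q => if q ∈ F a u then q.1 a v else q.1 e w⟩
  have hi : Lk i := ⟨hae, g5⟩
  have hia : XX.iso i ∈ B a u (m a u) (F a u) := by
    refine ⟨hi, false, rfl, g1, g2, ?_⟩
    intro q hq
    exact if_pos hq
  have hie : XX.iso i ∈ B e u' (m e u') (F e u') := by
    refine ⟨hi, true, rfl, g3, g4, ?_⟩
    intro q hq
    by_cases hq' : q ∈ F a u
    · exact (if_pos hq').trans (g6 q hq' hq)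
    · exact if_neg hq'
  exact disjoint_left.1 (hD.1 a ha e he hae) (hmF a u hia) (hmF e u' hie)

end Pool.Agent.H960R3.Navy
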