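import Mathlib

/-!
# Rectifiable p-spaces are D-spaces

Let `X` be a rectifiable space with operations `p`, `q` and let `K` be a compact set containing `e`
with a countable outer base. The relation `p(x,K) = p(y,K)` is a perfect equivalence relation with
metrizable quotient; here this is used directly, through the symmetric neighbourhoods `Dn n` of the
diagonal, to prove the D-property.
-/

set_option autoImplicit false

open Set Topology Filter

namespace Pool.Agent.H960R3.Rect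

variable {X : Type} [TopologicalSpace X]

/-- The data: continuous operations `p`, `q` and a compact set `K` with countable outer base. -/
structure Data (X : Type) [TopologicalSpace X] where
  p : X × X → X
  q : X × X → X
  e : X
  hp : Continuous p
  hq : Continuous q
  pq : ∀ x y, p (x, q (x, y)) = y
  qp : ∀ x y, q (x, p (x, y)) = y
  qe : ∀ x, q (x, x) = e
  K : Set X
  hK : IsCompact K
  eK : e ∈ K
  U : ℕ → Set X
  C : ℕ → Set X
  hU : ∀ n, IsOpen (U n)
  hC : ∀ n, IsClosed (C n)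
  KU : ∀ n, K ⊆ U n
  UC : ∀ n, U n ⊆ C n
  CU : ∀ n, C (n + 1) ⊆ U n
  base : ∀ O : Set X, IsOpen O → K ⊆ O → ∃ n, U n ⊆ O
  inter : ∀ x, (∀ n, x ∈ U n) → x ∈ K

namespace Data

variable (d : Data X)

theorem U_anti {m n : ℕ} (h : m ≤ n) : d.U n ⊆ d.U m := by
  induction h with
  | refl => exact Subset.rfl
  | step _ ih => exact ((d.UC _).trans (d.CU _)).trans ih

theorem pe (x : X) : d.p (x, d.e) = x := by
  rw [← d.qe x, d.pq]

/-- The symmetric neighbourhoods of the diagonal. -/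
def Dn (n : ℕ) (x y : X) : Prop :=
  ∀ k ∈ d.K, d.q (y, d.p (x, k)) ∈ d.U n ∧ d.q (x, d.p (y, k)) ∈ d.U n

/-- The equivalence relation. -/
def R (x y : X) : Prop :=
  ∀ k ∈ d.K, d.q (y, d.p (x, k)) ∈ d.K ∧ d.q (x, d.p (y, k)) ∈ d.K

theorem R_Dn {x y : X} (h : d.R x y) (n : ℕ) : d.Dn n x y :=
  fun k hk => ⟨d.KU n (h k hk).1, d.KU n (h k hk).2⟩

theorem R_of_Dn {x y : X} (h : ∀ n, d.Dn n x y) : d.R x y :=
  fun k hk => ⟨d.inter _ fun n => (h n k hk).1, d.inter _ fun n => (h n k hk).2⟩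

theorem Dn_symm {n : ℕ} {x y : X} (h : d.Dn n x y) : d.Dn n y x :=
  fun k hk => ⟨(h k hk).2, (h k hk).1⟩

theorem R_symm {x y : X} (h : d.R x y) : d.R y x :=
  fun k hk => ⟨(h k hk).2, (h k hk).1⟩

theorem R_refl (x : X) : d.R x x := fun k hk => by simp [d.qp, hk]

theorem Dn_anti {m n : ℕ} (h : m ≤ n) {x y : X} (hd : d.Dn n x y) : d.Dn m x y :=
  fun k hk => ⟨d.U_anti h (hd k hk).1, d.U_anti h (hd k hk).2⟩

theorem R_trans_aux {x y z : X} (h1 : d.R x y) (h2 : d.R y z) (k : X) (hk : k ∈ d.K) :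
    d.q (z, d.p (x, k)) ∈ d.K := by
  have h3 := (h1 k hk).1
  have h4 := (h2 _ h3).1
  rwa [d.pq] at h4

theorem R_trans {x y z : X} (h1 : d.R x y) (h2 : d.R y z) : d.R x z :=
  fun k hk => ⟨d.R_trans_aux h1 h2 k hk, d.R_trans_aux (d.R_symm h2) (d.R_symm h1) k hk⟩

theorem isOpen_Dn (n : ℕ) : IsOpen {z : X × X | d.Dn n z.1 z.2} := by
  rw [isOpen_iff_mem_nhds]
  rintro z hz
  have := d.hK.eventually_forall_of_forall_eventually (x₀ := z)
    (P := fun z k => d.q (z.2, d.p (z.1, k)) ∈ d.U n ∧ d.q (z.1, d.p (z.2, k)) ∈ d.U n) ?_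
  · exact this
  · intro k hk
    have c1 : Continuous fun w : (X × X) × X => d.q (w.1.2, d.p (w.1.1, w.2)) :=
      d.hq.comp ((continuous_snd.comp continuous_fst).prodMk
        (d.hp.comp ((continuous_fst.comp continuous_fst).prodMk continuous_snd)))
    have c2 : Continuous fun w : (X × X) × X => d.q (w.1.1, d.p (w.1.2, w.2)) :=
      d.hq.comp ((continuous_fst.comp continuous_fst).prodMk
        (d.hp.comp ((continuous_snd.comp continuous_fst).prodMk continuous_snd)))
    have e1 := (c1.continuousAt (x := (z, k))).preimage_mem_nhds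
      ((d.hU n).mem_nhds (hz k hk).1)
    have e2 := (c2.continuousAt (x := (z, k))).preimage_mem_nhds
      ((d.hU n).mem_nhds (hz k hk).2)
    filter_upwards [e1, e2] with w h1 h2 using ⟨h1, h2⟩

/-- Off the relation `R`, some `Dn n` fails in a neighbourhood. -/
theorem not_R {x y : X} (h : ¬ d.R x y) : ∃ n, ∀ᶠ z : X × X in 𝓝 (x, y), ¬ d.Dn n z.1 z.2 := by
  have h' : ¬ ∀ n, d.Dn n x y := fun h' => h (d.R_of_Dn h')
  push Not at h'
  obtain ⟨m, hm⟩ := h'
  unfold Dn at hm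
  push Not at hm
  obtain ⟨k, hk, hm⟩ := hm
  refine ⟨m + 1, ?_⟩
  have c1 : Continuous fun w : X × X => d.q (w.2, d.p (w.1, k)) :=
    d.hq.comp (continuous_snd.prodMk (d.hp.comp (continuous_fst.prodMk continuous_const)))
  have c2 : Continuous fun w : X × X => d.q (w.1, d.p (w.2, k)) :=
    d.hq.comp (continuous_fst.prodMk (d.hp.comp (continuous_snd.prodMk continuous_const)))
  by_cases h1 : d.q (y, d.p (x, k)) ∈ d.U m
  · have h2 := hm h1
    have h3 : d.q (x, d.p (y, k)) ∉ d.C (m + 1) := fun h => h2 (d.CU m h)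
    have e2 := (c2.continuousAt (x := (x, y))).preimage_mem_nhds
      ((d.hC (m + 1)).isOpen_compl.mem_nhds h3)
    filter_upwards [e2] with w hw hD
    exact hw (d.UC _ (hD k hk).2)
  · have h3 : d.q (y, d.p (x, k)) ∉ d.C (m + 1) := fun h => h1 (d.CU m h)
    have e2 := (c1.continuousAt (x := (x, y))).preimage_mem_nhds
      ((d.hC (m + 1)).isOpen_compl.mem_nhds h3)
    filter_upwards [e2] with w hw hD
    exact hw (d.UC _ (hD k hk).1)

theorem Dn_q {n : ℕ} {x y : X} (h : d.Dn n x y) : d.q (x, y) ∈ d.U n := by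
  have := (h d.e d.eK).2
  rwa [d.pe] at this

theorem R_q {x y : X} (h : d.R x y) : d.q (x, y) ∈ d.K := by
  have := (h d.e d.eK).2
  rwa [d.pe] at this

/-- `{x} × O`-type statement: joint upper semicontinuity. -/
theorem usc (x : X) {O : Set X} (hO : IsOpen O) (h : ∀ y, d.R x y → y ∈ O) :
    ∃ n, ∀ᶠ x' in 𝓝 x, ∀ y, d.Dn n x' y → y ∈ O := by
  set L : Set X := (fun k => d.p (x, k)) '' d.K with hL
  have hLc : IsCompact L := d.hK.image (d.hp.comp (continuous_const.prodMk continuous_id))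
  have hLO : IsCompact (L \ O) := hLc.diff hO
  let G : ℕ → Set (X × X) := fun n => interior {z : X × X | ¬ d.Dn n z.1 z.2}
  have hG : ∀ n, IsOpen (G n) := fun n => isOpen_interior
  have hGm : ∀ m n, m ≤ n → G m ⊆ G n := fun m n hmn =>
    interior_mono fun z hz hD => hz (d.Dn_anti hmn hD)
  obtain ⟨n, hn⟩ := hLO.elim_directed_cover (fun n => (fun y => (x, y)) ⁻¹' G n)
    (fun n => (hG n).preimage (by fun_prop)) (by
      intro y hy
      have : ¬ d.R x y := fun hR => hy.2 (h y hR)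
      obtain ⟨n, hn⟩ := d.not_R this
      exact mem_iUnion.2 ⟨n, mem_interior_iff_mem_nhds.2 hn⟩) (by
      intro m n
      exact ⟨max m n, preimage_mono (hGm _ _ (le_max_left _ _)),
        preimage_mono (hGm _ _ (le_max_right _ _))⟩)
  obtain ⟨u, v, hu, hv, hxu, hLv, huv⟩ := generalized_tube_lemma (isCompact_singleton (x := x)) hLO
    (hG n) (by
      rintro ⟨a, b⟩ ⟨ha, hb⟩
      rw [mem_singleton_iff] at ha
      subst ha
      exact hn hb)
  obtain ⟨u', v', hu', hv', hxu', hKv', huv'⟩ := generalized_tube_lemma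
    (isCompact_singleton (x := x)) d.hK ((hv.union hO).preimage d.hp) (by
      rintro ⟨a, b⟩ ⟨ha, hb⟩
      rw [mem_singleton_iff] at ha
      subst ha
      by_cases hb' : d.p (a, b) ∈ O
      · exact Or.inr hb'
      · exact Or.inl (hLv ⟨⟨b, hb, rfl⟩, hb'⟩))
  obtain ⟨n', hn'⟩ := d.base v' hv' hKv'
  refine ⟨max n n', ?_⟩
  filter_upwards [hu.mem_nhds (hxu rfl), hu'.mem_nhds (hxu' rfl)] with x' hx1 hx2 y hy
  have h1 : d.q (x', y) ∈ v' := hn' (d.U_anti (le_max_right _ _) (d.Dn_q hy))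
  have h2 : d.p (x', d.q (x', y)) ∈ v ∪ O := huv' (mk_mem_prod hx2 h1)
  rw [d.pq] at h2
  rcases h2 with h2 | h2
  · exact absurd (d.Dn_anti (le_max_left _ _) hy) (interior_subset (huv (mk_mem_prod hx1 h2)))
  · exact h2

theorem isCompact_class [T2Space X] (x : X) : IsCompact {y | d.R x y} := by
  set L : Set X := (fun k => d.p (x, k)) '' d.K with hL
  have hLc : IsCompact L := d.hK.image (d.hp.comp (continuous_const.prodMk continuous_id))
  refine hLc.of_isClosed_subset ?_ ?_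
  · rw [← isOpen_compl_iff, isOpen_iff_mem_nhds]
    intro y hy
    obtain ⟨n, hn⟩ := d.not_R hy
    have hc : Continuous fun y : X => (x, y) := by fun_prop
    have := (hc.continuousAt (x := y)).preimage_mem_nhds hn
    filter_upwards [this] with z hz hR
    exact hz (d.R_Dn hR n)
  · intro y hy
    exact ⟨d.q (x, y), d.R_q hy, d.pq _ _⟩

/-- iterated neighbourhoods -/
def E (n : ℕ) (x : X) : ℕ → Set X
  | 0 => {x}
  | k + 1 => {z | ∃ y ∈ E n x k, d.Dn n y z}

theorem E_anti {m n : ℕ} (h : m ≤ n) (x : X) (k : ℕ) : d.E n x k ⊆ d.E m x k := by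
  induction k with
  | zero => exact Subset.rfl
  | succ k ih =>
    rintro z ⟨y, hy, hz⟩
    exact ⟨y, ih hy, d.Dn_anti h hz⟩

theorem E_base [T2Space X] (x : X) (k : ℕ) : ∀ O : Set X, IsOpen O → (∀ y, d.R x y → y ∈ O) →
    ∃ n, d.E n x k ⊆ O := by
  induction k with
  | zero =>
    intro O _ h
    refine ⟨0, ?_⟩
    rintro z hz
    rw [show z = x from hz]
    exact h x (d.R_refl x)
  | succ k ih =>
    intro O hO h
    let G : ℕ → Set X := fun n => interior {y | ∀ z, d.Dn n y z → z ∈ O}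
    obtain ⟨n, hn⟩ := (d.isCompact_class x).elim_directed_cover G (fun n => isOpen_interior) (by
      intro y hy
      obtain ⟨n, hn⟩ := d.usc y hO fun z hz => h z (d.R_trans hy hz)
      exact mem_iUnion.2 ⟨n, mem_interior_iff_mem_nhds.2 hn⟩) (by
      intro m n
      refine ⟨max m n, ?_, ?_⟩
      · exact interior_mono fun y hy z hz => hy z (d.Dn_anti (le_max_left _ _) hz)
      · exact interior_mono fun y hy z hz => hy z (d.Dn_anti (le_max_right _ _) hz))
    obtain ⟨n', hn'⟩ := ih (G n) isOpen_interior hn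
    refine ⟨max n n', ?_⟩
    rintro z ⟨y, hy, hz⟩
    exact interior_subset (hn' (d.E_anti (le_max_right _ _) x k hy)) z
      (d.Dn_anti (le_max_left _ _) hz)

/-- the largest saturated subset -/
def sat (O : Set X) : Set X := {y | ∀ z, d.R y z → z ∈ O}

theorem sat_open {O : Set X} (hO : IsOpen O) : IsOpen (d.sat O) := by
  rw [isOpen_iff_mem_nhds]
  intro y hy
  obtain ⟨n, hn⟩ := d.usc y hO hy
  filter_upwards [hn] with y' hy' z hz
  exact hy' z (d.R_Dn hz n)

theorem sat_subset (O : Set X) : d.sat O ⊆ O := fun y hy => hy y (d.R_refl y)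

theorem sat_R {O : Set X} {x y : X} (h : d.R x y) (hx : x ∈ d.sat O) : y ∈ d.sat O :=
  fun z hz => hx z (d.R_trans h hz)

include d in
theorem dspace [T2Space X] (N : X → Set X) (hN : ∀ x, N x ∈ 𝓝 x) :
    ∃ D : Set X, IsClosed D ∧ DiscreteTopology D ∧ (⋃ x ∈ D, N x) = Set.univ := by
  classical
  -- finite subsets of classes
  have h1 : ∀ x, ∃ s : Finset X, (∀ y ∈ s, d.R x y) ∧ {y | d.R x y} ⊆ ⋃ y ∈ s, interior (N y) := by
    intro x
    exact (d.isCompact_class x).elim_nhds_subcover (fun y => interior (N y))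
      (fun y _ => interior_mem_nhds.2 (hN y))
  choose s hsR hs using h1
  let O : X → Set X := fun x => ⋃ y ∈ s x, interior (N y)
  have hO : ∀ x, IsOpen (O x) := fun x => isOpen_biUnion fun y _ => isOpen_interior
  let S : X → Set X := fun x => d.sat (O x)
  have hSo : ∀ x, IsOpen (S x) := fun x => d.sat_open (hO x)
  have hSx : ∀ x y, d.R x y → y ∈ S x := fun x y h z hz => hs x (d.R_trans h hz)
  have h2 : ∀ x, ∃ n, d.E n x 4 ⊆ S x := fun x => d.E_base x 4 (S x) (hSo x) (hSx x)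
  choose ν hν using h2
  -- a well order refining `ν`
  let r : X → X → Prop := InvImage (Prod.Lex (· < ·) WellOrderingRel) (fun x => (ν x, x))
  have hwf : WellFounded r := InvImage.wf _
    (WellFounded.prod_lex (wellFounded_lt) (WellOrderingRel.isWellOrder (α := X)).wf)
  have hrlt : ∀ x y, ν x < ν y → r x y := fun x y h => Prod.Lex.left _ _ h
  have htri : ∀ x y, r x y ∨ x = y ∨ r y x := by
    intro x y
    rcases lt_trichotomy (ν x) (ν y) with h | h | h
    · exact Or.inl (hrlt x y h)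
    · rcases trichotomous_of (WellOrderingRel (α := X)) x y with h' | h' | h'
      · left
        show Prod.Lex (· < ·) WellOrderingRel (ν x, x) (ν y, y)
        rw [h]
        exact Prod.Lex.right _ h'
      · exact Or.inr (Or.inl h')
      · right; right
        show Prod.Lex (· < ·) WellOrderingRel (ν y, y) (ν x, x)
        rw [h]
        exact Prod.Lex.right _ h'
    · exact Or.inr (Or.inr (hrlt y x h))
  have hrle : ∀ x y, r x y → ν x ≤ ν y := by
    intro x y h
    by_contra hcon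
    rcases Prod.lex_iff.1 h with h' | h'
    · exact hcon (le_of_lt h')
    · exact hcon (le_of_eq h'.1)
  let F : (x : X) → ((y : X) → r y x → Prop) → Prop :=
    fun x ih => ∀ y (h : r y x), ih y h → x ∉ S y
  let T : X → Prop := hwf.fix (C := fun _ => Prop) F
  have hT : ∀ x, T x ↔ ∀ y, r y x → T y → x ∉ S y := by
    intro x
    have h3 : T x = F x (fun y _ => T y) := hwf.fix_eq (C := fun _ => Prop) F x
    rw [h3]
  have hcov : ∀ z, ∃ x, T x ∧ z ∈ S x := by
    intro z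
    by_cases hz : T z
    · exact ⟨z, hz, hSx z z (d.R_refl z)⟩
    · rw [hT] at hz
      push Not at hz
      obtain ⟨y, -, hy, hzy⟩ := hz
      exact ⟨y, hy, hzy⟩
  let D : Set X := {y | ∃ x, T x ∧ y ∈ s x}
  have hlf : ∀ z, ∃ V ∈ 𝓝 z, (V ∩ D).Finite := by
    intro z
    obtain ⟨x, hTx, hzx⟩ := hcov z
    have hV : S x ∩ {w | d.Dn (ν x) z w} ∈ 𝓝 z := by
      refine inter_mem ((hSo x).mem_nhds hzx) ?_
      have hc : Continuous fun y : X => (z, y) := by fun_prop
      exact (hc.continuousAt (x := z)).preimage_mem_nhds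
        ((d.isOpen_Dn (ν x)).mem_nhds (d.R_Dn (d.R_refl z) _))
    have key1 : ∀ x2 w, T x2 → w ∈ s x2 → w ∈ S x → ν x2 ≤ ν x := by
      intro x2 w hT2 hw hwS
      by_contra hcon
      have h3 := (hT x2).1 hT2 x (hrlt _ _ (not_le.1 hcon)) hTx
      exact h3 (d.sat_R (d.R_symm (hsR x2 w hw)) hwS)
    have key2 : ∀ x1 w1 x2 w2, T x1 → T x2 → w1 ∈ s x1 → w2 ∈ s x2 → ν x1 ≤ ν x →
        d.Dn (ν x) z w1 → d.Dn (ν x) z w2 → ¬ r x1 x2 := by
      intro x1 w1 x2 w2 hT1 hT2 hw1 hw2 hn1 hD1 hD2 hr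
      refine (hT x2).1 hT2 x1 hr hT1 (hν x1 ?_)
      refine ⟨w2, ⟨z, ⟨w1, ⟨x1, rfl, d.R_Dn (hsR _ _ hw1) _⟩, ?_⟩, ?_⟩, ?_⟩
      · exact d.Dn_anti hn1 (d.Dn_symm hD1)
      · exact d.Dn_anti hn1 hD2
      · exact d.R_Dn (d.R_symm (hsR _ _ hw2)) _
    refine ⟨_, hV, ?_⟩
    by_cases hex : ∃ x1 w1, T x1 ∧ w1 ∈ s x1 ∧ w1 ∈ S x ∧ d.Dn (ν x) z w1
    · obtain ⟨x1, w1, hT1, hw1, hw1S, hw1D⟩ := hex
      refine (s x1).finite_toSet.subset ?_
      rintro w ⟨⟨hwS, hwD⟩, x2, hT2, hw⟩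
      have hn1 := key1 x1 w1 hT1 hw1 hw1S
      have hn2 := key1 x2 w hT2 hw hwS
      rcases htri x1 x2 with h | h | h
      · exact absurd h (key2 _ _ _ _ hT1 hT2 hw1 hw hn1 hw1D hwD)
      · subst h; exact hw
      · exact absurd h (key2 _ _ _ _ hT2 hT1 hw hw1 hn2 hwD hw1D)
    · refine Set.finite_empty.subset ?_
      rintro w ⟨⟨hwS, hwD⟩, x2, hT2, hw⟩
      exact hex ⟨x2, w, hT2, hw, hwS, hwD⟩
  have hcd : IsClosed D ∧ IsDiscrete D := by
    rw [isClosed_and_discrete_iff]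
    intro z
    obtain ⟨V, hV, hf⟩ := hlf z
    rw [Filter.disjoint_principal_right]
    have h3 : ((V ∩ D) \ {z})ᶜ ∈ 𝓝 z :=
      (hf.subset sdiff_subset).isClosed.isOpen_compl.mem_nhds (by simp)
    rw [mem_nhdsWithin_iff_eventually] at *
    filter_upwards [hV, h3] with w hw1 hw2 hw3 hw4
    exact hw2 ⟨⟨hw1, hw4⟩, hw3⟩
  refine ⟨D, hcd.1, ?_, ?_⟩
  · exact isDiscrete_iff_discreteTopology.1 hcd.2
  · rw [eq_univ_iff_forall]
    intro z
    obtain ⟨x, hTx, hzx⟩ := hcov z
    have h3 : z ∈ O x := d.sat_subset _ hzx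
    obtain ⟨y, hy, hzy⟩ := mem_iUnion₂.1 h3
    exact mem_iUnion₂.2 ⟨y, ⟨x, hTx, hy⟩, interior_subset hzy⟩

end Data

end Pool.Agent.H960R3.Rect
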